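import Pool.Agent.Lib.MP_fb5b0b_nt.FB.Defs

/-!
MP_fb5b0b_nt, FB, module Cfg (helper58): the pattern.
-/

set_option autoImplicit false

namespace Pool.Agent.Lib.MP_fb5b0b_nt.FB

open Finset
open Pool.Agent.Lib.MP_9f2731_nt.GP
open Pool.Agent.Lib.MP_9f2731_nt.GP.Rel (av Ind pk HLFC Cut CutG)
open Pool.Agent.Lib.MP_9f2731_nt.SS (nl Fo dt Wq Rs Scl CorLStmt MomLStmt S_Sng)

private theorem Cfg_Lf {N : ℕ} (k : ℕ) (ex : ℕ → ℕ) (j : ℕ) (x : Fin (k + 1) → ZMod N) :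
    Lf k ex j x = (ex j : ZMod N) * (∑ l : Fin k, x l.castSucc) +
      (x (Fin.last k) - ∑ l : Fin k, (ex (l : ℕ) : ZMod N) * x l.castSucc) := by
  unfold Lf
  rw [Finset.mul_sum]
  have h1 : (∑ l : Fin k, ((ex j : ZMod N) - (ex (l : ℕ) : ZMod N)) * x l.castSucc) =
      (∑ l : Fin k, (ex j : ZMod N) * x l.castSucc) - ∑ l : Fin k, (ex (l : ℕ) : ZMod N) * x l.castSucc := by
    rw [← Finset.sum_sub_distrib]
    exact Finset.sum_congr rfl fun l _ => by ring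
  rw [h1]
  ring

private theorem Cfg_inner {G : Type} [CommRing G] [Fintype G] (g : G → G → ℝ) (b c s : G) :
    ∑ x0 : G, ∑ xl : G, g (x0 + c) (xl - (b * x0 + s)) = ∑ a : G, ∑ h : G, g a h := by
  have h1 : ∀ x0 : G, ∑ xl : G, g (x0 + c) (xl - (b * x0 + s)) = ∑ h : G, g (x0 + c) h := by
    intro x0
    exact Fintype.sum_equiv (Equiv.subRight (b * x0 + s)) _ _ (fun xl => rfl)
  rw [Finset.sum_congr rfl (fun x0 _ => h1 x0)]
  exact Fintype.sum_equiv (Equiv.addRight c) _ _ (fun x0 => rfl)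

theorem pCfg : S_Cfg := by
  intro k N _ f q ex hk
  obtain ⟨m, rfl⟩ : ∃ m, k = m + 1 := ⟨k - 1, by omega⟩
  obtain ⟨g, hg⟩ : ∃ g : ZMod N → ZMod N → ℝ, g = fun a h =>
      q a * ∏ j ∈ range (m + 1), f (ex j) ((ex j : ZMod N) * a + h) := ⟨_, rfl⟩
  have hF : ∀ x : Fin (m + 1 + 1) → ZMod N, (∏ j, gW (m + 1) f q ex j x) =
      g (∑ l : Fin (m + 1), x l.castSucc)
        (x (Fin.last (m + 1)) - ∑ l : Fin (m + 1), (ex (l : ℕ) : ZMod N) * x l.castSucc) := by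
    intro x
    rw [Fin.prod_univ_castSucc, hg, mul_comm]
    show _ = q _ * ∏ j ∈ range (m + 1), _
    rw [Finset.prod_range]
    congr 1
    · unfold gW
      rw [if_neg (by simp)]
    · refine Finset.prod_congr rfl fun j _ => ?_
      unfold gW
      rw [if_pos (show ((j.castSucc : Fin (m + 1 + 1)) : ℕ) < m + 1 from j.2), ← Cfg_Lf]
      rfl
  have hsum : ∑ x : Fin (m + 1 + 1) → ZMod N, ∏ j, gW (m + 1) f q ex j x =
      (N : ℝ) ^ m * ∑ a : ZMod N, ∑ h : ZMod N, g a h := by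
    rw [Finset.sum_congr rfl (fun x _ => hF x)]
    rw [← Equiv.sum_comp (Fin.consEquiv (fun _ : Fin (m + 1 + 1) => ZMod N)),
      Fintype.sum_prod_type]
    have h1 : ∀ x0 : ZMod N, ∑ y : Fin (m + 1) → ZMod N,
        g (∑ l : Fin (m + 1),
            (Fin.consEquiv (fun _ : Fin (m + 1 + 1) => ZMod N)) (x0, y) l.castSucc)
          ((Fin.consEquiv (fun _ : Fin (m + 1 + 1) => ZMod N)) (x0, y) (Fin.last (m + 1)) -
            ∑ l : Fin (m + 1), (ex (l : ℕ) : ZMod N) *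
              (Fin.consEquiv (fun _ : Fin (m + 1 + 1) => ZMod N)) (x0, y) l.castSucc) =
        ∑ z : Fin m → ZMod N, ∑ xl : ZMod N, g (x0 + ∑ i : Fin m, z i)
          (xl - ((ex 0 : ZMod N) * x0 + ∑ i : Fin m, (ex ((i : ℕ) + 1) : ZMod N) * z i)) := by
      intro x0
      rw [← Equiv.sum_comp (Fin.snocEquiv (fun _ : Fin (m + 1) => ZMod N)),
        Fintype.sum_prod_type, Finset.sum_comm]
      refine Finset.sum_congr rfl (fun z _ => Finset.sum_congr rfl (fun xl _ => ?_))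
      have e0 : (Fin.consEquiv (fun _ : Fin (m + 1 + 1) => ZMod N))
          (x0, (Fin.snocEquiv (fun _ : Fin (m + 1) => ZMod N)) (xl, z))
          (0 : Fin (m + 1)).castSucc = x0 := rfl
      have e1 : ∀ i : Fin m, (Fin.consEquiv (fun _ : Fin (m + 1 + 1) => ZMod N))
          (x0, (Fin.snocEquiv (fun _ : Fin (m + 1) => ZMod N)) (xl, z))
          i.succ.castSucc = z i := by
        intro i
        rw [← Fin.succ_castSucc]
        show (Fin.snocEquiv (fun _ : Fin (m + 1) => ZMod N)) (xl, z) i.castSucc = z i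
        simp [Fin.snocEquiv]
      have e2 : (Fin.consEquiv (fun _ : Fin (m + 1 + 1) => ZMod N))
          (x0, (Fin.snocEquiv (fun _ : Fin (m + 1) => ZMod N)) (xl, z))
          (Fin.last (m + 1)) = xl := by
        rw [← Fin.succ_last]
        show (Fin.snocEquiv (fun _ : Fin (m + 1) => ZMod N)) (xl, z) (Fin.last m) = xl
        simp [Fin.snocEquiv]
      rw [Fin.sum_univ_succ, Fin.sum_univ_succ, e0, e2]
      simp only [e1]
      rfl
    rw [Finset.sum_congr rfl (fun x0 _ => h1 x0), Finset.sum_comm]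
    have h2 : ∀ z : Fin m → ZMod N, ∑ x0 : ZMod N, ∑ xl : ZMod N, g (x0 + ∑ i : Fin m, z i)
          (xl - ((ex 0 : ZMod N) * x0 + ∑ i : Fin m, (ex ((i : ℕ) + 1) : ZMod N) * z i)) =
        ∑ a : ZMod N, ∑ h : ZMod N, g a h := fun z => Cfg_inner g _ _ _
    rw [Finset.sum_congr rfl (fun z _ => h2 z), Finset.sum_const, Finset.card_univ,
      Fintype.card_fun, Fintype.card_fin, nsmul_eq_mul, Nat.cast_pow, ZMod.card]
  have hgs : (∑ a : ZMod N, ∑ h : ZMod N,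
      q a * ∏ j ∈ range (m + 1), f (ex j) ((ex j : ZMod N) * a + h)) =
      ∑ a : ZMod N, ∑ h : ZMod N, g a h := by
    rw [hg]
  rw [hgs]
  unfold av
  rw [hsum, Fintype.card_fun, Fintype.card_fin, Nat.cast_pow, ZMod.card]
  have hG : (N : ℝ) ≠ 0 := by
    exact_mod_cast NeZero.ne N
  have h3 : (N : ℝ) ^ (m + 1 + 1) = (N : ℝ) ^ m * (N : ℝ) ^ 2 := by ring
  rw [h3, mul_div_mul_left _ _ (pow_ne_zero m hG)]

end Pool.Agent.Lib.MP_fb5b0b_nt.FB
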