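import Pool.Agent.Lib.MP_fb5b0b_nt.FB.Defs

/-!
MP_fb5b0b_nt, FB, module Cut (helper58): change of variables, as GP/Rel/Cfm.lean.
-/

set_option autoImplicit false

namespace Pool.Agent.Lib.MP_fb5b0b_nt.FB

open Finset
open Pool.Agent.Lib.MP_9f2731_nt.GP
open Pool.Agent.Lib.MP_9f2731_nt.GP.Rel (av Ind pk HLFC Cut CutG)
open Pool.Agent.Lib.MP_9f2731_nt.SS (nl Fo dt Wq Rs Scl CorLStmt MomLStmt S_Sng)

/-- the point with v at j and the solutions elsewhere -/
private def Cut_X {r : ℕ} {G : Type} (j : Fin (r + 1)) (e : Fin r → G ≃ G) (v : G)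
    (y : Fin r → G) : Fin (r + 1) → G :=
  Fin.insertNth (α := fun _ => G) j v (fun a => (e a).symm (y a))

/-- the equivalence -/
private def Cut_E {r : ℕ} {G : Type} (j : Fin (r + 1)) (e : Fin r → G ≃ G) :
    G × (Fin r → G) ≃ (Fin (r + 1) → G) :=
  ((Equiv.refl G).prodCongr (Equiv.piCongrRight (fun a => (e a).symm))).trans
    (Fin.insertNthEquiv (fun _ => G) j)

private theorem Cut_E_apply {r : ℕ} {G : Type} (j : Fin (r + 1)) (e : Fin r → G ≃ G) (v : G)
    (y : Fin r → G) : Cut_E j e (v, y) = Cut_X j e v y := rfl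

private theorem Cut_av {r : ℕ} {G : Type} [Fintype G] (j : Fin (r + 1)) (e : Fin r → G ≃ G)
    (F : (Fin (r + 1) → G) → ℝ) :
    av F = av (fun v : G => av (fun y : Fin r → G => F (Cut_X j e v y))) := by
  unfold av
  have h1 : (∑ x : Fin (r + 1) → G, F x) = ∑ v : G, ∑ y : Fin r → G, F (Cut_X j e v y) := by
    rw [← Fintype.sum_equiv (Cut_E j e) (fun p => F (Cut_X j e p.1 p.2)) F
      (fun p => by rw [← Cut_E_apply]), Fintype.sum_prod_type]
  have h2 : (Fintype.card (Fin (r + 1) → G) : ℝ) =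
      (Fintype.card (Fin r → G) : ℝ) * (Fintype.card G : ℝ) := by
    rw [Fintype.card_fun, Fintype.card_fun, Fintype.card_fin, Fintype.card_fin]
    push_cast
    ring
  rw [h1, h2, ← Finset.sum_div, div_div]

private theorem Cut_prod {r : ℕ} (j : Fin (r + 1)) (f : Fin (r + 1) → ℝ) :
    ∏ i ∈ univ.erase j, f i = ∏ a : Fin r, f (j.succAbove a) := by
  have h1 : (univ.erase j : Finset (Fin (r + 1))) = univ.image j.succAbove := by
    ext i
    simp only [Finset.mem_erase, Finset.mem_univ, and_true, Finset.mem_image, true_and]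
    constructor
    · intro h
      exact Fin.exists_succAbove_eq h
    · rintro ⟨a, rfl⟩
      exact Fin.succAbove_ne j a
  rw [h1, Finset.prod_image]
  intro a _ b _ hab
  exact Fin.succAbove_right_injective hab

private theorem Cut_abs {G : Type} [Fintype G] [Nonempty G] (g : G → ℝ) (τ : ℝ)
    (h : ∀ v, |g v| ≤ τ) : |av g| ≤ τ := by
  unfold av
  have h0 : (0 : ℝ) < (Fintype.card G : ℝ) := by
    exact_mod_cast Fintype.card_pos
  rw [abs_div, abs_of_pos h0, div_le_iff₀ h0]
  calc |∑ x, g x| ≤ ∑ x, |g x| := Finset.abs_sum_le_sum_abs _ _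
    _ ≤ ∑ _x : G, τ := Finset.sum_le_sum fun x _ => h x
    _ = τ * (Fintype.card G : ℝ) := by
        rw [Finset.sum_const, Finset.card_univ, nsmul_eq_mul, mul_comm]

/-- the coefficients -/
private def Cut_c {N : ℕ} (k : ℕ) (ex : ℕ → ℕ) (j : ℕ) (i : Fin (k + 1)) : ZMod N :=
  if (i : ℕ) < k then (ex j : ZMod N) - (ex (i : ℕ) : ZMod N) else 1

private theorem Cut_Lf {N : ℕ} (k : ℕ) (ex : ℕ → ℕ) (j : Fin (k + 1)) (hj : (j : ℕ) < k)
    (x : Fin (k + 1) → ZMod N) :
    Lf k ex j x = ∑ a : Fin k, Cut_c k ex j (j.succAbove a) * x (j.succAbove a) := by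
  have h1 : Lf k ex j x = ∑ i : Fin (k + 1), Cut_c k ex j i * x i := by
    rw [Fin.sum_univ_castSucc]
    unfold Lf
    congr 1
    · refine Finset.sum_congr rfl fun l _ => ?_
      unfold Cut_c
      rw [if_pos (by simp)]
      rfl
    · unfold Cut_c
      rw [if_neg (by simp), one_mul]
  have h2 : Cut_c (N := N) k ex j j = 0 := by
    unfold Cut_c
    rw [if_pos hj, sub_self]
  rw [h1, Fin.sum_univ_succAbove _ j, h2, zero_mul, zero_add]

private theorem Cut_c_ne {k N : ℕ} (hN : N.Prime) (ex : ℕ → ℕ) (j : Fin (k + 1))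
    (hj : (j : ℕ) < k)
    (hex : ∀ l l' : ℕ, l < k → l' < k → l ≠ l' → (ex l : ZMod N) ≠ (ex l' : ZMod N)) (a : Fin k) :
    Cut_c (N := N) k ex j (j.succAbove a) ≠ 0 := by
  haveI : Fact N.Prime := ⟨hN⟩
  unfold Cut_c
  split_ifs with h
  · intro h0
    refine hex j (j.succAbove a : Fin (k + 1)) hj h ?_ (sub_eq_zero.mp h0)
    intro h1
    exact Fin.succAbove_ne j a (Fin.ext h1.symm)
  · exact one_ne_zero

theorem pCut : S_Cut := by
  intro k N _ ex j u τ hj hN hex hC h hh
  haveI : Fact N.Prime := ⟨hN⟩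
  let e : Fin k → ZMod N ≃ ZMod N := fun a =>
    Equiv.mulLeft₀ (Cut_c k ex j (j.succAbove a)) (Cut_c_ne hN ex j hj hex a)
  have he : ∀ (a : Fin k) (x : ZMod N), e a x = Cut_c k ex j (j.succAbove a) * x := fun a x => rfl
  have hX1 : ∀ (v : ZMod N) (y : Fin k → ZMod N) (a : Fin k),
      Cut_X j e v y (j.succAbove a) = (e a).symm (y a) := by
    intro v y a
    unfold Cut_X
    rw [Fin.insertNth_apply_succAbove]
  have hX2 : ∀ (v : ZMod N) (y : Fin k → ZMod N), Cut_X j e v y j = v := by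
    intro v y
    unfold Cut_X
    rw [Fin.insertNth_apply_same]
  have hfrm : ∀ (v : ZMod N) (y : Fin k → ZMod N), Lf k ex j (Cut_X j e v y) = ∑ a, y a := by
    intro v y
    rw [Cut_Lf k ex j hj]
    refine Finset.sum_congr rfl fun a _ => ?_
    rw [← he, hX1, Equiv.apply_symm_apply]
  rw [Cut_av j e]
  refine Cut_abs _ τ fun v => ?_
  have h1 := hC (fun a y => h (j.succAbove a) (Cut_X j e v y)) (by
    intro a
    refine ⟨?_, fun y => (hh _ (Fin.succAbove_ne j a)).2 _⟩
    intro y w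
    have h2 : Cut_X j e v (Function.update y a w) =
        Function.update (Cut_X j e v y) (j.succAbove a) ((e a).symm w) := by
      funext i
      rcases eq_or_ne i j with rfl | hi
      · rw [hX2, Function.update_of_ne (Fin.succAbove_ne i a).symm, hX2]
      · obtain ⟨b, rfl⟩ := Fin.exists_succAbove_eq hi
        rw [hX1]
        rcases eq_or_ne b a with rfl | hb
        · rw [Function.update_self, Function.update_self]
        · rw [Function.update_of_ne hb, Function.update_of_ne, hX1]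
          exact fun hba => hb (Fin.succAbove_right_injective hba)
    show h (j.succAbove a) (Cut_X j e v (Function.update y a w)) =
      h (j.succAbove a) (Cut_X j e v y)
    rw [h2]
    exact (hh _ (Fin.succAbove_ne j a)).1 _ _)
  have h3 : (fun y : Fin k → ZMod N => u (Lf k ex j (Cut_X j e v y)) *
      ∏ i ∈ univ.erase j, h i (Cut_X j e v y)) =
      (fun y : Fin k → ZMod N => u (∑ i, y i) * ∏ a, h (j.succAbove a) (Cut_X j e v y)) := by
    funext y
    rw [hfrm, Cut_prod]
  show |av (fun y : Fin k → ZMod N => u (Lf k ex j (Cut_X j e v y)) *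
      ∏ i ∈ univ.erase j, h i (Cut_X j e v y))| ≤ τ
  rw [h3]
  exact h1

end Pool.Agent.Lib.MP_fb5b0b_nt.FB
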