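import Pool.Agent.Lib.MP_fb5b0b_nt.FB.Defs

/-!
MP_fb5b0b_nt, FB, module Den: density of the primes in the windows.
-/

set_option autoImplicit false

namespace Pool.Agent.Lib.MP_fb5b0b_nt.FB

open Finset
open Pool.Agent.Lib.MP_9f2731_nt.GP
open Pool.Agent.Lib.MP_9f2731_nt.GP.Rel (av Ind pk HLFC Cut CutG)
open Pool.Agent.Lib.MP_9f2731_nt.GP.Asm (eb lfm)
open Pool.Agent.Lib.MP_9f2731_nt.SS (nl Fo dt Wq Rs Scl CorLStmt MomLStmt S_Sng)

private theorem Den_dvd {w p : ℕ} (hp : p.Prime) (h : p ≤ w) : p ∣ Wp w := by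
  unfold Wp primorial
  exact Finset.dvd_prod_of_mem (fun p => p) (Finset.mem_filter.mpr
    ⟨Finset.mem_range.mpr (by omega), hp⟩)

private theorem Den_W0 (w : ℕ) : 0 < Wp w := primorial_pos w

private theorem Den_two {M w : ℕ} (hM : 1 ≤ M) (hw : 2 ≤ w) : 2 ≤ Wq M w :=
  Nat.le_of_dvd (Nat.mul_pos hM (Den_W0 w)) (Dvd.dvd.mul_left (Den_dvd Nat.prime_two hw) M)

private theorem Den_alg (p t κ L N X e : ℝ) (hp : p ≠ 0) (ht : t ≠ 0) (hL : L ≠ 0) (hN : N ≠ 0)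
    (hX : X ≠ 0) (he : e ≠ 0) :
    t / p * (κ * L) * (3 / 4) / (N * X) * (N / (8 * e) * (1 / 16 * (p / t * (e * X) / L))) =
      3 / 512 * κ := by
  field_simp
  ring

/-- the exceptions are few -/
private theorem Den_small (κ : ℝ) (hκ : 0 < κ) (hκ1 : κ < 1) :
    ∀ᶠ x : ℝ in Filter.atTop, 2 * x ^ (1 / 2 : ℝ) + 1 + x ^ κ ≤ 1 / 16 * (x / Real.log x) := by
  have h1 := (isLittleO_log_rpow_atTop (show (0 : ℝ) < 1 / 2 by norm_num)).bound
      (show (0 : ℝ) < 1 / 128 by norm_num)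
  have h2 := (isLittleO_log_rpow_atTop (sub_pos.mpr hκ1)).bound
      (show (0 : ℝ) < 1 / 64 by norm_num)
  have h3 := Real.tendsto_log_atTop.eventually_ge_atTop 1
  filter_upwards [h1, h2, h3, Filter.eventually_ge_atTop 1] with x a1 a2 a3 a4
  have hx0 : (0 : ℝ) < x := by linarith
  have hL0 : 0 < Real.log x := by linarith
  rw [Real.norm_of_nonneg (Real.rpow_nonneg hx0.le _), Real.norm_of_nonneg hL0.le] at a1 a2
  have b1 : x ^ (1 / 2 : ℝ) * x ^ (1 / 2 : ℝ) = x := by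
    rw [← Real.rpow_add hx0]
    norm_num
  have b2 : x ^ κ * x ^ (1 - κ) = x := by
    rw [← Real.rpow_add hx0]
    have : κ + (1 - κ) = 1 := by ring
    rw [this, Real.rpow_one]
  have b3 : (1 : ℝ) ≤ x ^ (1 / 2 : ℝ) := Real.one_le_rpow a4 (by norm_num)
  have c1 : x ^ (1 / 2 : ℝ) * Real.log x ≤ 1 / 128 * x := by
    have := mul_le_mul_of_nonneg_left a1 (Real.rpow_nonneg hx0.le (1 / 2 : ℝ))
    nlinarith
  have c2 : x ^ κ * Real.log x ≤ 1 / 64 * x := by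
    have := mul_le_mul_of_nonneg_left a2 (Real.rpow_nonneg hx0.le κ)
    nlinarith
  have c3 : Real.log x ≤ 1 / 128 * x := by nlinarith
  rw [← mul_div_assoc, le_div_iff₀ hL0]
  nlinarith

/-- many primes in the progression -/
private theorem Den_cnt (hA : ApStmt) (R M w : ℕ) (κ : ℝ) (hκ : 0 < κ) (hκ1 : κ < 1) (hM : 1 ≤ M)
    (hMw : M ≤ w) (hw : 2 ≤ w) :
    ∃ X0 : ℝ, ∀ X : ℕ, X0 ≤ X → ∀ N : ℕ, N ^ 2 ≤ X → ∀ e : ℕ, Mu R e →
      (1 / 16 : ℝ) * (((Wp w : ℝ) / (Wp w).totient) * (e * X) / Real.log X) ≤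
        (((Icc 1 (e * X)).filter (fun b => (Wq M w * b + 1).Prime ∧
          (X : ℝ) ^ κ < ((Wq M w * b + 1 : ℕ) : ℝ) ∧ 2 * N ≤ b ∧ b < e * X)).card : ℝ) := by
  classical
  obtain ⟨ε1, hε1, hA⟩ := hA
  obtain ⟨Xa, hXa⟩ := hA w hw
  have ev1 : ∀ᶠ x : ℝ in Filter.atTop, Real.log M ≤ (Real.log x) ^ ε1 :=
    ((tendsto_rpow_atTop hε1).comp Real.tendsto_log_atTop).eventually_ge_atTop _
  have ev3 : ∀ᶠ x : ℝ in Filter.atTop, 1 ≤ Real.log x :=
    Real.tendsto_log_atTop.eventually_ge_atTop 1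
  obtain ⟨X0, hX0⟩ := Filter.eventually_atTop.mp (ev1.and ((Den_small κ hκ hκ1).and (ev3.and
    (Filter.eventually_ge_atTop (max Xa (max 1 (R : ℝ)))))))
  refine ⟨X0, fun X hX N hN e he => ?_⟩
  obtain ⟨e1, e2, e3, e4⟩ := hX0 (X : ℝ) hX
  have hXa' : Xa ≤ (X : ℝ) := (le_max_left _ _).trans e4
  have hX1 : (1 : ℝ) ≤ (X : ℝ) := ((le_max_left _ _).trans (le_max_right _ _)).trans e4
  have hXR : (R : ℝ) ≤ (X : ℝ) := ((le_max_right _ _).trans (le_max_right _ _)).trans e4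
  have hXpos : (0 : ℝ) < (X : ℝ) := by linarith
  have hXn : 1 ≤ X := by exact_mod_cast hX1
  have hLpos : (0 : ℝ) < Real.log X := by linarith
  have he1 : 1 ≤ e := he.1
  have heR : (1 : ℝ) ≤ e := by exact_mod_cast he1
  have heX : (e : ℝ) ≤ X := by
    have : (e : ℝ) ≤ R := by exact_mod_cast he.2.le
    linarith
  have hXY : X ≤ e * X := Nat.le_mul_of_pos_left X he1
  have hXY' : (X : ℝ) ≤ ((e * X : ℕ) : ℝ) := by exact_mod_cast hXY
  have hYpos : (0 : ℝ) < ((e * X : ℕ) : ℝ) := by linarith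
  have hlogY1 : Real.log X ≤ Real.log ((e * X : ℕ) : ℝ) := Real.log_le_log hXpos hXY'
  have hlogY2 : Real.log ((e * X : ℕ) : ℝ) ≤ 2 * Real.log X := by
    have h1 : ((e * X : ℕ) : ℝ) ≤ (X : ℝ) ^ 2 := by
      push_cast
      nlinarith
    have h2 := Real.log_le_log hYpos h1
    rw [Real.log_pow] at h2
    exact_mod_cast h2
  have hSm : Sm w M := ⟨hM, fun p _ hpM => (Nat.le_of_dvd hM hpM).trans hMw⟩
  have h1 := hXa (e * X) (hXa'.trans hXY') M hSm
    (e1.trans (Real.rpow_le_rpow hLpos.le hlogY1 hε1.le))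
  -- the factor W / φ(W)
  have hWpos : 0 < Wp w := primorial_pos w
  have hWpos' : (0 : ℝ) < (Wp w : ℝ) := by exact_mod_cast hWpos
  have hφpos : (0 : ℝ) < ((Wp w).totient : ℝ) := by
    exact_mod_cast Nat.totient_pos.mpr hWpos
  have hφle : ((Wp w).totient : ℝ) ≤ (Wp w : ℝ) := by exact_mod_cast Nat.totient_le (Wp w)
  have hratio : (1 : ℝ) ≤ (Wp w : ℝ) / ((Wp w).totient : ℝ) := (one_le_div hφpos).mpr hφle
  obtain ⟨q, hq⟩ : ∃ q : ℝ, q = (Wp w : ℝ) / ((Wp w).totient : ℝ) := ⟨_, rfl⟩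
  rw [← hq] at h1 hratio ⊢
  set P := (Icc 1 (e * X)).filter (fun b => (Wp w * b * M + 1).Prime) with hP
  set G := (Icc 1 (e * X)).filter (fun b => (Wq M w * b + 1).Prime ∧
    (X : ℝ) ^ κ < ((Wq M w * b + 1 : ℕ) : ℝ) ∧ 2 * N ≤ b ∧ b < e * X) with hG
  have hQ1 : 1 ≤ Wq M w := Nat.mul_pos hM hWpos
  have hsub : P ⊆ G ∪ (Icc 1 ⌊(X : ℝ) ^ κ⌋₊ ∪ (range (2 * N) ∪ {e * X})) := by
    intro b hb
    rw [hP, mem_filter, mem_Icc] at hb
    obtain ⟨⟨hb1, hb2⟩, hb3⟩ := hb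
    have hb4 : Wq M w * b + 1 = Wp w * b * M + 1 := by
      unfold Wq
      ring
    rw [mem_union, mem_union, mem_union, mem_Icc, mem_range, mem_singleton, hG, mem_filter,
      mem_Icc]
    by_cases c1 : (X : ℝ) ^ κ < ((Wq M w * b + 1 : ℕ) : ℝ)
    · by_cases c2 : 2 * N ≤ b
      · by_cases c3 : b < e * X
        · exact Or.inl ⟨⟨hb1, hb2⟩, by rw [hb4]; exact hb3, c1, c2, c3⟩
        · exact Or.inr (Or.inr (Or.inr (by omega)))
      · exact Or.inr (Or.inr (Or.inl (by omega)))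
    · refine Or.inr (Or.inl ⟨hb1, Nat.le_floor ?_⟩)
      have h2 : (b : ℝ) ≤ ((Wq M w * b + 1 : ℕ) : ℝ) := by
        have : b ≤ Wq M w * b + 1 := (Nat.le_mul_of_pos_left b hQ1).trans (Nat.le_succ _)
        exact_mod_cast this
      exact h2.trans (not_lt.1 c1)
  have hcard : (P.card : ℝ) ≤ G.card + (⌊(X : ℝ) ^ κ⌋₊ + (2 * N + 1)) := by
    have h2 := card_le_card hsub
    have h3 := card_union_le G (Icc 1 ⌊(X : ℝ) ^ κ⌋₊ ∪ (range (2 * N) ∪ {e * X}))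
    have h4 := card_union_le (Icc 1 ⌊(X : ℝ) ^ κ⌋₊) (range (2 * N) ∪ {e * X})
    have h5 := card_union_le (range (2 * N)) ({e * X} : Finset ℕ)
    rw [Nat.card_Icc, Nat.add_sub_cancel] at h4
    rw [card_range, card_singleton] at h5
    have h6 : P.card ≤ G.card + (⌊(X : ℝ) ^ κ⌋₊ + (2 * N + 1)) := by omega
    exact_mod_cast h6
  have hfl : (⌊(X : ℝ) ^ κ⌋₊ : ℝ) ≤ (X : ℝ) ^ κ := Nat.floor_le (Real.rpow_nonneg hXpos.le _)
  have hNs : (N : ℝ) ≤ (X : ℝ) ^ (1 / 2 : ℝ) := by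
    rw [← Real.sqrt_eq_rpow]
    refine Real.le_sqrt_of_sq_le ?_
    exact_mod_cast hN
  have hmain : 1 / 8 * (q * (e * X) / Real.log X) ≤ (P.card : ℝ) := by
    refine le_trans ?_ h1
    push_cast
    have h2 : 0 ≤ q * ((e : ℝ) * X) := by positivity
    have hlY0 : 0 < Real.log ((e : ℝ) * X) := by
      have h3 : Real.log ((e * X : ℕ) : ℝ) = Real.log ((e : ℝ) * X) := by push_cast; rfl
      rw [← h3]
      linarith
    have hlY2 : Real.log ((e : ℝ) * X) ≤ 2 * Real.log X := by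
      have h3 : Real.log ((e * X : ℕ) : ℝ) = Real.log ((e : ℝ) * X) := by push_cast; rfl
      rw [← h3]
      exact hlogY2
    have h4 : q * (e * X) / (2 * Real.log X) ≤ q * (e * X) / Real.log (e * X) :=
      div_le_div_of_nonneg_left h2 hlY0 hlY2
    have h5 : q * (e * X) / (2 * Real.log X) = q * (e * X) / Real.log X / 2 := by
      rw [div_div, mul_comm (2 : ℝ)]
    rw [h5] at h4
    linarith
  have hsm : 1 / 16 * ((X : ℝ) / Real.log X) ≤ 1 / 16 * (q * (e * X) / Real.log X) := by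
    have h2 : (X : ℝ) / Real.log X ≤ q * (e * X) / Real.log X := by
      refine div_le_div_of_nonneg_right ?_ hLpos.le
      have h3 : (1 : ℝ) ≤ q * e := one_le_mul_of_one_le_of_one_le hratio heR
      nlinarith
    linarith
  linarith

theorem pDen (hC : S_Cnt) (hA : ApStmt) : S_Den := by
  classical
  intro R M w κ hκ hκ1 hM hMw hw
  obtain ⟨X0, hX0⟩ := Den_cnt hA R M w κ hκ hκ1 hM hMw hw
  refine ⟨max X0 3, fun X hX N _ hNR hNX e he => ?_⟩
  have hX1 : X0 ≤ X := (le_max_left _ _).trans hX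
  have hX3 : (3 : ℝ) ≤ X := (le_max_right _ _).trans hX
  have hXpos : (0 : ℝ) < X := by linarith
  have hlX : 0 < Real.log X := Real.log_pos (by linarith)
  have hcnt := hX0 X hX1 N hNX e he
  set Q := Wq M w with hQ
  have hQ2 : 2 ≤ Q := Den_two hM hw
  have hRs : Rs M w 1 := ⟨le_rfl, by rw [← hQ]; omega, Nat.coprime_one_left _⟩
  have he1 : 1 ≤ e := he.1
  have he0 : (0 : ℝ) < e := by exact_mod_cast he1
  have hN0 : (0 : ℝ) < N := Nat.cast_pos.mpr (Nat.pos_of_neZero N)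
  obtain ⟨A, hA⟩ : ∃ A : Finset ℕ, A = (Icc 1 (Q * (e * X))).filter (fun n : ℕ => n.Prime ∧
    (X : ℝ) ^ κ < (n : ℝ)) := ⟨_, rfl⟩
  have h1 := hC M w 1 X N e A hRs he1 (by
    have := he.2
    omega)
  rw [← hQ] at h1
  -- the elements of A
  have h2 : (((Icc 1 (e * X)).filter (fun b => (Q * b + 1).Prime ∧
      (X : ℝ) ^ κ < ((Q * b + 1 : ℕ) : ℝ) ∧ 2 * N ≤ b ∧ b < e * X)).card : ℝ) ≤
      ((A.filter (fun n => n % Q = 1 ∧ Q * (2 * N) < n ∧ n ≤ Q * e * X)).card : ℝ) := by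
    have h3 : ((Icc 1 (e * X)).filter (fun b => (Q * b + 1).Prime ∧
      (X : ℝ) ^ κ < ((Q * b + 1 : ℕ) : ℝ) ∧ 2 * N ≤ b ∧ b < e * X)).card ≤
      (A.filter (fun n => n % Q = 1 ∧ Q * (2 * N) < n ∧ n ≤ Q * e * X)).card := by
      refine Finset.card_le_card_of_injOn (fun b => Q * b + 1) ?_ ?_
      · intro b hb
        rw [Finset.mem_coe, mem_filter, mem_Icc] at hb
        obtain ⟨⟨b1, b2⟩, b3, b4, b5, b6⟩ := hb
        have b7 : Q * (b + 1) ≤ Q * (e * X) := Nat.mul_le_mul_left Q b6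
        have b8 : Q * (b + 1) = Q * b + Q := by ring
        have b9 : Q * (2 * N) ≤ Q * b := Nat.mul_le_mul_left Q b5
        have b10 : Q * e * X = Q * (e * X) := by ring
        show Q * b + 1 ∈ (A.filter (fun n => n % Q = 1 ∧ Q * (2 * N) < n ∧ n ≤ Q * e * X) : Finset ℕ)
        rw [mem_filter, hA, mem_filter, mem_Icc]
        refine ⟨⟨⟨by omega, by omega⟩, b3, b4⟩, ?_, by omega, by omega⟩
        rw [Nat.mul_add_mod, Nat.mod_eq_of_lt (by omega)]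
      · intro b _ b' _ hbb
        have hbb' : Q * b + 1 = Q * b' + 1 := hbb
        exact Nat.eq_of_mul_eq_mul_left (show 0 < Q by omega) (by omega)
    exact_mod_cast h3
  -- the function fb
  set V : ℝ := ((Wp w).totient / (Wp w) : ℝ) * Real.log ((X : ℝ) ^ κ) * (3 / 4) with hV
  have hWpos : 0 < Wp w := primorial_pos w
  have hWpos' : (0 : ℝ) < (Wp w : ℝ) := by exact_mod_cast hWpos
  have hφpos : (0 : ℝ) < ((Wp w).totient : ℝ) := by
    exact_mod_cast Nat.totient_pos.mpr hWpos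
  have hVe : V = ((Wp w).totient / (Wp w) : ℝ) * (κ * Real.log X) * (3 / 4) := by
    rw [hV, Real.log_rpow hXpos]
  have hV0 : 0 ≤ V := by rw [hVe]; positivity
  have hfb : ∀ b : ℕ, V / N * ((univ.filter (fun y : ZMod N => N ≤ 4 * y.val ∧ 2 * y.val < N ∧
        nl (fo M w 1 e y) b ∈ A)).card : ℝ) ≤ av (fun x : ZMod N => fb M w κ 1 X b e x) := by
    intro b
    have h3 : av (fun x : ZMod N => fb M w κ 1 X b e x) =
        V / N * ((univ.filter (fun y : ZMod N => N ≤ 4 * y.val ∧ 2 * y.val < N ∧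
        (nl (fo M w 1 e y) b).Prime ∧ (X : ℝ) ^ κ < (nl (fo M w 1 e y) b : ℕ))).card : ℝ) := by
      unfold av fb
      rw [ZMod.card, ← sum_filter, sum_const, nsmul_eq_mul, ← hV]
      ring
    rw [h3]
    refine mul_le_mul_of_nonneg_left ?_ (by positivity)
    have h4 : (univ.filter (fun y : ZMod N => N ≤ 4 * y.val ∧ 2 * y.val < N ∧
        nl (fo M w 1 e y) b ∈ A)).card ≤ (univ.filter (fun y : ZMod N => N ≤ 4 * y.val ∧
        2 * y.val < N ∧ (nl (fo M w 1 e y) b).Prime ∧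
        (X : ℝ) ^ κ < (nl (fo M w 1 e y) b : ℕ))).card := by
      refine card_le_card ?_
      intro y hy
      rw [mem_filter] at hy ⊢
      obtain ⟨y1, y2, y3, y4⟩ := hy
      rw [hA, mem_filter] at y4
      exact ⟨y1, y2, y3, y4.2.1, y4.2.2⟩
    exact_mod_cast h4
  have heb : V / (N * X) * ∑ b ∈ Icc 1 X,
      ((univ.filter (fun y : ZMod N => N ≤ 4 * y.val ∧ 2 * y.val < N ∧
          nl (fo M w 1 e y) b ∈ A)).card : ℝ) ≤
      eb X (fun b => av (fun x : ZMod N => fb M w κ 1 X b e x)) := by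
    unfold eb
    rw [le_div_iff₀ hXpos]
    refine le_trans (le_of_eq ?_) (Finset.sum_le_sum fun b _ => hfb b)
    rw [← Finset.mul_sum]
    generalize ∑ b ∈ Icc 1 X, ((univ.filter (fun y : ZMod N => N ≤ 4 * y.val ∧ 2 * y.val < N ∧
          nl (fo M w 1 e y) b ∈ A)).card : ℝ) = Sm'
    generalize V = V'
    field_simp
  refine le_trans ?_ heb
  have h5 : V / (N * X) * ((N : ℝ) / (8 * e) *
      ((1 / 16 : ℝ) * (((Wp w : ℝ) / (Wp w).totient) * (e * X) / Real.log X))) ≤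
      V / (N * X) * ∑ b ∈ Icc 1 X,
      ((univ.filter (fun y : ZMod N => N ≤ 4 * y.val ∧ 2 * y.val < N ∧
          nl (fo M w 1 e y) b ∈ A)).card : ℝ) := by
    refine mul_le_mul_of_nonneg_left ?_ (by positivity)
    refine le_trans ?_ h1
    exact mul_le_mul_of_nonneg_left (hcnt.trans h2) (by positivity)
  refine le_trans ?_ h5
  have h6 : V / (N * X) * ((N : ℝ) / (8 * e) *
      ((1 / 16 : ℝ) * (((Wp w : ℝ) / (Wp w).totient) * (e * X) / Real.log X))) =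
      3 / 512 * κ := by
    rw [hVe]
    exact Den_alg _ _ κ _ _ _ _ hWpos'.ne' hφpos.ne' hlX.ne' hN0.ne' hXpos.ne' he0.ne'
  rw [h6]
  linarith

end Pool.Agent.Lib.MP_fb5b0b_nt.FB
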