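import Pool.Agent.Lib.MP_fb5b0b_nt.FB.Defs

/-!
MP_fb5b0b_nt, FB/Lf2: linear forms condition for a progression of windows, in mean square
(helper11).
-/

set_option autoImplicit false

open Finset

namespace Pool.Agent.Lib.MP_fb5b0b_nt.FB

open Pool.Agent.Lib.MP_9f2731_nt.GP
open Pool.Agent.Lib.MP_9f2731_nt.GP.Rel (av Ind pk HLFC Cut CutG)
open Pool.Agent.Lib.MP_9f2731_nt.SS (nl Fo dt Wq Rs Scl CorLStmt MomLStmt S_Sng)
open Pool.Agent.Lib.MP_9f2731_nt.GP.Asm (eb lfm)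

private theorem Lf2_av_prod {A B : Type} [Fintype A] [Fintype B] (g : A → B → ℝ) :
    av (fun y : A × B => g y.1 y.2) = av (fun a => av (fun b => g a b)) := by
  unfold av
  rw [Fintype.sum_prod_type, Fintype.card_prod, Nat.cast_mul, ← Finset.sum_div, div_div,
    mul_comm (Fintype.card A : ℝ)]

private theorem Lf2_av_const {A : Type} [Fintype A] [Nonempty A] (c : ℝ) :
    av (fun _ : A => c) = c := by
  unfold av
  have h : (Fintype.card A : ℝ) ≠ 0 := Nat.cast_ne_zero.2 Fintype.card_ne_zero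
  rw [Finset.sum_const, Finset.card_univ, nsmul_eq_mul]
  field_simp

private theorem Lf2_av_fst {A B : Type} [Fintype A] [Fintype B] [Nonempty B] (g : A → ℝ) :
    av (fun y : A × B => g y.1) = av g := by
  have h := Lf2_av_prod (A := A) (B := B) (fun a _ => g a)
  rw [h]
  simp only [Lf2_av_const]

private theorem Lf2_av_snd {A B : Type} [Fintype A] [Fintype B] [Nonempty A] (g : B → ℝ) :
    av (fun y : A × B => g y.2) = av g := by
  have h := Lf2_av_prod (A := A) (B := B) (fun _ b => g b)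
  rw [h, Lf2_av_const]

private theorem Lf2_av_mul {A : Type} [Fintype A] (c : ℝ) (g : A → ℝ) :
    av (fun x => c * g x) = c * av g := by
  unfold av
  rw [← Finset.mul_sum, mul_div_assoc]

private theorem Lf2_av_sq {A : Type} [Fintype A] (g : A → ℝ) :
    av (fun y : A × A => g y.1 * g y.2) = (av g) ^ 2 := by
  have h := Lf2_av_prod (A := A) (B := A) (fun a b => g a * g b)
  rw [h]
  simp only [Lf2_av_mul]
  have h2 : (fun a => g a * av g) = fun a => av g * g a := by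
    funext a
    ring
  rw [h2, Lf2_av_mul]
  ring

private theorem Lf2_card {k : ℕ} (S : Finset (Fin k × (Fin k → Bool))) : S.card ≤ k * 2 ^ k := by
  refine (Finset.card_le_univ S).trans (le_of_eq ?_)
  rw [Fintype.card_prod, Fintype.card_fun, Fintype.card_fin, Fintype.card_bool]

private theorem Lf2_large {c : ℝ} (h : 0 < c) (n : ℕ) : ∃ X1 : ℝ, ∀ X : ℕ, X1 ≤ X → ∀ N : ℕ,
    Scl c X N → n ≤ N := by
  have h1 : Filter.Tendsto (fun x : ℝ => (Real.log x) ^ c) Filter.atTop Filter.atTop :=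
    (tendsto_rpow_atTop h).comp Real.tendsto_log_atTop
  obtain ⟨X1, hX1⟩ := Filter.eventually_atTop.1 (h1.eventually_ge_atTop (n : ℝ))
  refine ⟨X1, fun X hX N hS => ?_⟩
  have h2 : (n : ℝ) ≤ N := (hX1 X hX).trans hS.2.1
  exact_mod_cast h2

private theorem Lf2_pow {N R a b : ℕ} (hN : R < N) (ha : a < R) (hb : b < R)
    (h : (a : ZMod N) = (b : ZMod N)) : a = b := by
  rw [ZMod.natCast_eq_natCast_iff'] at h
  rwa [Nat.mod_eq_of_lt (ha.trans hN), Nat.mod_eq_of_lt (hb.trans hN)] at h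

private theorem Lf2_eb (X : ℕ) (hX : 1 ≤ X) (g : ℕ → ℝ) :
    eb X (fun b => (g b - 1) ^ 2) = (eb X (fun b => g b ^ 2) - 1) - 2 * (eb X g - 1) := by
  have hX' : (X : ℝ) ≠ 0 := by
    have : 0 < X := hX
    positivity
  unfold eb
  have h1 : ∑ b ∈ Icc 1 X, (g b - 1) ^ 2 =
      (∑ b ∈ Icc 1 X, g b ^ 2) - 2 * (∑ b ∈ Icc 1 X, g b) + X := by
    have h2 : ∀ b ∈ Icc 1 X, (g b - 1) ^ 2 = g b ^ 2 - 2 * g b + 1 := fun b _ => by ring
    rw [Finset.sum_congr rfl h2, Finset.sum_add_distrib, Finset.sum_sub_distrib,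
      ← Finset.mul_sum]
    simp
  rw [h1]
  field_simp
  ring

/-- two copies of a family of pairwise equidistributed maps -/
private theorem Lf2_two {V P A : Type} [Fintype V] [Nonempty V] [Fintype A] (S : Finset P)
    (ψ : P → V → A)
    (h1 : ∀ p ∈ S, ∀ F : A → ℝ, av (fun x => F (ψ p x)) = av F)
    (h2 : ∀ p ∈ S, ∀ p' ∈ S, p ≠ p' → ∀ F : A × A → ℝ, av (fun x => F (ψ p x, ψ p' x)) = av F)
    (c c' : Bool × P) (hc : c.2 ∈ S) (hc' : c'.2 ∈ S) (hne : c ≠ c') (F : A × A → ℝ) :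
    av (fun y : V × V => F ((if c.1 then ψ c.2 y.2 else ψ c.2 y.1),
      (if c'.1 then ψ c'.2 y.2 else ψ c'.2 y.1))) = av F := by
  obtain ⟨c, p⟩ := c
  obtain ⟨c', p'⟩ := c'
  have a1 := h1 p hc
  have a2 := h1 p' hc'
  rcases c with _ | _ <;> rcases c' with _ | _
  · have hne' : p ≠ p' := fun h => hne (by rw [h])
    simp only [Bool.false_eq_true, if_false]
    rw [Lf2_av_fst (B := V) (fun x : V => F (ψ p x, ψ p' x))]
    exact h2 p hc p' hc' hne' F
  · simp only [Bool.false_eq_true, if_false, if_true]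
    rw [Lf2_av_prod (fun x y : V => F (ψ p x, ψ p' y))]
    have e1 : ∀ x : V, av (fun y : V => F (ψ p x, ψ p' y)) = av (fun g => F (ψ p x, g)) :=
      fun x => a2 (fun g => F (ψ p x, g))
    simp only [e1]
    rw [a1 (fun g => av (fun g' => F (g, g')))]
    exact (Lf2_av_prod (fun g g' => F (g, g'))).symm
  · simp only [Bool.false_eq_true, if_false, if_true]
    rw [Lf2_av_prod (fun x y : V => F (ψ p y, ψ p' x))]
    have e1 : ∀ x : V, av (fun y : V => F (ψ p y, ψ p' x)) = av (fun g => F (g, ψ p' x)) :=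
      fun x => a1 (fun g => F (g, ψ p' x))
    simp only [e1]
    rw [a2 (fun g' => av (fun g => F (g, g')))]
    rw [← Lf2_av_prod (fun g' g => F (g, g'))]
    unfold av
    congr 1
    exact Fintype.sum_equiv (Equiv.prodComm _ _) _ _ fun y => rfl
  · have hne' : p ≠ p' := fun h => hne (by rw [h])
    simp only [if_true]
    rw [Lf2_av_snd (A := V) (fun x : V => F (ψ p x, ψ p' x))]
    exact h2 p hc p' hc' hne' F

theorem pLf2 (hA : S_Avg) (hE : S_Eqd) : S_Lf2 := by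
  intro k J κ C C2 hk hJ hG R M θ hM hθ
  have hC2 : 0 < C2 := hG.2.2.2.1
  obtain ⟨w0, hw0⟩ := hA J κ C C2 hG R M (θ / 3) hM (by positivity)
  refine ⟨w0, fun w hw => ?_⟩
  obtain ⟨X0, hX0⟩ := hw0 w hw
  obtain ⟨X1, hX1⟩ := Lf2_large (c := C2 + 2) (by linarith) (R + 1)
  refine ⟨max (max X0 X1) 1, fun X hX b0 hb0 N _ hS ex hex' hexn S hSp => ?_⟩
  have hXa : X0 ≤ X := ((le_max_left _ _).trans (le_max_left _ _)).trans hX
  have hXb : X1 ≤ X := ((le_max_right _ _).trans (le_max_left _ _)).trans hX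
  have hXc : (1 : ℝ) ≤ X := (le_max_right _ _).trans hX
  have hXd : 1 ≤ X := by exact_mod_cast hXc
  have hN : R < N := hX1 X hXb N hS
  -- the multipliers
  have hex : ∀ j : ℕ, j < k → Mu R (ex j) := hex'
  have hne : ∀ l l' : ℕ, l < k → l' < k → l ≠ l' → (ex l : ZMod N) ≠ (ex l' : ZMod N) := by
    intro l l' hl hl' hll h
    exact hexn l l' hl hl' hll (Lf2_pow hN (hex l hl).2 (hex l' hl').2 h)
  have hEq := hE k N ex hS.1 hne
  -- the family
  set S' := S.filter (fun p => (p.1 : ℕ) < k) with hS'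
  have hS1 : ∀ p ∈ S', (p.1 : ℕ) < k := fun p hp => (Finset.mem_filter.1 hp).2
  have hS2 : ∀ p ∈ S', p.2 p.1 = false := fun p hp => hSp p (Finset.mem_filter.1 hp).1
  have hcard : S'.card ≤ (k + 1) * 2 ^ (k + 1) := Lf2_card S'
  set ψ : Fin (k + 1) × (Fin (k + 1) → Bool) → (Fin (k + 1) × Bool → ZMod N) → ZMod N :=
    fun p x => Lf k ex (p.1 : ℕ) (pk p.2 x) with hψ
  set g : ℕ → ℝ := fun b => av (fun x : Fin (k + 1) × Bool → ZMod N =>
    ∏ p ∈ S', nub M w κ b0 X b (ex (p.1 : ℕ)) (ψ p x)) with hg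
  have e0' : ∀ b, av (fun x : Fin (k + 1) × Bool → ZMod N => ∏ p ∈ S,
      gW k (fun e (y : ZMod N) => nub M w κ b0 X b e y) (fun _ => 1) ex p.1 (pk p.2 x)) =
      g b := by
    intro b
    rw [hg]
    simp only
    congr 1
    funext x
    rw [hS', Finset.prod_filter]
    refine Finset.prod_congr rfl fun p _ => ?_
    unfold gW
    rfl
  -- first mean
  have hA1 := hX0 X hXa b0 hb0 N hS (Fin (k + 1) × Bool → ZMod N)
    (Fin (k + 1) × (Fin (k + 1) → Bool)) S' (fun p => ex (p.1 : ℕ)) ψ (by omega)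
    (fun p hp => hex _ (hS1 p hp))
    (fun p hp p' hp' hpp =>
      (hEq p p' (hS1 p hp) (hS1 p' hp') (hS2 p hp) (hS2 p' hp')).2 hpp)
  -- second mean
  have hB1 := hX0 X hXa b0 hb0 N hS
    ((Fin (k + 1) × Bool → ZMod N) × (Fin (k + 1) × Bool → ZMod N))
    (Bool × (Fin (k + 1) × (Fin (k + 1) → Bool))) (univ ×ˢ S')
    (fun c => ex (c.2.1 : ℕ))
    (fun c y => if c.1 then ψ c.2 y.2 else ψ c.2 y.1)
    (by
      rw [Finset.card_product, Finset.card_univ, Fintype.card_bool]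
      omega)
    (fun c hc => hex _ (hS1 c.2 (Finset.mem_product.1 hc).2))
    (fun c hc c' hc' hcc => Lf2_two S' ψ
      (fun p hp => (hEq p p (hS1 p hp) (hS1 p hp) (hS2 p hp) (hS2 p hp)).1)
      (fun p hp p' hp' hpp => (hEq p p' (hS1 p hp) (hS1 p' hp') (hS2 p hp) (hS2 p' hp')).2 hpp)
      c c' (Finset.mem_product.1 hc).2 (Finset.mem_product.1 hc').2 hcc)
  have e2 : ∀ b, av (fun y : (Fin (k + 1) × Bool → ZMod N) × (Fin (k + 1) × Bool → ZMod N) =>
      ∏ c ∈ (univ : Finset Bool) ×ˢ S', nub M w κ b0 X b (ex (c.2.1 : ℕ))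
        (if c.1 then ψ c.2 y.2 else ψ c.2 y.1)) = (g b) ^ 2 := by
    intro b
    rw [hg]
    simp only
    rw [← Lf2_av_sq]
    congr 1
    funext y
    rw [Finset.prod_product, Fintype.prod_bool]
    simp only [if_true, Bool.false_eq_true, if_false]
    rw [mul_comm]
  simp only [e2] at hB1
  simp only [e0']
  rw [Lf2_eb X hXd g]
  have h5 := abs_le.1 hA1
  have h6 := abs_le.1 hB1
  linarith [h5.1, h5.2, h6.1, h6.2]

end Pool.Agent.Lib.MP_fb5b0b_nt.FB
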