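import Pool.Agent.Lib.MP_fb5b0b_nt.FB.Defs

/-!
MP_fb5b0b_nt, FB, module Pos: positivity of the count by pigeonhole and the density of patterns.
-/

set_option autoImplicit false

namespace Pool.Agent.Lib.MP_fb5b0b_nt.FB

open Finset

/-- the multipliers with a large value -/
private noncomputable def Pos_E (S : Finset ℕ) (δ : ℝ) {N : ℕ} (g : ℕ → ZMod N → ℝ)
    (a h : ZMod N) : Finset ℕ :=
  open Classical in S.filter fun e => δ / 2 ≤ g e ((e : ZMod N) * a + h)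

/-- the average mass of the multipliers with a large value -/
private theorem Pos_avg (S : Finset ℕ) (m : ℕ → ℝ) (hm : ∀ e, 0 ≤ m e) (hm1 : ∑ e ∈ S, m e = 1)
    (δ : ℝ) (hδ : 0 < δ) (N : ℕ) [NeZero N] (g : ℕ → ZMod N → ℝ)
    (hg : ∀ e x, 0 ≤ g e x ∧ g e x ≤ 1) (hs : δ * N ≤ ∑ e ∈ S, m e * ∑ x : ZMod N, g e x)
    (a : ZMod N) : δ / 2 * N ≤ ∑ h : ZMod N, ∑ e ∈ Pos_E S δ g a h, m e := by
  classical
  have h1 : ∑ h : ZMod N, ∑ e ∈ S, m e * g e ((e : ZMod N) * a + h) =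
      ∑ e ∈ S, m e * ∑ x : ZMod N, g e x := by
    rw [Finset.sum_comm]
    refine Finset.sum_congr rfl fun e _ => ?_
    rw [← Finset.mul_sum]
    congr 1
    exact Fintype.sum_equiv (Equiv.addLeft ((e : ZMod N) * a)) _ _ fun h => rfl
  have h2 : ∀ h : ZMod N, ∑ e ∈ S, m e * g e ((e : ZMod N) * a + h) ≤
      (∑ e ∈ Pos_E S δ g a h, m e) + δ / 2 := by
    intro h
    have h3 : ∀ e ∈ S, m e * g e ((e : ZMod N) * a + h) ≤
        (if δ / 2 ≤ g e ((e : ZMod N) * a + h) then m e else 0) + m e * (δ / 2) := by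
      intro e _
      have hme := hm e
      split_ifs with h4
      · have h5 := mul_le_mul_of_nonneg_left (hg e ((e : ZMod N) * a + h)).2 hme
        have h6 := mul_nonneg hme hδ.le
        linarith
      · have h5 := mul_le_mul_of_nonneg_left (not_le.1 h4).le hme
        linarith
    refine (Finset.sum_le_sum h3).trans ?_
    rw [Finset.sum_add_distrib, ← Finset.sum_mul, hm1, one_mul]
    have h5 : ∑ e ∈ S, (if δ / 2 ≤ g e ((e : ZMod N) * a + h) then m e else 0) =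
        ∑ e ∈ Pos_E S δ g a h, m e := by
      unfold Pos_E
      rw [Finset.sum_filter]
    rw [h5]
  have h6 := Finset.sum_le_sum fun (h : ZMod N) (_ : h ∈ univ) => h2 h
  rw [h1, Finset.sum_add_distrib, Finset.sum_const, Finset.card_univ, ZMod.card,
    nsmul_eq_mul] at h6
  have h7 := hs.trans h6
  linarith

/-- many h have multipliers of large mass with a large value -/
private theorem Pos_many (S : Finset ℕ) (m : ℕ → ℝ) (hm : ∀ e, 0 ≤ m e) (hm1 : ∑ e ∈ S, m e = 1)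
    (δ : ℝ) (hδ : 0 < δ) (N : ℕ) [NeZero N] (g : ℕ → ZMod N → ℝ)
    (hg : ∀ e x, 0 ≤ g e x ∧ g e x ≤ 1) (hs : δ * N ≤ ∑ e ∈ S, m e * ∑ x : ZMod N, g e x)
    (a : ZMod N) :
    ∃ H : Finset (ZMod N), δ / 4 * N ≤ (H.card : ℝ) ∧
      ∀ h ∈ H, δ / 4 ≤ ∑ e ∈ Pos_E S δ g a h, m e := by
  classical
  refine ⟨univ.filter fun h => δ / 4 ≤ ∑ e ∈ Pos_E S δ g a h, m e, ?_,
    fun h hh => (mem_filter.1 hh).2⟩
  set H : Finset (ZMod N) := univ.filter fun h => δ / 4 ≤ ∑ e ∈ Pos_E S δ g a h, m e with hH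
  have hcard : ∀ h, ∑ e ∈ Pos_E S δ g a h, m e ≤ 1 := by
    intro h
    rw [← hm1]
    exact Finset.sum_le_sum_of_subset_of_nonneg (filter_subset _ _) fun e _ _ => hm e
  have h2 : ∀ h ∈ (univ : Finset (ZMod N)), ∑ e ∈ Pos_E S δ g a h, m e ≤
      (if h ∈ H then (1 : ℝ) else 0) + δ / 4 := by
    intro h _
    by_cases hh : h ∈ H
    · rw [if_pos hh]
      linarith [hcard h]
    · rw [if_neg hh]
      have h3 : ¬ δ / 4 ≤ ∑ e ∈ Pos_E S δ g a h, m e := fun h4 =>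
        hh (mem_filter.2 ⟨mem_univ _, h4⟩)
      linarith
  have h4 := (Pos_avg S m hm hm1 δ hδ N g hg hs a).trans (Finset.sum_le_sum h2)
  rw [Finset.sum_add_distrib, Finset.sum_const, Finset.card_univ, ZMod.card, nsmul_eq_mul,
    Finset.sum_ite_mem, Finset.univ_inter, Finset.sum_const, nsmul_eq_mul, mul_one] at h4
  linarith

theorem pPos : S_Pos := by
  classical
  intro k δ S m PP hk hδ hS
  obtain ⟨-, hm, hm1, -, hD⟩ := hS
  refine ⟨δ / 4 * (δ / 2) ^ k / (PP.card + 1), by positivity, ?_⟩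
  intro N _ g Q hg hs
  have hN0 : (0 : ℝ) < N := by exact_mod_cast Nat.pos_of_ne_zero (NeZero.ne N)
  set T : (ℕ → ℕ) → ZMod N → ZMod N → ℝ := fun ex a h =>
    ∏ j ∈ range k, g (ex j) ((ex j : ZMod N) * a + h) with hT
  have hT0 : ∀ p a h, 0 ≤ T p a h := fun p a h => Finset.prod_nonneg fun j _ => (hg _ _).1
  -- a pattern for every good h
  have hprog : ∀ a h : ZMod N, δ / 4 ≤ ∑ e ∈ Pos_E S δ g a h, m e →
      ∃ ex ∈ PP, (δ / 2) ^ k ≤ T ex a h := by
    intro a h hh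
    obtain ⟨ex, hex, hE⟩ := hD (Pos_E S δ g a h) (filter_subset _ _) hh
    refine ⟨ex, hex, ?_⟩
    calc (δ / 2) ^ k = ∏ _j ∈ range k, (δ / 2) := by rw [Finset.prod_const, card_range]
      _ ≤ T ex a h := Finset.prod_le_prod (fun _ _ => by positivity)
          fun j hj => (mem_filter.1 (hE j (mem_range.1 hj))).2
  -- the sum for one a
  have hone : ∀ a : ZMod N, δ / 4 * N * (δ / 2) ^ k ≤ ∑ h : ZMod N, ∑ p ∈ PP, T p a h := by
    intro a
    obtain ⟨H, hH1, hH2⟩ := Pos_many S m hm hm1 δ hδ N g hg hs a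
    calc δ / 4 * N * (δ / 2) ^ k ≤ H.card * (δ / 2) ^ k :=
          mul_le_mul_of_nonneg_right hH1 (by positivity)
      _ = ∑ _h ∈ H, (δ / 2) ^ k := by rw [Finset.sum_const, nsmul_eq_mul]
      _ ≤ ∑ h ∈ H, ∑ p ∈ PP, T p a h := by
          refine Finset.sum_le_sum fun h hh => ?_
          obtain ⟨p, hp, hle⟩ := hprog a h (hH2 h hh)
          exact hle.trans (Finset.single_le_sum (fun p _ => hT0 p a h) hp)
      _ ≤ ∑ h : ZMod N, ∑ p ∈ PP, T p a h :=
          Finset.sum_le_sum_of_subset_of_nonneg (Finset.subset_univ _)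
            fun h _ _ => Finset.sum_nonneg fun p _ => hT0 p a h
  have hne : PP.Nonempty := by
    obtain ⟨H, hH1, hH2⟩ := Pos_many S m hm hm1 δ hδ N g hg hs 0
    have h1 : (0 : ℝ) < H.card := lt_of_lt_of_le (by positivity) hH1
    have h2 : 0 < H.card := by exact_mod_cast h1
    obtain ⟨h, hh⟩ := Finset.card_pos.1 h2
    obtain ⟨p, hp, _⟩ := hprog 0 h (hH2 h hh)
    exact ⟨p, hp⟩
  have htot : ∑ _p ∈ PP, δ / 4 * (δ / 2) ^ k / (PP.card + 1) * Q.card * N ≤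
      ∑ p ∈ PP, ∑ a ∈ Q, ∑ h : ZMod N, T p a h := by
    have h1 : ∑ p ∈ PP, ∑ a ∈ Q, ∑ h : ZMod N, T p a h =
        ∑ a ∈ Q, ∑ h : ZMod N, ∑ p ∈ PP, T p a h := by
      rw [Finset.sum_comm]
      exact Finset.sum_congr rfl fun a _ => Finset.sum_comm
    rw [h1, Finset.sum_const, nsmul_eq_mul]
    calc (PP.card : ℝ) * (δ / 4 * (δ / 2) ^ k / (PP.card + 1) * Q.card * N)
        ≤ (PP.card + 1) * (δ / 4 * (δ / 2) ^ k / (PP.card + 1) * Q.card * N) :=
          mul_le_mul_of_nonneg_right (by linarith) (by positivity)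
      _ = ∑ _a ∈ Q, δ / 4 * N * (δ / 2) ^ k := by
          rw [Finset.sum_const, nsmul_eq_mul]
          field_simp
      _ ≤ _ := Finset.sum_le_sum fun a _ => hone a
  obtain ⟨p, hp, hle⟩ := Finset.exists_le_of_sum_le hne htot
  exact ⟨p, hp, hle⟩

end Pool.Agent.Lib.MP_fb5b0b_nt.FB
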