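import Pool.Agent.Lib.MP_fb5b0b_nt.FB.Defs

/-!
MP_fb5b0b_nt, FB, module Pts: from the group `ZMod N` to integers.
-/

set_option autoImplicit false

namespace Pool.Agent.Lib.MP_fb5b0b_nt.FB

theorem pPts : S_Pts := by
  intro R N k _ ex a h hk hR ha hy
  have hsm : ∀ j : ℕ, j < k → 8 * (ex j * a.val) < N := by
    intro j hj
    have h1 : ex j * a.val ≤ R * a.val := Nat.mul_le_mul_right a.val (hR j hj).le
    have h2 : a.val * (8 * R) = 8 * (R * a.val) := by ring
    omega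
  obtain ⟨h01, h02⟩ := hy 0 (by omega)
  have hs0 := hsm 0 (by omega)
  set y0 : ℕ := ((ex 0 : ZMod N) * a + h).val with hy0
  have hle : ex 0 * a.val ≤ y0 := by omega
  have hcast : (((y0 - ex 0 * a.val : ℕ)) : ZMod N) = h := by
    rw [Nat.cast_sub hle, Nat.cast_mul, ZMod.natCast_zmod_val, ZMod.natCast_zmod_val]
    ring
  refine ⟨y0 - ex 0 * a.val, by omega, fun j hj => ?_⟩
  have hs := hsm j hj
  have hc : ((ex j * a.val + (y0 - ex 0 * a.val) : ℕ) : ZMod N) = (ex j : ZMod N) * a + h := by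
    rw [Nat.cast_add, hcast, Nat.cast_mul, ZMod.natCast_zmod_val]
  rw [← hc]
  exact ZMod.val_cast_of_lt (by omega)

end Pool.Agent.Lib.MP_fb5b0b_nt.FB
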