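import Pool.Agent.Lib.MP_fb5b0b_nt.FB.Defs

/-!
MP_fb5b0b_nt, FB, module Szm: systems of multipliers from the density Hales-Jewett theorem.
-/

set_option autoImplicit false

namespace Pool.Agent.Lib.MP_fb5b0b_nt.FB

open Finset
open Pool.Agent.Lib.MP_9f2731_nt.GP

/-- the product of a word -/
private def Szm_P {k n : ℕ} (f : Fin n → ℕ → ℕ) (w : Fin n → Fin k) : ℕ := ∏ t, f t (w t : ℕ)

private theorem Szm_line {k n : ℕ} (f : Fin n → ℕ → ℕ) (w : Fin n → Option (Fin k)) (i : Fin k) :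
    Szm_P f (lineMap w i) =
      (∏ t, (w t).elim 1 (fun a => f t (a : ℕ))) *
        ∏ t ∈ univ.filter (fun t => w t = none), f t (i : ℕ) := by
  unfold Szm_P
  have h1 : ∀ t, f t (lineMap w i t : ℕ) =
      (w t).elim 1 (fun a => f t (a : ℕ)) * (if w t = none then f t (i : ℕ) else 1) := by
    intro t
    unfold lineMap
    cases w t with
    | none => simp
    | some a => simp
  simp only [h1]
  rw [Finset.prod_mul_distrib, Finset.prod_filter]

private theorem Szm_lt {k r : ℕ} {f : Fin r → ℕ → ℕ} (hf : ∀ t j, j < k → 1 ≤ f t j)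
    (hfi : ∀ t i j, i < j → j < k → f t i < f t j) {T : Finset (Fin r)} (hT : T.Nonempty)
    {x i j : ℕ} (hx : 1 ≤ x) (hij : i < j) (hj : j < k) : pr f x T i < pr f x T j := by
  unfold pr
  refine Nat.mul_lt_mul_of_pos_left ?_ hx
  refine Finset.prod_lt_prod_of_nonempty (fun t _ => ?_) (fun t _ => hfi t i j hij hj) hT
  exact hf t i (hij.trans hj)

theorem pSzm (hD : DhjStmt) : S_Szm := by
  classical
  intro k δ hk hδ
  obtain ⟨n, hn⟩ := hD k δ hδ
  refine ⟨n, fun f hf hfi => ?_⟩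
  have hkn : (0 : ℝ) < (k : ℝ) ^ n := by
    have : (0 : ℝ) < k := by exact_mod_cast hk
    positivity
  have hP1 : ∀ w : Fin n → Fin k, 1 ≤ Szm_P f w := fun w =>
    Nat.one_le_iff_ne_zero.2 (Finset.prod_ne_zero_iff.2 fun t _ => by
      have := hf t (w t : ℕ) (w t).2
      omega)
  obtain ⟨S, hS⟩ : ∃ S : Finset ℕ, S = univ.image (fun w : Fin n → Fin k => Szm_P f w) :=
    ⟨_, rfl⟩
  obtain ⟨m, hm⟩ : ∃ m : ℕ → ℝ, m = fun e =>
      ((univ.filter fun w : Fin n → Fin k => Szm_P f w = e).card : ℝ) / (k : ℝ) ^ n := ⟨_, rfl⟩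
  have hsum : ∀ A : Finset ℕ, ∑ e ∈ A, m e =
      ((univ.filter fun w : Fin n → Fin k => Szm_P f w ∈ A).card : ℝ) / (k : ℝ) ^ n := by
    intro A
    rw [hm]
    simp only
    rw [← Finset.sum_div]
    congr 1
    have h1 := Finset.card_eq_sum_card_fiberwise (f := fun w : Fin n → Fin k => Szm_P f w)
      (s := univ.filter fun w : Fin n → Fin k => Szm_P f w ∈ A) (t := A) (fun w hw => by
        simpa using hw)
    rw [h1]
    push_cast
    refine Finset.sum_congr rfl fun e he => ?_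
    congr 2
    ext w
    simp only [Finset.mem_filter, Finset.mem_univ, true_and]
    constructor
    · intro h
      rw [h]
      exact ⟨he, rfl⟩
    · exact fun h => h.2
  have hS1 : ∀ e ∈ S, 1 ≤ e := by
    intro e he
    rw [hS, Finset.mem_image] at he
    obtain ⟨w, -, rfl⟩ := he
    exact hP1 w
  obtain ⟨PP, hPP⟩ : ∃ PP : Finset (ℕ → ℕ), PP =
      (((range (S.sup id + 1)) ×ˢ (univ : Finset (Finset (Fin n)))).filter
        (fun p => 1 ≤ p.1 ∧ p.2.Nonempty ∧ ∀ j, j < k → pr f p.1 p.2 j ∈ S)).image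
          (fun p => pr f p.1 p.2) := ⟨_, rfl⟩
  refine ⟨S, m, PP, ⟨hS1, ?_, ?_, ?_, ?_⟩, ?_⟩
  · intro e
    rw [hm]
    positivity
  · rw [hsum S]
    have h1 : (univ.filter fun w : Fin n → Fin k => Szm_P f w ∈ S) = univ := by
      refine Finset.filter_true_of_mem fun w _ => ?_
      rw [hS]
      exact Finset.mem_image_of_mem _ (Finset.mem_univ w)
    rw [h1, Finset.card_univ, Fintype.card_fun, Fintype.card_fin, Fintype.card_fin, Nat.cast_pow,
      div_self hkn.ne']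
  · intro ex hex
    rw [hPP, Finset.mem_image] at hex
    obtain ⟨⟨x, T⟩, hxd, rfl⟩ := hex
    rw [Finset.mem_filter] at hxd
    obtain ⟨-, hx1, hT, hj⟩ := hxd
    refine ⟨hj, fun i j hi hj' hij => ?_⟩
    rcases Nat.lt_or_gt_of_ne hij with h | h
    · exact (Szm_lt hf hfi hT hx1 h hj').ne
    · exact (Szm_lt hf hfi hT hx1 h hi).ne'
  · intro A hA hc
    rw [hsum A, le_div_iff₀ hkn] at hc
    obtain ⟨w, ⟨t0, ht0⟩, hw⟩ := hn _ hc
    obtain ⟨x, hx⟩ : ∃ x : ℕ, x = ∏ t, (w t).elim 1 (fun a => f t (a : ℕ)) := ⟨_, rfl⟩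
    obtain ⟨T, hT⟩ : ∃ T : Finset (Fin n), T = univ.filter (fun t => w t = none) := ⟨_, rfl⟩
    have hTn : T.Nonempty := ⟨t0, by
      rw [hT, Finset.mem_filter]
      exact ⟨Finset.mem_univ _, ht0⟩⟩
    have hmem : ∀ j : ℕ, j < k → pr f x T j ∈ A := by
      intro j hj
      have h1 := (Finset.mem_filter.1 (hw ⟨j, hj⟩)).2
      rw [Szm_line, ← hx, ← hT] at h1
      exact h1
    have hx1 : 1 ≤ x := by
      have h1 := hS1 _ (hA (hmem 0 (by omega)))
      unfold pr at h1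
      exact Nat.pos_of_mul_pos_right h1
    refine ⟨pr f x T, ?_, hmem⟩
    rw [hPP, Finset.mem_image]
    refine ⟨(x, T), ?_, rfl⟩
    rw [Finset.mem_filter, Finset.mem_product, Finset.mem_range]
    refine ⟨⟨?_, Finset.mem_univ _⟩, hx1, hTn, fun j hj => hA (hmem j hj)⟩
    have h1 : pr f x T 0 ≤ S.sup id := Finset.le_sup (f := id) (hA (hmem 0 (by omega)))
    have h2 : x ≤ pr f x T 0 := Nat.le_mul_of_pos_right x
      (Nat.pos_of_ne_zero (Finset.prod_ne_zero_iff.2 fun t _ => by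
        have := hf t 0 (by omega)
        omega))
    show x < S.sup id + 1
    omega
  · intro ex hex
    rw [hPP, Finset.mem_image] at hex
    obtain ⟨⟨x, T⟩, hxd, rfl⟩ := hex
    rw [Finset.mem_filter] at hxd
    exact ⟨x, T, hxd.2.1, hxd.2.2.1, rfl⟩

end Pool.Agent.Lib.MP_fb5b0b_nt.FB
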