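import Pool.Agent.Lib.MP_9f2731_nt.SS.All
import Pool.Agent.Lib.MP_9f2731_nt.GP.Ap.All
import Pool.Agent.Lib.MP_fb5b0b_nt.FB.Szm
import Pool.Agent.Lib.MP_fb5b0b_nt.FB.Pos
import Pool.Agent.Lib.MP_fb5b0b_nt.FB.Cut
import Pool.Agent.Lib.MP_fb5b0b_nt.FB.Cfg
import Pool.Agent.Lib.MP_fb5b0b_nt.FB.Fnl
import Pool.Agent.Lib.MP_fb5b0b_nt.FB.Fob
import Pool.Agent.Lib.MP_fb5b0b_nt.FB.Gen
import Pool.Agent.Lib.MP_fb5b0b_nt.FB.Xav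
import Pool.Agent.Lib.MP_fb5b0b_nt.FB.Avg
import Pool.Agent.Lib.MP_fb5b0b_nt.FB.Eqd
import Pool.Agent.Lib.MP_fb5b0b_nt.FB.Lf1
import Pool.Agent.Lib.MP_fb5b0b_nt.FB.Lf2
import Pool.Agent.Lib.MP_fb5b0b_nt.FB.Sec
import Pool.Agent.Lib.MP_fb5b0b_nt.FB.Maj
import Pool.Agent.Lib.MP_fb5b0b_nt.FB.Cnt
import Pool.Agent.Lib.MP_fb5b0b_nt.FB.Den
import Pool.Agent.Lib.MP_fb5b0b_nt.FB.Pts
import Pool.Agent.Lib.MP_fb5b0b_nt.FB.Bas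

/-!
MP_fb5b0b_nt, FB: the main step of THEOREM FB without hypotheses.
-/

set_option autoImplicit false

namespace Pool.Agent.Lib.MP_fb5b0b_nt.FB

open Pool.Agent.Lib.MP_9f2731_nt

/-- the relative counting theorem -/
theorem rc : RcStmt := by
  have aGcs := GP.Rel.pGcs (GP.Rel.pGst (GP.Rel.pCs1 GP.Rel.pUpd))
  have aPr2 := GP.Rel.pPr2 GP.Rel.pUpd GP.Rel.pMrg
  have aCl := GP.Rel.pCl GP.Rel.pCl0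
    (GP.Rel.pCl1 (GP.Rel.pStf aGcs GP.Rel.pAlt) aPr2 (GP.Rel.pVar aPr2 GP.Rel.pMrg))
  have aDmt := GP.Rel.pDmt GP.Rel.pReg GP.Rel.pPhi
    (GP.Rel.pPol GP.Rel.pPhi (GP.Rel.pPml GP.Rel.pPhi))
  have aNuc := GP.Rel.pNuc aGcs GP.Rel.pAlt GP.Rel.pCfm GP.Rel.pMrg
  exact pFnl pPos aCl aDmt aNuc pCut pCfg

/-- the main step -/
theorem bas : S_Bas := by
  have aAvg := pAvg (pXav pFob GP.Rom.pExp GP.Rom.pTot GP.Rom.pRlg)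
  exact pBas rc (pGen SS.corL SS.momL SS.pSng pFob)
    (pLf1 aAvg GP.Asm.pEqd) (pLf2 aAvg pEqd) (pSec aAvg) pMaj (pDen pCnt GP.Ap.aAp) pPts
    GP.Asm.pSel

end Pool.Agent.Lib.MP_fb5b0b_nt.FB
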