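import Pool.Agent.Lib.MP_fb5b0b_nt.FB.Defs

/-!
MP_fb5b0b_nt, FB, module Bas: the main step.
-/

set_option autoImplicit false

namespace Pool.Agent.Lib.MP_fb5b0b_nt.FB

open Finset
open Pool.Agent.Lib.MP_9f2731_nt.GP
open Pool.Agent.Lib.MP_9f2731_nt.GP.Rel (av Ind pk HLFC Cut CutG)
open Pool.Agent.Lib.MP_9f2731_nt.GP.Asm (eb lfm SelStmt)
open Pool.Agent.Lib.MP_9f2731_nt.SS (nl Fo dt Wq Rs Scl CorLStmt MomLStmt S_Sng)

private theorem Bas_mono {α : Type} [Fintype α] (f g : α → ℝ) (h : ∀ x, f x ≤ g x) :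
    av f ≤ av g := by
  unfold av
  exact div_le_div_of_nonneg_right (sum_le_sum fun x _ => h x) (Nat.cast_nonneg _)

private theorem Bas_nonneg {α : Type} [Fintype α] (f : α → ℝ) (h : ∀ x, 0 ≤ f x) : 0 ≤ av f := by
  unfold av
  exact div_nonneg (sum_nonneg fun x _ => h x) (Nat.cast_nonneg _)

open Classical in
/-- selection of the good `b` -/
private theorem Bas_select (hS : SelStmt) (X : ℕ) (hX : 1 ≤ X) {ι : Type} (I : Finset ι)
    (F V : ℕ → ℝ) (g : ι → ℕ → ℝ) (δ η2 θ : ℝ) (hδ : 0 < δ) (hη2 : 0 < η2)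
    (hFV : ∀ b, 0 ≤ F b ∧ F b ≤ V b) (h2 : 2 * δ ≤ eb X F) (h3 : eb X (fun b => V b ^ 2) ≤ 2)
    (hg0 : ∀ i ∈ I, ∀ b, 0 ≤ g i b) (hg : ∀ i ∈ I, eb X (g i) ≤ θ)
    (hn : (I.card : ℝ) * θ / η2 ≤ δ ^ 2 / 8) :
    ∃ B : Finset ℕ, B ⊆ Icc 1 X ∧ δ ^ 2 / 4 * X ≤ (B.card : ℝ) ∧
      ∀ b ∈ B, δ ≤ F b ∧ ∀ i ∈ I, g i b ≤ η2 := by
  have hX0 : (0 : ℝ) < X := Nat.cast_pos.2 (by omega)
  have c1 : δ ^ 2 / 2 * X ≤ (((Icc 1 X).filter (fun b => δ ≤ F b)).card : ℝ) := by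
    refine le_trans (hS.1 X F V δ hX hδ hFV h2 h3) (le_of_eq ?_)
    congr 2
  have c2 : ∀ i ∈ I, (((Icc 1 X).filter (fun b => η2 < g i b)).card : ℝ) ≤ X * θ / η2 := by
    intro i hi
    have h := hS.2 X (g i) η2 hX hη2 (hg0 i hi)
    have h' : (X : ℝ) * eb X (g i) / η2 ≤ X * θ / η2 :=
      div_le_div_of_nonneg_right (mul_le_mul_of_nonneg_left (hg i hi) hX0.le) hη2.le
    refine le_trans (le_of_eq ?_) (h.trans h')
    congr 2
  refine ⟨(Icc 1 X).filter (fun b => δ ≤ F b ∧ ∀ i ∈ I, g i b ≤ η2), filter_subset _ _, ?_,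
    fun b hb => (mem_filter.1 hb).2⟩
  set B := (Icc 1 X).filter (fun b => δ ≤ F b ∧ ∀ i ∈ I, g i b ≤ η2) with hB
  have hsub : (Icc 1 X).filter (fun b => δ ≤ F b) ⊆
      B ∪ I.biUnion fun i => (Icc 1 X).filter (fun b => η2 < g i b) := by
    intro b hb
    rw [mem_filter] at hb
    rw [mem_union]
    by_cases hc : ∀ i ∈ I, g i b ≤ η2
    · exact Or.inl (mem_filter.2 ⟨hb.1, hb.2, hc⟩)
    · push Not at hc
      obtain ⟨i, hi, hgi⟩ := hc
      exact Or.inr (mem_biUnion.2 ⟨i, hi, mem_filter.2 ⟨hb.1, hgi⟩⟩)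
  have h7 : (((Icc 1 X).filter (fun b => δ ≤ F b)).card : ℝ) ≤
      (B.card : ℝ) + ((I.biUnion fun i => (Icc 1 X).filter (fun b => η2 < g i b)).card : ℝ) := by
    exact_mod_cast (card_le_card hsub).trans (card_union_le _ _)
  have h9 : ((I.biUnion fun i => (Icc 1 X).filter (fun b => η2 < g i b)).card : ℝ) ≤
      ∑ i ∈ I, (((Icc 1 X).filter (fun b => η2 < g i b)).card : ℝ) := by
    exact_mod_cast card_biUnion_le
  have h10 : ∑ i ∈ I, (((Icc 1 X).filter (fun b => η2 < g i b)).card : ℝ) ≤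
      ∑ _i ∈ I, X * θ / η2 := sum_le_sum c2
  rw [sum_const, nsmul_eq_mul] at h10
  have h11 : (I.card : ℝ) * (X * θ / η2) = X * (I.card * θ / η2) := by ring
  rw [h11] at h10
  have h12 := mul_le_mul_of_nonneg_left hn hX0.le
  have h13 : 0 < δ ^ 2 * X := by positivity
  linarith

/-- large parameters -/
private theorem Bas_large (C2 : ℝ) (hC2 : 0 < C2) (Q : ℕ) (hQ : 1 ≤ Q) (N0 : ℕ)
    (X0 : ℝ) :
    ∃ Y0 : ℕ, ∀ Y : ℕ, Y0 ≤ Y → ∃ X : ℕ, X0 ≤ (X : ℝ) ∧ 1 ≤ X ∧ (Y : ℝ) ≤ 4 * Q * X ∧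
      ∃ N : ℕ, Scl (C2 + 2) X N ∧ N0 ≤ N ∧ N ^ 2 ≤ X ∧ Q * (X + N) ≤ Y ∧
        ((Q * N : ℕ) : ℝ) ≤ (Real.log Y) ^ (C2 + 3) := by
  have hlog : Filter.Tendsto (fun X : ℕ => Real.log (X : ℝ)) Filter.atTop Filter.atTop :=
    Real.tendsto_log_atTop.comp (tendsto_natCast_atTop_atTop (R := ℝ))
  have t1 := ((tendsto_rpow_atTop (show 0 < C2 + 2 by linarith)).comp hlog).eventually
    (Filter.eventually_ge_atTop (max (N0 : ℝ) 1))
  have t2 := ((isLittleO_log_rpow_rpow_atTop (C2 + 2) (show (0 : ℝ) < 1 / 2 by norm_num)).bound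
    (show (0 : ℝ) < 1 / 4 by norm_num))
  have t2' := (tendsto_natCast_atTop_atTop (R := ℝ)).eventually t2
  have t3 := hlog.eventually (Filter.eventually_ge_atTop (4 * (Q : ℝ)))
  have t := (t1.and (t2'.and t3)).and (Filter.eventually_ge_atTop (max 1 ⌈X0⌉₊))
  rw [Filter.eventually_atTop] at t
  obtain ⟨X1, hX1⟩ := t
  refine ⟨2 * Q * (X1 + 1), fun Y hY => ?_⟩
  have hRQ : 0 < 2 * Q := by positivity
  obtain ⟨X, hX⟩ : ∃ X : ℕ, X = Y / (2 * Q) := ⟨_, rfl⟩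
  have hXX1 : X1 + 1 ≤ X := by
    rw [hX, Nat.le_div_iff_mul_le hRQ, mul_comm]
    exact hY
  have hXY : 2 * Q * X ≤ Y := by
    rw [hX]
    exact Nat.mul_div_le Y (2 * Q)
  have hYX : Y < 2 * Q * (X + 1) := by
    rw [hX]
    exact Nat.lt_mul_div_succ Y hRQ
  obtain ⟨⟨c1, c2, c3⟩, c4⟩ := hX1 X (by omega)
  simp only [Function.comp_apply] at c1
  have hX1' : 1 ≤ X := by omega
  have hXR : (1 : ℝ) ≤ X := by exact_mod_cast hX1'
  have hXpos : (0 : ℝ) < X := by linarith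
  refine ⟨X, ?_, hX1', ?_, ?_⟩
  · exact (Nat.le_ceil X0).trans (by exact_mod_cast (le_max_right _ _).trans c4)
  · have h1 : Y ≤ 4 * Q * X := by
      have h2 : 2 * Q * (X + 1) ≤ 2 * Q * (2 * X) := Nat.mul_le_mul_left _ (by omega)
      calc Y ≤ 2 * Q * (2 * X) := hYX.le.trans h2
        _ = 4 * Q * X := by ring
    exact_mod_cast h1
  obtain ⟨L, hL⟩ : ∃ L : ℝ, L = (Real.log (X : ℝ)) ^ (C2 + 2) := ⟨_, rfl⟩
  rw [← hL] at c1
  have hL1 : 1 ≤ L := (le_max_right _ _).trans c1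
  have hLN : (N0 : ℝ) ≤ L := (le_max_left _ _).trans c1
  have hn0 : ⌈L⌉₊ ≠ 0 := by
    have := Nat.le_ceil L
    intro h
    rw [h, Nat.cast_zero] at this
    linarith
  obtain ⟨N, hN, hN1, hN2⟩ := Nat.exists_prime_lt_and_le_two_mul ⌈L⌉₊ hn0
  have hNL : L ≤ N := (Nat.le_ceil L).trans (by exact_mod_cast hN1.le)
  have hNU : (N : ℝ) ≤ 4 * L := by
    have h6 : (N : ℝ) ≤ 2 * ⌈L⌉₊ := by exact_mod_cast hN2
    have h7 := (Nat.ceil_lt_add_one (show 0 ≤ L by linarith)).le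
    linarith
  have hlogX0 : 0 ≤ Real.log (X : ℝ) := Real.log_natCast_nonneg X
  rw [Real.norm_of_nonneg (Real.rpow_nonneg hlogX0 _),
    Real.norm_of_nonneg (Real.rpow_nonneg hXpos.le _), ← hL] at c2
  have hNX : (N : ℝ) ≤ (X : ℝ) ^ (1 / 2 : ℝ) := by linarith
  have hN2X : N ^ 2 ≤ X := by
    have h1 : (N : ℝ) ^ 2 ≤ X := by
      have h2 : (X : ℝ) ^ (1 / 2 : ℝ) * (X : ℝ) ^ (1 / 2 : ℝ) = X := by
        rw [← Real.rpow_add hXpos]
        norm_num
      have h3 : (0 : ℝ) ≤ N := Nat.cast_nonneg N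
      nlinarith
    exact_mod_cast h1
  have hNX' : N ≤ X := (Nat.le_self_pow (by norm_num) N).trans hN2X
  have hXleY : X ≤ Y := (Nat.le_mul_of_pos_left X hRQ).trans hXY
  refine ⟨N, ⟨hN, ?_, ?_⟩, ?_, hN2X, ?_, ?_⟩
  · rw [← hL]
    exact hNL
  · rw [← hL]
    exact hNU
  · have h9 : (N0 : ℝ) ≤ N := hLN.trans hNL
    exact_mod_cast h9
  · calc Q * (X + N) ≤ Q * (X + X) := Nat.mul_le_mul_left _ (by omega)
      _ = 2 * Q * X := by ring
      _ ≤ Y := hXY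
  · have hQ1 : (1 : ℝ) ≤ Q := by exact_mod_cast hQ
    have hlogX1 : 0 < Real.log (X : ℝ) := by linarith
    have h12 : (Real.log (X : ℝ)) ^ (C2 + 3) = Real.log (X : ℝ) * L := by
      rw [hL, show C2 + 3 = 1 + (C2 + 2) by ring, Real.rpow_add hlogX1, Real.rpow_one]
    have h14 : (Real.log (X : ℝ)) ^ (C2 + 3) ≤ (Real.log (Y : ℝ)) ^ (C2 + 3) :=
      Real.rpow_le_rpow hlogX0 (Real.log_le_log hXpos (by exact_mod_cast hXleY)) (by linarith)
    refine le_trans ?_ h14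
    rw [h12, Nat.cast_mul]
    calc (Q : ℝ) * N ≤ Q * (4 * L) := mul_le_mul_of_nonneg_left hNU (by linarith)
      _ = 4 * Q * L := by ring
      _ ≤ Real.log (X : ℝ) * L := mul_le_mul_of_nonneg_right c3 (by linarith)

open Classical in
/-- the small points -/
private theorem Bas_small (R N : ℕ) [NeZero N] (hR : 1 ≤ R) (hN : 16 * R ≤ N) :
    1 / (16 * (R : ℝ)) * N ≤ ((univ.filter (fun a : ZMod N => a.val * (8 * R) < N)).card : ℝ) := by
  have h1 : N / (8 * R) ≤ (univ.filter (fun a : ZMod N => a.val * (8 * R) < N)).card := by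
    have hlt : ∀ n ∈ range (N / (8 * R)), n * (8 * R) < N ∧ n < N := by
      intro n hn
      have h2 := mem_range.1 hn
      have h3 : (n + 1) * (8 * R) ≤ N := (Nat.mul_le_mul_right _ h2).trans (Nat.div_mul_le_self _ _)
      have h4 : (n + 1) * (8 * R) = n * (8 * R) + 8 * R := by ring
      have h5 : n ≤ n * (8 * R) := Nat.le_mul_of_pos_right n (by omega)
      omega
    have h2 := Finset.card_le_card_of_injOn (s := range (N / (8 * R)))
      (t := univ.filter (fun a : ZMod N => a.val * (8 * R) < N))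
      (fun n : ℕ => (n : ZMod N)) (by
        intro n hn
        rw [Finset.mem_coe] at hn
        rw [Finset.mem_coe, mem_filter]
        refine ⟨mem_univ _, ?_⟩
        rw [ZMod.val_natCast_of_lt (hlt n hn).2]
        exact (hlt n hn).1) (by
        intro n hn n' hn' hnn
        rw [Finset.mem_coe] at hn hn'
        have h2 := congrArg ZMod.val hnn
        simp only at h2
        rw [ZMod.val_natCast_of_lt (hlt n hn).2, ZMod.val_natCast_of_lt (hlt n' hn').2] at h2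
        exact h2)
    rwa [card_range] at h2
  have h2 : N ≤ 16 * R * (N / (8 * R)) := by
    have h3 : N < 8 * R * (N / (8 * R) + 1) := Nat.lt_mul_div_succ N (by omega)
    have h4 : 1 ≤ N / (8 * R) := by
      rw [Nat.le_div_iff_mul_le (by omega)]
      omega
    calc N ≤ 8 * R * (N / (8 * R) + 1) := h3.le
      _ ≤ 8 * R * (N / (8 * R) + N / (8 * R)) := Nat.mul_le_mul_left _ (by omega)
      _ = 16 * R * (N / (8 * R)) := by ring
  have h3 : N ≤ 16 * R * (univ.filter (fun a : ZMod N => a.val * (8 * R) < N)).card :=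
    h2.trans (Nat.mul_le_mul_left _ h1)
  have hR0 : (0 : ℝ) < R := by exact_mod_cast hR
  rw [one_div, inv_mul_le_iff₀ (by positivity)]
  exact_mod_cast h3

open Classical in
/-- double counting -/
private theorem Bas_count (Q N X Y : ℕ) [NeZero N] (ρ : ℝ) (G : ℕ → Prop) (B : Finset ℕ)
    (hQ : 1 ≤ Q) (hB : B ⊆ Icc 1 X) (hY : Q * (X + N) ≤ Y)
    (h : ∀ b ∈ B, ρ * N ≤ ((univ.filter (fun a : ZMod N => G (Q * (b + a.val)))).card : ℝ)) :
    ρ * B.card ≤ (((Icc 1 Y).filter G).card : ℝ) := by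
  have hN0 : (0 : ℝ) < N := by exact_mod_cast Nat.pos_of_ne_zero (NeZero.ne N)
  set T := (Icc 1 (X + N)).filter (fun t => G (Q * t)) with hT
  have h1 : (B.card : ℝ) * (ρ * N) ≤ N * T.card := by
    calc (B.card : ℝ) * (ρ * N) = ∑ _b ∈ B, ρ * N := by rw [sum_const, nsmul_eq_mul]
      _ ≤ ∑ b ∈ B, ((univ.filter (fun a : ZMod N => G (Q * (b + a.val)))).card : ℝ) := sum_le_sum h
      _ = ∑ a : ZMod N, ((B.filter (fun b => G (Q * (b + a.val)))).card : ℝ) := by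
          simp only [Finset.card_filter]
          push_cast
          rw [Finset.sum_comm]
      _ ≤ ∑ _a : ZMod N, (T.card : ℝ) := by
          refine sum_le_sum fun a _ => ?_
          have h2 : (B.filter (fun b => G (Q * (b + a.val)))).card ≤ T.card := by
            refine Finset.card_le_card_of_injOn (fun b => b + a.val) ?_ ?_
            · intro b hb
              rw [Finset.mem_coe, mem_filter] at hb
              have hb1 := mem_Icc.1 (hB hb.1)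
              have ha := ZMod.val_lt a
              show b + a.val ∈ T
              rw [hT, mem_filter, mem_Icc]
              exact ⟨⟨by omega, by omega⟩, hb.2⟩
            · intro b _ b' _ hbb
              have hbb' : b + a.val = b' + a.val := hbb
              omega
          exact_mod_cast h2
      _ = N * T.card := by
          rw [sum_const, card_univ, ZMod.card, nsmul_eq_mul]
  have h2 : ρ * B.card ≤ T.card := by
    have h3 : (N : ℝ) * (ρ * B.card) ≤ N * T.card := by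
      calc (N : ℝ) * (ρ * B.card) = (B.card : ℝ) * (ρ * N) := by ring
        _ ≤ _ := h1
    exact le_of_mul_le_mul_left h3 hN0
  refine h2.trans ?_
  have h4 : T.card ≤ ((Icc 1 Y).filter G).card := by
    refine Finset.card_le_card_of_injOn (fun t => Q * t) ?_ ?_
    · intro t ht
      rw [Finset.mem_coe, mem_filter, mem_Icc] at ht
      obtain ⟨⟨t1, t2⟩, t3⟩ := ht
      show Q * t ∈ (Icc 1 Y).filter G
      rw [mem_filter, mem_Icc]
      exact ⟨⟨Nat.mul_pos hQ t1, (Nat.mul_le_mul_left Q t2).trans hY⟩, t3⟩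
    · intro t _ t' _ htt
      have htt' : Q * t = Q * t' := htt
      exact Nat.eq_of_mul_eq_mul_left hQ htt'
  exact_mod_cast h4

open Classical in
private theorem Bas_fb {M w b0 X b N e : ℕ} {κ : ℝ} {y : ZMod N}
    (h : 0 < fb M w κ b0 X b e y) :
    N ≤ 4 * y.val ∧ 2 * y.val < N ∧ (nl (fo M w b0 e y) b).Prime := by
  by_contra hcon
  unfold fb at h
  rw [if_neg (fun h2 => hcon ⟨h2.1, h2.2.1, h2.2.2.1⟩)] at h
  exact lt_irrefl _ h

theorem pBas (hRc : RcStmt) (hG : S_Gen) (h1 : S_Lf1) (h2 : S_Lf2)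
    (hS : S_Sec) (hM : S_Maj) (hD : S_Den) (hP : S_Pts) (hSel : SelStmt) : S_Bas := by
  classical
  intro k hk
  have h2k : 1 ≤ 2 ^ (k + 1) := Nat.one_le_two_pow
  obtain ⟨J, hJ⟩ : ∃ J : ℕ, J = 2 * ((k + 1) * 2 ^ (k + 1)) := ⟨_, rfl⟩
  have hJ2 : 2 ≤ J := by
    rw [hJ]
    have : 1 ≤ (k + 1) * 2 ^ (k + 1) := Nat.mul_pos (by omega) (by omega)
    omega
  obtain ⟨κ, C, C2, hGen⟩ := hG J (by omega)
  have hκ0 : 0 < κ := hGen.1
  have hκ1 : κ < 1 := hGen.2.1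
  have hC2 : 0 < C2 := hGen.2.2.2.1
  obtain ⟨δ, hδ⟩ : ∃ δ : ℝ, δ = κ / 400 := ⟨_, rfl⟩
  have hδ0 : 0 < δ := by rw [hδ]; positivity
  refine ⟨C2 + 3, δ / 8, by linarith, by positivity, fun S m PP hSys M hM1 => ?_⟩
  obtain ⟨hS1, hm, hm1, hPP, -⟩ := id hSys
  obtain ⟨R, hR⟩ : ∃ R : ℕ, R = S.sup id + 1 := ⟨_, rfl⟩
  have hSR : ∀ e ∈ S, Mu R e := by
    intro e he
    refine ⟨hS1 e he, ?_⟩
    rw [hR]
    exact Nat.lt_succ_of_le (Finset.le_sup (f := id) he)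
  have hR1 : 1 ≤ R := by omega
  have hR0 : (0 : ℝ) < R := by exact_mod_cast hR1
  obtain ⟨ρ, hρ⟩ : ∃ ρ : ℝ, ρ = 1 / (32 * (R : ℝ)) := ⟨_, rfl⟩
  have hρ0 : 0 < ρ := by rw [hρ]; positivity
  obtain ⟨η, N0, hη, hRc⟩ := hRc k δ S m PP (by omega) hδ0 hSys ρ hρ0
  -- the conditions
  obtain ⟨SS, hSS⟩ : ∃ SS : Finset (Finset (Fin (k + 1) × (Fin (k + 1) → Bool))),
      ∀ S', S' ∈ SS ↔ ∀ p ∈ S', p.2 p.1 = false :=
    ⟨univ.filter (fun S' => ∀ p ∈ S', p.2 p.1 = false), fun S' => by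
      rw [mem_filter]
      exact ⟨fun h => h.2, fun h => ⟨mem_univ _, h⟩⟩⟩
  obtain ⟨I, hI⟩ : ∃ I : Finset ((ℕ × Finset (Fin (k + 1) × (Fin (k + 1) → Bool))) ⊕
      ((ℕ → ℕ) × Finset (Fin (k + 1) × (Fin (k + 1) → Bool)))),
      I = (S ×ˢ SS).disjSum (PP ×ˢ SS) := ⟨_, rfl⟩
  have hI1 : ∀ e S', Sum.inl (e, S') ∈ I ↔ e ∈ S ∧ S' ∈ SS := by
    intro e S'
    rw [hI, inl_mem_disjSum, mem_product]
  have hI2 : ∀ ex S', Sum.inr (ex, S') ∈ I ↔ ex ∈ PP ∧ S' ∈ SS := by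
    intro ex S'
    rw [hI, inr_mem_disjSum, mem_product]
  obtain ⟨θ, hθ, hθ1⟩ : ∃ θ : ℝ, 0 < θ ∧ (I.card : ℝ) * θ / η ^ 2 ≤ δ ^ 2 / 8 := by
    refine ⟨η ^ 2 * δ ^ 2 / (8 * (I.card + 1)), by positivity, ?_⟩
    rw [div_le_iff₀ (by positivity)]
    have hs : (0 : ℝ) ≤ I.card := Nat.cast_nonneg _
    rw [← mul_div_assoc, div_le_iff₀ (by positivity)]
    have hp : 0 ≤ η ^ 2 * δ ^ 2 := by positivity
    nlinarith
  obtain ⟨w1, hw1⟩ := h1 k J κ C C2 (by omega) hJ.ge hGen R M θ hM1 hθ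
  obtain ⟨w2, hw2⟩ := h2 k J κ C C2 (by omega) hJ.ge hGen R M θ hM1 hθ
  obtain ⟨w3, hw3⟩ := hS J κ C C2 hJ2 hGen R M hM1
  obtain ⟨w, hwM, hwa, hwb, hwc, hwd⟩ : ∃ w : ℕ, M ≤ w ∧ 2 ≤ w ∧ w1 ≤ w ∧ w2 ≤ w ∧ w3 ≤ w :=
    ⟨M + 2 + w1 + w2 + w3, by omega, by omega, by omega, by omega, by omega⟩
  obtain ⟨Q, hQ⟩ : ∃ Q : ℕ, Q = Wq M w := ⟨_, rfl⟩
  have hQ2 : 2 ≤ Q := by
    rw [hQ]
    have h3 : 2 ∣ Wp w := Nat.prime_two.dvd_primorial_iff.2 hwa
    exact Nat.le_of_dvd (Nat.mul_pos hM1 (primorial_pos w)) (Dvd.dvd.mul_left h3 M)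
  have hMQ : M ∣ Q := by
    rw [hQ]
    exact Dvd.intro _ rfl
  have hb0 : Rs M w 1 := ⟨le_rfl, by rw [← hQ]; omega, Nat.coprime_one_left _⟩
  obtain ⟨X1, hX1⟩ := hw1 w hwb
  obtain ⟨X2, hX2⟩ := hw2 w hwc
  obtain ⟨X3, hX3⟩ := hw3 w hwd
  obtain ⟨X4, hX4⟩ := hD R M w κ hκ0 hκ1 hM1 hwM hwa
  obtain ⟨Y0, hY0⟩ := Bas_large C2 hC2 Q (by omega) (max N0 (32 * R))
    (max X1 (max X2 (max X3 X4)))
  have hQ0 : (0 : ℝ) < Q := by
    have : 0 < Q := by omega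
    exact_mod_cast this
  refine ⟨ρ * δ ^ 2 / (16 * Q), by positivity, Y0, fun Y hY => ?_⟩
  obtain ⟨X, hX0, hXp, hYX, N, hScl, hN0, hNX, hRQ, hQNL⟩ := hY0 Y hY
  have hXR : (1 : ℝ) ≤ X := by exact_mod_cast hXp
  rw [max_le_iff, max_le_iff, max_le_iff] at hX0
  obtain ⟨a1, a2, a3, a4⟩ := hX0
  have hNp : N.Prime := hScl.1
  have : NeZero N := ⟨hNp.ne_zero⟩
  have hNR : (0 : ℝ) < N := Nat.cast_pos.2 hNp.pos
  have hN32 : 32 * R ≤ N := (le_max_right _ _).trans hN0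
  have hmaj := fun b e (y : ZMod N) => hM M w 1 X b N κ hκ0 hXp e y
  have hden : 2 * δ ≤ eb X (fun b => ∑ e ∈ S, m e * av (fun x : ZMod N => fb M w κ 1 X b e x)) := by
    have h3 : eb X (fun b => ∑ e ∈ S, m e * av (fun x : ZMod N => fb M w κ 1 X b e x)) =
        ∑ e ∈ S, m e * eb X (fun b => av (fun x : ZMod N => fb M w κ 1 X b e x)) := by
      unfold eb
      rw [Finset.sum_comm, Finset.sum_div]
      refine Finset.sum_congr rfl fun e _ => ?_
      rw [← Finset.mul_sum, mul_div_assoc]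
    rw [h3]
    calc 2 * δ = ∑ e ∈ S, m e * (κ / 200) := by
          rw [← Finset.sum_mul, hm1, hδ]
          ring
      _ ≤ _ := Finset.sum_le_sum fun e he =>
          mul_le_mul_of_nonneg_left (hX4 X a4 N hN32 hNX e (hSR e he)) (hm e)
  obtain ⟨B, hBX, hBc, hBg⟩ := Bas_select hSel X hXp I
    (fun b => ∑ e ∈ S, m e * av (fun x : ZMod N => fb M w κ 1 X b e x))
    (fun b => ∑ e ∈ S, m e * av (fun x : ZMod N => nub M w κ 1 X b e x))
    (fun i b => match i with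
      | Sum.inl p => (lfm (k + 1) p.2 (fun x : ZMod N => nub M w κ 1 X b p.1 x) - 1) ^ 2
      | Sum.inr p => (av (fun x : Fin (k + 1) × Bool → ZMod N => ∏ r ∈ p.2,
          gW k (fun e (y : ZMod N) => nub M w κ 1 X b e y) (fun _ => 1) p.1 r.1
            (pk r.2 x)) - 1) ^ 2)
    δ (η ^ 2) θ hδ0 (by positivity)
    (fun b => ⟨sum_nonneg fun e _ => mul_nonneg (hm e) (Bas_nonneg _ fun x => (hmaj b e x).1),
      sum_le_sum fun e _ => mul_le_mul_of_nonneg_left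
        (Bas_mono _ _ fun x => (hmaj b e x).2) (hm e)⟩)
    hden
    (hX3 X a3 1 hb0 N hScl S m hSR hm hm1)
    (by
      rintro (i | i) - b
      · exact sq_nonneg _
      · exact sq_nonneg _)
    (by
      rintro (⟨e, S'⟩ | ⟨ex, S'⟩) hi
      · obtain ⟨i1, i2⟩ := (hI1 e S').1 hi
        exact hX1 X a1 1 hb0 N hScl e (hSR e i1) S' ((hSS S').1 i2)
      · obtain ⟨i2, i3⟩ := (hI2 ex S').1 hi
        obtain ⟨i4, i5⟩ := hPP ex i2
        exact hX2 X a2 1 hb0 N hScl ex (fun j hj => hSR _ (i4 j hj)) i5 S' ((hSS S').1 i3))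
    hθ1
  -- the good points
  have hgood : ∀ b ∈ B, ρ * N ≤ ((univ.filter (fun a : ZMod N =>
      Gd k PP M ((Real.log Y) ^ (C2 + 3)) (Q * (b + a.val)))).card : ℝ) := by
    intro b hb
    obtain ⟨hFb, hgb⟩ := hBg b hb
    have hb1 : 1 ≤ b := (mem_Icc.1 (hBX hb)).1
    have hLFC : ∀ e ∈ S, LFC (k + 1) η (fun x : ZMod N => nub M w κ 1 X b e x) := by
      intro e he S' hS'
      exact abs_le_of_sq_le_sq (hgb (Sum.inl (e, S')) ((hI1 e S').2 ⟨he, (hSS S').2 hS'⟩)) hη.le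
    have hHLFC : ∀ ex ∈ PP,
        HLFC η (gW k (fun e (y : ZMod N) => nub M w κ 1 X b e y) (fun _ => 1) ex) := by
      intro ex hex S' hS'
      exact abs_le_of_sq_le_sq (hgb (Sum.inr (ex, S'))
        ((hI2 ex S').2 ⟨hex, (hSS S').2 hS'⟩)) hη.le
    have hsum : δ * N ≤ ∑ e ∈ S, m e * ∑ x : ZMod N, fb M w κ 1 X b e x := by
      have h10 : δ ≤ ∑ e ∈ S, m e * av (fun x : ZMod N => fb M w κ 1 X b e x) := hFb
      have h11 : ∑ e ∈ S, m e * av (fun x : ZMod N => fb M w κ 1 X b e x) =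
          (∑ e ∈ S, m e * ∑ x : ZMod N, fb M w κ 1 X b e x) / N := by
        rw [Finset.sum_div]
        refine Finset.sum_congr rfl fun e _ => ?_
        unfold av
        rw [ZMod.card, mul_div_assoc]
      rw [h11, le_div_iff₀ hNR] at h10
      exact h10
    by_contra hcon
    push Not at hcon
    set Ab := univ.filter (fun a : ZMod N =>
      Gd k PP M ((Real.log Y) ^ (C2 + 3)) (Q * (b + a.val))) with hAb
    have hsm := Bas_small R N hR1 (by omega)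
    have hQb : ρ * N ≤ ((univ.filter (fun a : ZMod N => a.val * (8 * R) < N) \ Ab).card : ℝ) := by
      have h3 := Finset.card_le_card_sdiff_add_card
        (s := univ.filter (fun a : ZMod N => a.val * (8 * R) < N)) (t := Ab)
      have h4 : ((univ.filter (fun a : ZMod N => a.val * (8 * R) < N)).card : ℝ) ≤
        ((univ.filter (fun a : ZMod N => a.val * (8 * R) < N) \ Ab).card : ℝ) + (Ab.card : ℝ) := by
        exact_mod_cast h3
      have h5 : 1 / (16 * (R : ℝ)) * N = 2 * (ρ * N) := by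
        rw [hρ]
        field_simp
        norm_num
      rw [h5] at hsm
      linarith
    obtain ⟨ex, hex, a, haQ, h, hpos⟩ := hRc N hNp ((le_max_left _ _).trans hN0)
      (fun e (y : ZMod N) => nub M w κ 1 X b e y) (fun e (y : ZMod N) => fb M w κ 1 X b e y)
      (fun e x => ⟨(hmaj b e x).1, (hmaj b e x).2⟩) hLFC hHLFC hsum
      (univ.filter (fun a : ZMod N => a.val * (8 * R) < N) \ Ab) hQb
    rw [mem_sdiff, mem_filter] at haQ
    obtain ⟨⟨-, ha8⟩, haA⟩ := haQ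
    apply haA
    have hmem := (hPP ex hex).1
    obtain ⟨h', hh', hval⟩ := hP R N k ex a h (by omega) (fun j hj => (hSR _ (hmem j hj)).2)
      ha8 fun j hj => ⟨(Bas_fb (hpos j hj)).1, (Bas_fb (hpos j hj)).2.1⟩
    rw [hAb, mem_filter]
    refine ⟨mem_univ _, hMQ.mul_right _, ex, hex, Q * h' + 1, by omega, ?_, ?_, ?_⟩
    · refine le_trans ?_ hQNL
      have h12 : Q * h' + 1 ≤ Q * N := by
        have h14 : Q * (h' + 1) ≤ Q * N := Nat.mul_le_mul_left Q hh'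
        rw [Nat.mul_add, Nat.mul_one] at h14
        omega
      exact_mod_cast h12
    · have h13 : Q * h' + 1 ≡ 0 + 1 [MOD M] :=
        Nat.ModEq.add_right 1 ((Nat.modEq_zero_iff_dvd).2 (hMQ.mul_right _))
      rwa [zero_add] at h13
    · intro j hj
      have h15 := (Bas_fb (hpos j hj)).2.2
      unfold nl fo at h15
      rw [hval j hj, ← hQ] at h15
      have h16 : ex j * (Q * (b + a.val)) + (Q * h' + 1) =
          Q * ex j * b + (Q * (ex j * a.val + h') + 1) := by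
        ring
      rw [h16]
      exact h15
  have hfin := Bas_count Q N X Y ρ (fun n => Gd k PP M ((Real.log Y) ^ (C2 + 3)) n) B
    (by omega) hBX hRQ hgood
  have hX0' : (0 : ℝ) < X := by linarith
  have h20 : ρ * (δ ^ 2 / 4 * X) ≤ (((Icc 1 Y).filter
      (fun n => Gd k PP M ((Real.log Y) ^ (C2 + 3)) n)).card : ℝ) :=
    (mul_le_mul_of_nonneg_left hBc hρ0.le).trans hfin
  have h21 : ρ * δ ^ 2 / (16 * Q) * Y ≤ ρ * δ ^ 2 / (16 * Q) * (4 * Q * X) :=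
    mul_le_mul_of_nonneg_left hYX (by positivity)
  have h22 : ρ * δ ^ 2 / (16 * Q) * (4 * Q * X) = ρ * (δ ^ 2 / 4 * X) := by
    field_simp
    ring
  rw [h22] at h21
  exact h21.trans h20

end Pool.Agent.Lib.MP_fb5b0b_nt.FB
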