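import Pool.Agent.Lib.MP_9f2731_nt.SS.SpecC

/-!
MP_fb5b0b_nt, directory FB (helper14): THEOREM FB. For every k there are C and δ > 0 such that for every mass m on a
finite set S of positive integers and every family of k-subsets of which every part of S of mass at least δ contains
one, a positive proportion of the n ≤ X satisfies: M ∣ n and for some member E and some h ≤ (log X)^C, h ≡ 1 mod M, all
`e n + h`, e in E, are prime. The modules follow Pool/Agent/Lib/MP_9f2731_nt/SS (multipliers `2^e`).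
-/

namespace Pool.Agent.Lib.MP_fb5b0b_nt.FB

open Finset
open Pool.Agent.Lib.MP_9f2731_nt.GP
open Pool.Agent.Lib.MP_9f2731_nt.GP.Rel (av Ind pk HLFC Cut CutG)
open Pool.Agent.Lib.MP_9f2731_nt.GP.Asm (eb lfm)
open Pool.Agent.Lib.MP_9f2731_nt.SS (nl Fo dt Wq Rs Scl CorLStmt MomLStmt S_Sng)

/-! ### Multipliers and patterns -/

/-- admissible multipliers -/
def Mu (R e : ℕ) : Prop := 1 ≤ e ∧ e < R

/-- a system of multipliers: a mass m on the finite set S and a finite set PP of patterns of k different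
multipliers in S, such that every part of mass at least δ contains a pattern -/
def Sys (k : ℕ) (δ : ℝ) (S : Finset ℕ) (m : ℕ → ℝ) (PP : Finset (ℕ → ℕ)) : Prop :=
  (∀ e ∈ S, 1 ≤ e) ∧ (∀ e, 0 ≤ m e) ∧ ∑ e ∈ S, m e = 1 ∧
  (∀ ex ∈ PP, (∀ j, j < k → ex j ∈ S) ∧ ∀ i j, i < k → j < k → i ≠ j → ex i ≠ ex j) ∧
  ∀ A : Finset ℕ, A ⊆ S → δ ≤ ∑ e ∈ A, m e → ∃ ex ∈ PP, ∀ j : ℕ, j < k → ex j ∈ A

/-- the multipliers `x ∏_(t∈T) f_t(j)` -/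
def pr {r : ℕ} (f : Fin r → ℕ → ℕ) (x : ℕ) (T : Finset (Fin r)) (j : ℕ) : ℕ := x * ∏ t ∈ T, f t j

/-- **Szm**. Uses: DhjStmt. Proof. r from DhjStmt for (k, δ); a word w : Fin r → Fin k has the product
∏ f t (w t); S = the set of the products, m e = (number of words with product e)/k^r. For A ⊆ S of mass ≥ δ the
words with product in A are ≥ δ k^r many and contain a line: products x ∏_(t∈T) f t i, T the set of wildcards. -/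
def S_Szm : Prop :=
  ∀ (k : ℕ) (δ : ℝ), 1 ≤ k → 0 < δ → ∃ r : ℕ, ∀ f : Fin r → ℕ → ℕ, (∀ t j, j < k → 1 ≤ f t j) →
    (∀ t i j, i < j → j < k → f t i < f t j) →
    ∃ (S : Finset ℕ) (m : ℕ → ℝ) (PP : Finset (ℕ → ℕ)), Sys k δ S m PP ∧
      ∀ ex ∈ PP, ∃ (x : ℕ) (T : Finset (Fin r)), 1 ≤ x ∧ T.Nonempty ∧ ex = pr f x T

/-! ### Relative counting in windows -/

/-- the form `(ex j) a + h` in the variables `x 0, ..., x k`, `a = ∑_(l<k) x l`,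
`h = x k - ∑_(l<k) (ex l) x l`; it does not contain `x j` -/
def Lf {N : ℕ} (k : ℕ) (ex : ℕ → ℕ) (j : ℕ) (x : Fin (k + 1) → ZMod N) : ZMod N :=
  ∑ l : Fin k, ((ex j : ZMod N) - (ex (l : ℕ) : ZMod N)) * x l.castSucc + x (Fin.last k)

/-- the functions of the k + 1 edges: `g (ex j)` of the form j for j < k, `q` of `a` for j = k -/
def gW {N : ℕ} (k : ℕ) (g : ℕ → ZMod N → ℝ) (q : ZMod N → ℝ) (ex : ℕ → ℕ) (j : Fin (k + 1))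
    (x : Fin (k + 1) → ZMod N) : ℝ :=
  if (j : ℕ) < k then g (ex j) (Lf k ex j x) else q (∑ l : Fin k, x l.castSucc)

/-- Relative counting theorem: for every set Q of positive density some a in Q belongs to a pattern. -/
def RcStmt : Prop :=
  ∀ (k : ℕ) (δ : ℝ) (S : Finset ℕ) (m : ℕ → ℝ) (PP : Finset (ℕ → ℕ)), 2 ≤ k → 0 < δ →
    Sys k (δ / 8) S m PP → ∀ ρ : ℝ, 0 < ρ → ∃ (η : ℝ) (N0 : ℕ), 0 < η ∧
    ∀ (N : ℕ) [NeZero N], N.Prime → N0 ≤ N → ∀ ν g : ℕ → ZMod N → ℝ,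
      (∀ e x, 0 ≤ g e x ∧ g e x ≤ ν e x) → (∀ e ∈ S, LFC (k + 1) η (ν e)) →
      (∀ ex ∈ PP, HLFC η (gW k ν (fun _ => 1) ex)) →
      δ * N ≤ ∑ e ∈ S, m e * ∑ x : ZMod N, g e x →
      ∀ Q : Finset (ZMod N), ρ * N ≤ (Q.card : ℝ) →
      ∃ ex ∈ PP, ∃ a ∈ Q, ∃ h : ZMod N, ∀ j : ℕ, j < k → 0 < g (ex j) ((ex j : ZMod N) * a + h)

/-- **Pos**. Uses: nothing. Proof. As SS/Pos with the mass m. For a, h let E = {e ∈ S : δ/2 ≤ g e (e a + h)}. ∑_h ∑_(e∈S) m e g e (e a + h) ≥ δ N, the inner sum is ≤ m(E) + δ/2 (mass 1). So ∑_h m(E) ≥ (δ/2) N, m(E) ≤ 1: at least (δ/4) N of the h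
have m(E) ≥ δ/4. Sys gives a pattern in E with product ≥ (δ/2)^k. c = (δ/4) (δ/2)^k / (card PP + 1). -/
def S_Pos : Prop :=
  ∀ (k : ℕ) (δ : ℝ) (S : Finset ℕ) (m : ℕ → ℝ) (PP : Finset (ℕ → ℕ)), 1 ≤ k → 0 < δ →
    Sys k (δ / 4) S m PP → ∃ c : ℝ, 0 < c ∧
    ∀ (N : ℕ) [NeZero N] (g : ℕ → ZMod N → ℝ) (Q : Finset (ZMod N)),
    (∀ e x, 0 ≤ g e x ∧ g e x ≤ 1) → δ * N ≤ ∑ e ∈ S, m e * ∑ x : ZMod N, g e x →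
    ∃ ex ∈ PP, c * Q.card * N ≤
      ∑ a ∈ Q, ∑ h : ZMod N, ∏ j ∈ range k, g (ex j) ((ex j : ZMod N) * a + h)

/-- **Cut**. Uses: nothing. As SS/Cut. -/
def S_Cut : Prop :=
  ∀ (k N : ℕ) [NeZero N] (ex : ℕ → ℕ) (j : Fin (k + 1)) (u : ZMod N → ℝ) (τ : ℝ), (j : ℕ) < k →
    N.Prime → (∀ l l' : ℕ, l < k → l' < k → l ≠ l' → (ex l : ZMod N) ≠ (ex l' : ZMod N)) →
    CutG k τ u → Cut j τ (fun x => u (Lf k ex j x))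

/-- **Cfg**. Uses: nothing. As SS/Cfg. -/
def S_Cfg : Prop :=
  ∀ (k N : ℕ) [NeZero N] (g : ℕ → ZMod N → ℝ) (q : ZMod N → ℝ) (ex : ℕ → ℕ), 1 ≤ k →
    av (fun x : Fin (k + 1) → ZMod N => ∏ j, gW k g q ex j x) =
      (∑ a : ZMod N, ∑ h : ZMod N, q a * ∏ j ∈ range k, g (ex j) ((ex j : ZMod N) * a + h)) /
        (N : ℝ) ^ 2

/-! ### Windows -/

/-- the form belonging to the multiplier e and the point y: `Q (e b + y) + b0`, `Q = Wq M w` -/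
def fo {N : ℕ} (M w b0 e : ℕ) (y : ZMod N) : ℕ × ℕ := (Wq M w * e, Wq M w * y.val + b0)

/-- the majorant on the window e belonging to b -/
noncomputable def nub (M w : ℕ) (κ : ℝ) (b0 X b : ℕ) {N : ℕ} (e : ℕ) (y : ZMod N) : ℝ :=
  nu 2 w ((X : ℝ) ^ κ) (nl (fo M w b0 e y) b)

open Classical in
/-- the normalized indicator of the primes on the middle part of the window -/
noncomputable def fb (M w : ℕ) (κ : ℝ) (b0 X b : ℕ) {N : ℕ} (e : ℕ) (y : ZMod N) : ℝ :=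
  if N ≤ 4 * y.val ∧ 2 * y.val < N ∧ (nl (fo M w b0 e y) b).Prime ∧
      (X : ℝ) ^ κ < (nl (fo M w b0 e y) b : ℕ) then
    ((Wp w).totient / (Wp w) : ℝ) * Real.log ((X : ℝ) ^ κ) * (3 / 4)
  else 0

open Classical in
/-- singular term of two points of the windows -/
noncomputable def Xi (C : ℝ) (M w b0 : ℕ) {N : ℕ} (e e' : ℕ) (u v : ZMod N) : ℝ :=
  if e = e' ∧ u = v then 0 else sing C w (dt (fo M w b0 e u) (fo M w b0 e' v)) - 1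

/-- **Fob**. Uses: nothing. As SS/Fob. -/
def S_Fob : Prop :=
  (∀ B : ℕ, ∃ w0 : ℕ, ∀ w : ℕ, w0 ≤ w → B ≤ Wp w) ∧
  ∀ (M w R b0 N : ℕ) [NeZero N], 1 ≤ M → M ≤ w → 2 ≤ w → R ≤ w → R ≤ Wp w → Rs M w b0 →
    ∀ e e' : ℕ, Mu R e → Mu R e' → ∀ y y' : ZMod N, Fo w (fo M w b0 e y) ∧
      (¬(e = e' ∧ y = y') → dt (fo M w b0 e y) (fo M w b0 e' y') ≠ 0) ∧
      dt (fo M w b0 e y) (fo M w b0 e' y') ≤ Wq M w ^ 2 * R * N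

/-- general mean value of products of the majorant over a family of maps ψ i into windows ε i -/
def GenOK (J : ℕ) (κ C C2 : ℝ) : Prop :=
  0 < κ ∧ κ < 1 ∧ 0 < C ∧ 0 < C2 ∧
  ∀ (R M : ℕ) (θ : ℝ), 1 ≤ M → 0 < θ → ∃ w0 : ℕ, ∀ w : ℕ, w0 ≤ w → ∃ X0 : ℝ, ∀ X : ℕ, X0 ≤ X →
    ∀ b0 : ℕ, Rs M w b0 → ∀ (N : ℕ) [NeZero N] (Y : Type) [Fintype Y] [Nonempty Y] (ι : Type)
    [DecidableEq ι] (I : Finset ι) (ε : ι → ℕ) (ψ : ι → Y → ZMod N), I.card ≤ J →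
    (∀ i ∈ I, Mu R (ε i)) →
    |eb X (fun b => av (fun y => ∏ i ∈ I, nub M w κ b0 X b (ε i) (ψ i y))) - 1| ≤
      θ + C * ∑ i ∈ I, ∑ i' ∈ I.erase i, av (fun y => Xi C M w b0 (ε i) (ε i') (ψ i y) (ψ i' y)) +
        (Real.log X) ^ C2 * ∑ i ∈ I, ∑ i' ∈ I.erase i,
          av (fun y => if ε i = ε i' ∧ ψ i y = ψ i' y then (1 : ℝ) else 0)

/-- **Gen**. Uses: CorLStmt, MomLStmt, S_Sng, S_Fob. As SS/Gen. -/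
def S_Gen : Prop := ∀ J : ℕ, 1 ≤ J → ∃ κ C C2 : ℝ, GenOK J κ C C2

/-- **Xav**. Uses: S_Fob, GP.Rom.ExpStmt, GP.Rom.TotStmt, GP.Rom.RlgStmt. As SS/Xav. -/
def S_Xav : Prop :=
  ∀ (R M : ℕ) (C η : ℝ), 1 ≤ M → 0 < C → 0 < η → ∃ w0 : ℕ, ∀ w : ℕ, w0 ≤ w → ∃ N0 : ℕ,
    ∀ (N : ℕ) [NeZero N], N0 ≤ N → ∀ b0 : ℕ, Rs M w b0 → ∀ e e' : ℕ, Mu R e → Mu R e' →
    ∑ u : ZMod N, ∑ v : ZMod N, Xi C M w b0 e e' u v ≤ η * (N : ℝ) ^ 2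

/-- **Avg**. Uses: S_Xav. As SS/Avg. -/
def S_Avg : Prop :=
  ∀ (J : ℕ) (κ C C2 : ℝ), GenOK J κ C C2 → ∀ (R M : ℕ) (θ : ℝ), 1 ≤ M → 0 < θ → ∃ w0 : ℕ,
    ∀ w : ℕ, w0 ≤ w → ∃ X0 : ℝ, ∀ X : ℕ, X0 ≤ X → ∀ b0 : ℕ, Rs M w b0 → ∀ (N : ℕ) [NeZero N], Scl (C2 + 2) X N →
    ∀ (Y : Type) [Fintype Y] [Nonempty Y] (ι : Type) [DecidableEq ι] (I : Finset ι) (ε : ι → ℕ)
    (ψ : ι → Y → ZMod N), I.card ≤ J → (∀ i ∈ I, Mu R (ε i)) →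
    (∀ i ∈ I, ∀ i' ∈ I, i ≠ i' → ∀ F : ZMod N × ZMod N → ℝ,
      av (fun y => F (ψ i y, ψ i' y)) = av F) →
    |eb X (fun b => av (fun y => ∏ i ∈ I, nub M w κ b0 X b (ε i) (ψ i y))) - 1| ≤ θ

/-- **Eqd**. Uses: nothing. As SS/Eqd. -/
def S_Eqd : Prop :=
  ∀ (k N : ℕ) [NeZero N] (ex : ℕ → ℕ), N.Prime →
    (∀ l l' : ℕ, l < k → l' < k → l ≠ l' → (ex l : ZMod N) ≠ (ex l' : ZMod N)) →
    ∀ p p' : Fin (k + 1) × (Fin (k + 1) → Bool), (p.1 : ℕ) < k → (p'.1 : ℕ) < k →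
    p.2 p.1 = false → p'.2 p'.1 = false →
    (∀ F : ZMod N → ℝ, av (fun x : Fin (k + 1) × Bool → ZMod N =>
      F (Lf k ex (p.1 : ℕ) (pk p.2 x))) = av F) ∧
    (p ≠ p' → ∀ F : ZMod N × ZMod N → ℝ, av (fun x : Fin (k + 1) × Bool → ZMod N =>
      F (Lf k ex (p.1 : ℕ) (pk p.2 x), Lf k ex (p'.1 : ℕ) (pk p'.2 x))) = av F)

/-- **Lf1**. Uses: S_Avg, GP.Asm.EqdStmt. As SS/Lf1. -/
def S_Lf1 : Prop :=
  ∀ (k J : ℕ) (κ C C2 : ℝ), 2 ≤ k → 2 * ((k + 1) * 2 ^ (k + 1)) ≤ J → GenOK J κ C C2 →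
    ∀ (R M : ℕ) (θ : ℝ), 1 ≤ M → 0 < θ → ∃ w0 : ℕ, ∀ w : ℕ, w0 ≤ w → ∃ X0 : ℝ, ∀ X : ℕ, X0 ≤ X →
    ∀ b0 : ℕ, Rs M w b0 → ∀ (N : ℕ) [NeZero N], Scl (C2 + 2) X N → ∀ e : ℕ, Mu R e →
    ∀ S : Finset (Fin (k + 1) × (Fin (k + 1) → Bool)), (∀ p ∈ S, p.2 p.1 = false) →
      eb X (fun b => (lfm (k + 1) S (fun x : ZMod N => nub M w κ b0 X b e x) - 1) ^ 2) ≤ θ

/-- **Lf2**. Uses: S_Avg, S_Eqd. As SS/Lf2, for k different multipliers ex j. -/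
def S_Lf2 : Prop :=
  ∀ (k J : ℕ) (κ C C2 : ℝ), 2 ≤ k → 2 * ((k + 1) * 2 ^ (k + 1)) ≤ J → GenOK J κ C C2 →
    ∀ (R M : ℕ) (θ : ℝ), 1 ≤ M → 0 < θ → ∃ w0 : ℕ, ∀ w : ℕ, w0 ≤ w → ∃ X0 : ℝ, ∀ X : ℕ, X0 ≤ X →
    ∀ b0 : ℕ, Rs M w b0 → ∀ (N : ℕ) [NeZero N], Scl (C2 + 2) X N → ∀ ex : ℕ → ℕ,
    (∀ j : ℕ, j < k → Mu R (ex j)) → (∀ l l' : ℕ, l < k → l' < k → l ≠ l' → ex l ≠ ex l') →
    ∀ S : Finset (Fin (k + 1) × (Fin (k + 1) → Bool)), (∀ p ∈ S, p.2 p.1 = false) →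
      eb X (fun b => (av (fun x : Fin (k + 1) × Bool → ZMod N => ∏ p ∈ S,
        gW k (fun e (y : ZMod N) => nub M w κ b0 X b e y) (fun _ => 1) ex p.1 (pk p.2 x)) -
          1) ^ 2) ≤ θ

/-- **Sec**. Uses: S_Avg. As SS/Sec with the masses m e. -/
def S_Sec : Prop :=
  ∀ (J : ℕ) (κ C C2 : ℝ), 2 ≤ J → GenOK J κ C C2 → ∀ R M : ℕ, 1 ≤ M → ∃ w0 : ℕ, ∀ w : ℕ, w0 ≤ w →
    ∃ X0 : ℝ, ∀ X : ℕ, X0 ≤ X → ∀ b0 : ℕ, Rs M w b0 → ∀ (N : ℕ) [NeZero N], Scl (C2 + 2) X N →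
    ∀ (S : Finset ℕ) (m : ℕ → ℝ), (∀ e ∈ S, Mu R e) → (∀ e, 0 ≤ m e) → ∑ e ∈ S, m e = 1 →
      eb X (fun b => (∑ e ∈ S, m e * av (fun x : ZMod N => nub M w κ b0 X b e x)) ^ 2) ≤ 2

/-- **Maj**. Uses: nothing. As SS/Maj. -/
def S_Maj : Prop :=
  ∀ (M w b0 X b N : ℕ) [NeZero N] (κ : ℝ), 0 < κ → 1 ≤ X → ∀ (e : ℕ) (y : ZMod N),
      0 ≤ fb M w κ b0 X b e y ∧ fb M w κ b0 X b e y ≤ nub M w κ b0 X b e y

/-- **Cnt**. Uses: nothing. As SS/Cnt. -/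
def S_Cnt : Prop :=
  ∀ (M w b0 X N e : ℕ) [NeZero N] (A : Finset ℕ), Rs M w b0 → 1 ≤ e → 32 * e ≤ N →
    (N : ℝ) / (8 * e) * ((A.filter (fun n => n % Wq M w = b0 ∧ Wq M w * (2 * N) < n ∧
      n ≤ Wq M w * e * X)).card : ℝ) ≤
    ∑ b ∈ Icc 1 X, ((univ.filter (fun y : ZMod N => N ≤ 4 * y.val ∧ 2 * y.val < N ∧
      nl (fo M w b0 e y) b ∈ A)).card : ℝ)

/-- **Den**. Uses: S_Cnt, ApStmt. Proof. ApStmt for (w, m = M, e X): at least (1/4)(W/φ(W)) e X/log(e X) of the b ≤ e X have Q b + 1 prime; log(e X) ≤ 2 log X. At most X^κ + 2N + 1 of these primes are ≤ X^κ or ≤ 2 Q N (b ≤ 2N); N^2 ≤ X. So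
at least (1/16)(W/φ(W)) e X/log X primes ≡ 1 mod Q, > X^κ, in (2 Q N, Q e X + 1]; remove the one with b = e X (n ≤ Q e X). Cnt: the sum over b of the number of y is ≥ N X (W/φ(W))/(128 log X) and eb av fb ≥ (φ(W)/W) κ log X (3/4)(W/φ(W))/(128 log X) = 3κ/512 ≥ κ/200. -/
def S_Den : Prop :=
  ∀ (R M w : ℕ) (κ : ℝ), 0 < κ → κ < 1 → 1 ≤ M → M ≤ w → 2 ≤ w → ∃ X0 : ℝ, ∀ X : ℕ, X0 ≤ X →
    ∀ (N : ℕ) [NeZero N], 32 * R ≤ N → N ^ 2 ≤ X → ∀ e : ℕ, Mu R e →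
      κ / 200 ≤ eb X (fun b => av (fun x : ZMod N => fb M w κ 1 X b e x))

/-- **Pts**. Uses: nothing. As SS/Pts. -/
def S_Pts : Prop :=
  ∀ (R N k : ℕ) [NeZero N] (ex : ℕ → ℕ) (a h : ZMod N), 1 ≤ k → (∀ j : ℕ, j < k → ex j < R) →
    a.val * (8 * R) < N → (∀ j : ℕ, j < k → N ≤ 4 * ((ex j : ZMod N) * a + h).val ∧
      2 * ((ex j : ZMod N) * a + h).val < N) →
    ∃ h' : ℕ, h' < N ∧ ∀ j : ℕ, j < k →
      ((ex j : ZMod N) * a + h).val = ex j * a.val + h'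

/-- the property of n -/
def Gd (k : ℕ) (PP : Finset (ℕ → ℕ)) (M : ℕ) (H : ℝ) (n : ℕ) : Prop :=
  M ∣ n ∧ ∃ ex ∈ PP, ∃ h : ℕ, 1 ≤ h ∧ (h : ℝ) ≤ H ∧ h ≡ 1 [MOD M] ∧
    ∀ j : ℕ, j < k → (ex j * n + h).Prime

open Classical in
/-- **Bas** (main step). Uses: RcStmt, S_Gen, S_Lf1, S_Lf2, S_Sec, S_Maj, S_Den, S_Pts, GP.Asm.SelStmt. -/
def S_Bas : Prop :=
  ∀ k : ℕ, 3 ≤ k → ∃ C δ : ℝ, 0 < C ∧ 0 < δ ∧ ∀ (S : Finset ℕ) (m : ℕ → ℝ)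
    (PP : Finset (ℕ → ℕ)), Sys k δ S m PP → ∀ M : ℕ, 1 ≤ M →
    ∃ c : ℝ, 0 < c ∧ ∃ X0 : ℕ, ∀ X : ℕ, X0 ≤ X →
      c * X ≤ (((Icc 1 X).filter (fun n => Gd k PP M ((Real.log X) ^ C) n)).card : ℝ)

end Pool.Agent.Lib.MP_fb5b0b_nt.FB
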