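import Pool.Agent.Lib.MP_fb5b0b_nt.FB.Defs
import Pool.Agent.Lib.MP_9f2731_nt.SS.SpecB

/-!
MP_fb5b0b_nt, FB, module Fin: the theorem for families of multiplier sets, the bound in terms of n, one member for
all M, the families of the products of tuples and of the arithmetic progressions.
-/

set_option autoImplicit false

namespace Pool.Agent.Lib.MP_fb5b0b_nt.FB

open Finset

/-- the property of n with the bound H for h -/
def Ph (H : ℝ) (𝓔 : Finset (Finset ℕ)) (M n : ℕ) : Prop :=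
  M ∣ n ∧ ∃ E ∈ 𝓔, ∃ h : ℕ, 1 ≤ h ∧ (h : ℝ) ≤ H ∧ h ≡ 1 [MOD M] ∧ ∀ e ∈ E, (e * n + h).Prime

/-- the property of n -/
def Pn (C : ℝ) (𝓔 : Finset (Finset ℕ)) (M n : ℕ) : Prop :=
  M ∣ n ∧ ∃ E ∈ 𝓔, ∃ h : ℕ, 1 ≤ h ∧ (h : ℝ) ≤ Real.log n ^ C ∧ h ≡ 1 [MOD M] ∧
    ∀ e ∈ E, (e * n + h).Prime

open Classical in
/-- lower density -/
def Low (C : ℝ) (𝓔 : Finset (Finset ℕ)) (M : ℕ) : Prop :=
  ∃ c : ℝ, 0 < c ∧ ∃ X₀ : ℕ, ∀ X : ℕ, X₀ ≤ X →
    c * X ≤ (((Icc 1 X).filter (fun n => Pn C 𝓔 M n)).card : ℝ)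

open Classical in
/-- upper density -/
def Upp (C : ℝ) (𝓔 : Finset (Finset ℕ)) (M : ℕ) : Prop :=
  ∃ c : ℝ, 0 < c ∧ ∀ X₀ : ℕ, ∃ X : ℕ, X₀ ≤ X ∧
    c * X ≤ (((Icc 1 X).filter (fun n => Pn C 𝓔 M n)).card : ℝ)

/-- lower density for all M, and one member with positive upper density for all M -/
def Good (C : ℝ) (𝓔 : Finset (Finset ℕ)) : Prop :=
  (∀ M : ℕ, 1 ≤ M → Low C 𝓔 M) ∧ ∃ E ∈ 𝓔, ∀ M : ℕ, 1 ≤ M → Upp C {E} M

theorem Pn_mono {C : ℝ} {𝓔 𝓔' : Finset (Finset ℕ)} (h : 𝓔 ⊆ 𝓔') {M M' n : ℕ} (hM : M' ∣ M)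
    (hP : Pn C 𝓔 M n) : Pn C 𝓔' M' n := by
  obtain ⟨h1, E, hE, a, h2, h3, h4, h5⟩ := hP
  exact ⟨hM.trans h1, E, h hE, a, h2, h3, h4.of_dvd hM, h5⟩

theorem Good_mono {C : ℝ} {𝓔 𝓔' : Finset (Finset ℕ)} (h : 𝓔 ⊆ 𝓔') (hG : Good C 𝓔) :
    Good C 𝓔' := by
  classical
  refine ⟨fun M hM => ?_, ?_⟩
  · obtain ⟨c, hc, X0, hX⟩ := hG.1 M hM
    refine ⟨c, hc, X0, fun X hXX => (hX X hXX).trans ?_⟩
    have h1 : (Icc 1 X).filter (fun n => Pn C 𝓔 M n) ⊆ (Icc 1 X).filter (fun n => Pn C 𝓔' M n) := by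
      intro n hn
      rw [mem_filter] at hn ⊢
      exact ⟨hn.1, Pn_mono h dvd_rfl hn.2⟩
    exact_mod_cast card_le_card h1
  · obtain ⟨E, hE, h1⟩ := hG.2
    exact ⟨E, h hE, h1⟩

open Classical in
/-- one member for all M -/
theorem Fin_one (C : ℝ) (𝓔 : Finset (Finset ℕ)) (h : ∀ M : ℕ, 1 ≤ M → Low C 𝓔 M) :
    ∃ E ∈ 𝓔, ∀ M : ℕ, 1 ≤ M → Upp C {E} M := by
  by_contra hcon
  push Not at hcon
  have h1 : ∀ E : Finset ℕ, ∃ M : ℕ, 1 ≤ M ∧ (E ∈ 𝓔 → ∀ c : ℝ, 0 < c → ∃ X₀ : ℕ, ∀ X : ℕ,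
      X₀ ≤ X → (((Icc 1 X).filter (fun n => Pn C {E} M n)).card : ℝ) < c * X) := by
    intro E
    by_cases hE : E ∈ 𝓔
    · obtain ⟨M, hM, h2⟩ := hcon E hE
      unfold Upp at h2
      push Not at h2
      exact ⟨M, hM, fun _ => h2⟩
    · exact ⟨1, le_rfl, fun a => absurd a hE⟩
  choose Md hMd hlt using h1
  obtain ⟨M, hM⟩ : ∃ M : ℕ, M = ∏ E ∈ 𝓔, Md E := ⟨_, rfl⟩
  have hM1 : 1 ≤ M := by
    rw [hM]
    exact Nat.one_le_iff_ne_zero.2 (Finset.prod_ne_zero_iff.2 fun E _ => by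
      have := hMd E
      omega)
  obtain ⟨c, hc, X0, hX0⟩ := h M hM1
  have hc' : 0 < c / (𝓔.card + 1) := by positivity
  have h2 : ∀ E : Finset ℕ, ∃ X₀ : ℕ, ∀ X : ℕ, X₀ ≤ X → E ∈ 𝓔 →
      (((Icc 1 X).filter (fun n => Pn C {E} (Md E) n)).card : ℝ) < c / (𝓔.card + 1) * X := by
    intro E
    by_cases hE : E ∈ 𝓔
    · obtain ⟨X₀, h3⟩ := hlt E hE _ hc'
      exact ⟨X₀, fun X hX _ => h3 X hX⟩
    · exact ⟨0, fun X _ a => absurd a hE⟩
  choose Xd hXd using h2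
  obtain ⟨X, hX⟩ : ∃ X : ℕ, X = X0 + 1 + ∑ E ∈ 𝓔, Xd E := ⟨_, rfl⟩
  have hXX0 : X0 ≤ X := by omega
  have hXd' : ∀ E ∈ 𝓔, Xd E ≤ X := by
    intro E hE
    have h3 := Finset.single_le_sum (f := Xd) (fun i _ => Nat.zero_le _) hE
    omega
  have hX1 : (0 : ℝ) < X := by
    have : 1 ≤ X := by omega
    exact_mod_cast this
  have h3 := hX0 X hXX0
  have h4 : (Icc 1 X).filter (fun n => Pn C 𝓔 M n) ⊆
      𝓔.biUnion (fun E => (Icc 1 X).filter (fun n => Pn C {E} (Md E) n)) := by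
    intro n hn
    rw [mem_filter] at hn
    obtain ⟨hn1, hP⟩ := hn
    obtain ⟨g1, E, hE, a, g2, g3, g4, g5⟩ := id hP
    refine mem_biUnion.2 ⟨E, hE, mem_filter.2 ⟨hn1, ?_⟩⟩
    have hd : Md E ∣ M := by
      rw [hM]
      exact Finset.dvd_prod_of_mem Md hE
    exact ⟨hd.trans g1, E, mem_singleton_self E, a, g2, g3, g4.of_dvd hd, g5⟩
  have h5 : (((Icc 1 X).filter (fun n => Pn C 𝓔 M n)).card : ℝ) ≤
      ∑ E ∈ 𝓔, (((Icc 1 X).filter (fun n => Pn C {E} (Md E) n)).card : ℝ) := by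
    exact_mod_cast (card_le_card h4).trans card_biUnion_le
  have h6 : ∑ E ∈ 𝓔, (((Icc 1 X).filter (fun n => Pn C {E} (Md E) n)).card : ℝ) ≤
      ∑ _E ∈ 𝓔, c / (𝓔.card + 1) * X :=
    sum_le_sum fun E hE => (hXd E X (hXd' E hE) hE).le
  rw [sum_const, nsmul_eq_mul] at h6
  have h7 : (𝓔.card : ℝ) * (c / (𝓔.card + 1) * X) < c * X := by
    have h8 : (𝓔.card : ℝ) * (c / (𝓔.card + 1) * X) = c * X * (𝓔.card / (𝓔.card + 1)) := by ring
    rw [h8]
    have h9 : (𝓔.card : ℝ) / (𝓔.card + 1) < 1 := by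
      rw [div_lt_one (by positivity)]
      linarith
    have h10 : 0 < c * X := by positivity
    nlinarith
  linarith

/-- comparison of the logarithms -/
private theorem Fin_log (C : ℝ) (hC : 0 < C) : ∃ X1 : ℕ, ∀ X : ℕ, X1 ≤ X → ∀ n : ℕ,
    (X : ℝ) ^ (1 / 2 : ℝ) ≤ n → Real.log X ^ C ≤ Real.log n ^ (C + 1) := by
  have t1 := (Real.tendsto_log_atTop.comp (tendsto_natCast_atTop_atTop (R := ℝ))).eventually
    (Filter.eventually_ge_atTop (2 * max 1 ((2 : ℝ) ^ C)))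
  rw [Filter.eventually_atTop] at t1
  obtain ⟨X1, hX1⟩ := t1
  refine ⟨max X1 1, fun X hX n hn => ?_⟩
  have h1 := hX1 X ((le_max_left _ _).trans hX)
  simp only [Function.comp_apply] at h1
  have hXp : (0 : ℝ) < X := by
    have : 1 ≤ X := (le_max_right _ _).trans hX
    exact_mod_cast this
  have h2 : Real.log X / 2 ≤ Real.log n := by
    have h3 := Real.log_le_log (Real.rpow_pos_of_pos hXp _) hn
    rw [Real.log_rpow hXp] at h3
    linarith
  have h4 : max 1 ((2 : ℝ) ^ C) ≤ Real.log n := by linarith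
  have h5 : 1 ≤ Real.log n := (le_max_left _ _).trans h4
  have h6 : (2 : ℝ) ^ C ≤ Real.log n := (le_max_right _ _).trans h4
  have h7 : 0 ≤ Real.log X := by
    have h8 : (1 : ℝ) ≤ max 1 ((2 : ℝ) ^ C) := le_max_left _ _
    linarith
  have hn0 : 0 < Real.log n := by linarith
  calc Real.log X ^ C ≤ (2 * Real.log n) ^ C := Real.rpow_le_rpow h7 (by linarith) hC.le
    _ = 2 ^ C * Real.log n ^ C := Real.mul_rpow (by norm_num) hn0.le
    _ ≤ Real.log n * Real.log n ^ C :=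
        mul_le_mul_of_nonneg_right h6 (Real.rpow_nonneg hn0.le _)
    _ = Real.log n ^ (C + 1) := by
        rw [Real.rpow_add hn0, Real.rpow_one, mul_comm]

open Classical in
/-- scaling of n -/
private theorem Fin_scale {k : ℕ} {PP : Finset (ℕ → ℕ)} {𝓔 : Finset (Finset ℕ)}
    (hx : ∀ ex ∈ PP, ∃ x : ℕ, 1 ≤ x ∧ ∃ E ∈ 𝓔, ∀ e ∈ E, ∃ j, j < k ∧ ex j = x * e) {C : ℝ}
    (hC : 0 < C) (M : ℕ) (h : ∃ c : ℝ, 0 < c ∧ ∃ X0 : ℕ, ∀ X : ℕ, X0 ≤ X →
      c * X ≤ (((Icc 1 X).filter (fun n => Gd k PP M ((Real.log X) ^ C) n)).card : ℝ)) :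
    ∃ c : ℝ, 0 < c ∧ ∃ X0 : ℕ, ∀ X : ℕ, X0 ≤ X →
      c * X ≤ (((Icc 1 X).filter (fun n => Ph ((Real.log X) ^ C) 𝓔 M n)).card : ℝ) := by
  obtain ⟨c, hc, X0, hX0⟩ := h
  have hx' : ∀ ex : ℕ → ℕ, ∃ x : ℕ, ex ∈ PP → (1 ≤ x ∧ ∃ E ∈ 𝓔, ∀ e ∈ E, ∃ j, j < k ∧
      ex j = x * e) := by
    intro ex
    by_cases hex : ex ∈ PP
    · obtain ⟨x, h1⟩ := hx ex hex
      exact ⟨x, fun _ => h1⟩
    · exact ⟨0, fun h => absurd h hex⟩
  choose x hx' using hx'
  obtain ⟨R, hR⟩ : ∃ R : ℕ, R = PP.sup x + 1 := ⟨_, rfl⟩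
  have hR1 : 1 ≤ R := by omega
  have hR0 : (0 : ℝ) < R := by exact_mod_cast hR1
  have hxR : ∀ ex ∈ PP, x ex ≤ R := by
    intro ex hex
    have := Finset.le_sup (f := x) hex
    omega
  refine ⟨c / (2 * R ^ 2), by positivity, R * (X0 + 1), fun Y hY => ?_⟩
  obtain ⟨X, hX⟩ : ∃ X : ℕ, X = Y / R := ⟨_, rfl⟩
  have hX1 : X0 + 1 ≤ X := by
    rw [hX, Nat.le_div_iff_mul_le (by omega), mul_comm]
    exact hY
  have hXY : R * X ≤ Y := by
    rw [hX]
    exact Nat.mul_div_le Y R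
  have hYX : Y ≤ 2 * R * X := by
    have h1 : Y < R * (X + 1) := by
      rw [hX]
      exact Nat.lt_mul_div_succ Y (by omega)
    have h2 : R * (X + 1) ≤ R * (2 * X) := Nat.mul_le_mul_left _ (by omega)
    have h3 : R * (2 * X) = 2 * R * X := by ring
    omega
  have hXp : (0 : ℝ) < X := by
    have : 1 ≤ X := by omega
    exact_mod_cast this
  have hXY' : X ≤ Y := (Nat.le_mul_of_pos_left X hR1).trans hXY
  have hlog : Real.log X ^ C ≤ Real.log Y ^ C :=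
    Real.rpow_le_rpow (Real.log_natCast_nonneg X)
      (Real.log_le_log hXp (by exact_mod_cast hXY')) hC.le
  obtain ⟨T, hT⟩ : ∃ T : Finset ℕ, T = (Icc 1 Y).filter (fun n => Ph ((Real.log Y) ^ C) 𝓔 M n) :=
    ⟨_, rfl⟩
  rw [← hT]
  have h1 : (Icc 1 X).filter (fun n => Gd k PP M ((Real.log X) ^ C) n) ⊆
      (Icc 1 R).biUnion (fun y => (Icc 1 X).filter (fun n => y * n ∈ T)) := by
    intro n hn
    rw [mem_filter] at hn
    obtain ⟨hn1, hnM, ex, hex, a, ha1, haX, haM, hpr⟩ := hn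
    obtain ⟨y1, E, hE, hy⟩ := hx' ex hex
    have hn2 := mem_Icc.1 hn1
    refine mem_biUnion.2 ⟨x ex, mem_Icc.2 ⟨y1, hxR ex hex⟩, mem_filter.2 ⟨hn1, ?_⟩⟩
    rw [hT, mem_filter, mem_Icc]
    refine ⟨⟨Nat.mul_pos y1 hn2.1, (Nat.mul_le_mul (hxR ex hex) hn2.2).trans hXY⟩,
      hnM.mul_left _, E, hE, a, ha1, haX.trans hlog, haM, fun e he => ?_⟩
    obtain ⟨j, hj, hj2⟩ := hy e he
    have h2 : e * (x ex * n) + a = ex j * n + a := by
      rw [hj2]
      ring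
    rw [h2]
    exact hpr j hj
  have h2 : ((Icc 1 X).filter (fun n => Gd k PP M ((Real.log X) ^ C) n)).card ≤ R * T.card := by
    refine (card_le_card h1).trans (card_biUnion_le.trans ?_)
    have h3 : ∀ y ∈ Icc 1 R, ((Icc 1 X).filter (fun n => y * n ∈ T)).card ≤ T.card := by
      intro y hy
      refine Finset.card_le_card_of_injOn (fun n => y * n) ?_ ?_
      · intro n hn
        rw [Finset.mem_coe, mem_filter] at hn
        exact hn.2
      · intro n _ n' _ hnn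
        have hnn' : y * n = y * n' := hnn
        exact Nat.eq_of_mul_eq_mul_left (mem_Icc.1 hy).1 hnn'
    calc _ ≤ ∑ _y ∈ Icc 1 R, T.card := sum_le_sum h3
      _ = R * T.card := by rw [sum_const, Nat.card_Icc, Nat.add_sub_cancel, smul_eq_mul]
  have h3 := hX0 X (by omega)
  have h4 : c * X ≤ R * (T.card : ℝ) := h3.trans (by exact_mod_cast h2)
  have h5 : (Y : ℝ) ≤ 2 * R * X := by exact_mod_cast hYX
  calc c / (2 * R ^ 2) * Y ≤ c / (2 * R ^ 2) * (2 * R * X) :=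
        mul_le_mul_of_nonneg_left h5 (by positivity)
    _ = c * X / R := by
        field_simp
    _ ≤ R * (T.card : ℝ) / R := div_le_div_of_nonneg_right h4 hR0.le
    _ = T.card := by field_simp

open Classical in
/-- the bound in terms of n -/
private theorem Fin_low {𝓔 : Finset (Finset ℕ)} {C : ℝ} (hC : 0 < C) (M : ℕ)
    (h : ∃ c : ℝ, 0 < c ∧ ∃ X0 : ℕ, ∀ X : ℕ, X0 ≤ X →
      c * X ≤ (((Icc 1 X).filter (fun n => Ph ((Real.log X) ^ C) 𝓔 M n)).card : ℝ)) :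
    Low (C + 1) 𝓔 M := by
  obtain ⟨c, hc, X0, hX0⟩ := h
  obtain ⟨X1, hX1⟩ := Fin_log C hC
  -- square roots are small
  obtain ⟨X2, hX2⟩ : ∃ X2 : ℕ, ∀ X : ℕ, X2 ≤ X → (X : ℝ) ^ (1 / 2 : ℝ) ≤ c / 2 * X := by
    have t1 := ((tendsto_rpow_atTop (show (0 : ℝ) < 1 / 2 by norm_num)).comp
      (tendsto_natCast_atTop_atTop (R := ℝ))).eventually (Filter.eventually_ge_atTop (2 / c))
    rw [Filter.eventually_atTop] at t1
    obtain ⟨X2, hX2⟩ := t1
    refine ⟨max X2 1, fun X hX => ?_⟩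
    have h1 := hX2 X ((le_max_left _ _).trans hX)
    simp only [Function.comp_apply] at h1
    have hXp : (0 : ℝ) < X := by
      have : 1 ≤ X := (le_max_right _ _).trans hX
      exact_mod_cast this
    have h2 : (X : ℝ) ^ (1 / 2 : ℝ) * (X : ℝ) ^ (1 / 2 : ℝ) = X := by
      rw [← Real.rpow_add hXp]
      norm_num
    have h3 : 0 ≤ (X : ℝ) ^ (1 / 2 : ℝ) := Real.rpow_nonneg hXp.le _
    rw [div_le_iff₀ hc] at h1
    nlinarith
  refine ⟨c / 2, by positivity, max X0 (max X1 X2), fun X hX => ?_⟩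
  have hXa : X0 ≤ X := (le_max_left _ _).trans hX
  have hXb : X1 ≤ X := ((le_max_left _ _).trans (le_max_right _ _)).trans hX
  have hXc : X2 ≤ X := ((le_max_right _ _).trans (le_max_right _ _)).trans hX
  have h1 := hX0 X hXa
  have h2 := hX2 X hXc
  have hsub : (Icc 1 X).filter (fun n => Ph ((Real.log X) ^ C) 𝓔 M n) ⊆
      (Icc 1 X).filter (fun n => Pn (C + 1) 𝓔 M n) ∪ Icc 1 ⌊(X : ℝ) ^ (1 / 2 : ℝ)⌋₊ := by
    intro n hn
    rw [mem_filter] at hn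
    obtain ⟨hn1, hnM, E, hE, h, hh1, hhX, hhM, hpr⟩ := hn
    rw [mem_union]
    by_cases hc' : (X : ℝ) ^ (1 / 2 : ℝ) ≤ n
    · exact Or.inl (mem_filter.2 ⟨hn1, hnM, E, hE, h, hh1,
        hhX.trans (hX1 X hXb n hc'), hhM, hpr⟩)
    · exact Or.inr (mem_Icc.2 ⟨(mem_Icc.1 hn1).1, Nat.le_floor (not_le.1 hc').le⟩)
  have h3 := (card_le_card hsub).trans (card_union_le _ _)
  rw [Nat.card_Icc, Nat.add_sub_cancel] at h3
  have h4 : (((Icc 1 X).filter (fun n => Ph ((Real.log X) ^ C) 𝓔 M n)).card : ℝ) ≤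
      (((Icc 1 X).filter (fun n => Pn (C + 1) 𝓔 M n)).card : ℝ) +
        (⌊(X : ℝ) ^ (1 / 2 : ℝ)⌋₊ : ℝ) := by exact_mod_cast h3
  have h5 : (⌊(X : ℝ) ^ (1 / 2 : ℝ)⌋₊ : ℝ) ≤ (X : ℝ) ^ (1 / 2 : ℝ) :=
    Nat.floor_le (Real.rpow_nonneg (Nat.cast_nonneg X) _)
  linarith

/-- the enumeration of a finite set -/
private theorem Fin_enum2 (k : ℕ) (E : Finset ℕ) (hE : E.card = k) :
    ∃ f : ℕ → ℕ, (∀ j, j < k → f j ∈ E) ∧ (∀ i j, i < k → j < k → i ≠ j → f i ≠ f j) ∧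
      ∀ a ∈ E, ∃ j, j < k ∧ f j = a := by
  classical
  refine ⟨fun j => if h : j < k then E.orderEmbOfFin hE ⟨j, h⟩ else 0, ?_, ?_, ?_⟩
  · intro j hj
    simp only [dif_pos hj]
    exact Finset.orderEmbOfFin_mem E hE _
  · intro i j hi hj hij h
    simp only [dif_pos hi, dif_pos hj] at h
    have h2 := (E.orderEmbOfFin hE).injective h
    exact hij (by simpa using congrArg Fin.val h2)
  · intro a ha
    have h2 : a ∈ Set.range (E.orderEmbOfFin hE) := by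
      rw [Finset.range_orderEmbOfFin]
      exact ha
    obtain ⟨⟨j, hj⟩, hj2⟩ := h2
    refine ⟨j, hj, ?_⟩
    simp only [dif_pos hj]
    exact hj2

/-- a family covered by a system is good -/
private theorem Fin_sys {k : ℕ} {C δ : ℝ} (hC : 0 < C)
    (hB : ∀ (S : Finset ℕ) (m : ℕ → ℝ) (PP : Finset (ℕ → ℕ)), Sys k δ S m PP → ∀ M : ℕ, 1 ≤ M →
      open Classical in ∃ c : ℝ, 0 < c ∧ ∃ X0 : ℕ, ∀ X : ℕ, X0 ≤ X →
        c * X ≤ (((Icc 1 X).filter (fun n => Gd k PP M ((Real.log X) ^ C) n)).card : ℝ))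
    {S : Finset ℕ} {m : ℕ → ℝ} {PP : Finset (ℕ → ℕ)} (hS : Sys k δ S m PP)
    {𝓔 : Finset (Finset ℕ)}
    (hx : ∀ ex ∈ PP, ∃ x : ℕ, 1 ≤ x ∧ ∃ E ∈ 𝓔, ∀ e ∈ E, ∃ j, j < k ∧ ex j = x * e) :
    Good (C + 1) 𝓔 := by
  have h1 : ∀ M : ℕ, 1 ≤ M → Low (C + 1) 𝓔 M := fun M hM =>
    Fin_low hC M (Fin_scale hx hC M (hB S m PP hS M hM))
  exact ⟨h1, Fin_one _ _ h1⟩

/-- the sets `{∏_(t∈T) f_t(j) : j < k}`, T nonempty -/
def Fam {r : ℕ} (k : ℕ) (f : Fin r → ℕ → ℕ) : Finset (Finset ℕ) :=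
  ((univ : Finset (Finset (Fin r))).filter (fun T => T.Nonempty)).image fun T =>
    (range k).image fun j => ∏ t ∈ T, f t j

/-- THEOREM FB -/
theorem pFin (hB : S_Bas) (hZ : S_Szm) (hZ2 : Pool.Agent.Lib.MP_9f2731_nt.SS.S_Szm) (k : ℕ)
    (hk : 3 ≤ k) : ∃ (C δ : ℝ) (D r : ℕ), 0 < δ ∧
      (∀ (S : Finset ℕ) (m : ℕ → ℝ) (𝓔 : Finset (Finset ℕ)), (∀ e ∈ S, 1 ≤ e ∧ 0 ≤ m e) →
        ∑ e ∈ S, m e = 1 → (∀ E ∈ 𝓔, E.card = k) →
        (∀ A : Finset ℕ, A ⊆ S → δ ≤ ∑ e ∈ A, m e → ∃ E ∈ 𝓔, E ⊆ A) → Good C 𝓔) ∧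
      (∀ f : Fin r → ℕ → ℕ, (∀ t j, j < k → 1 ≤ f t j) → (∀ t i j, i < j → j < k → f t i < f t j) →
        Good C (Fam k f)) ∧
      Good C ((Icc 1 D ×ˢ Icc 1 D).image fun p => (range k).image fun j => p.1 + j * p.2) := by
  classical
  obtain ⟨C, δ, hC, hδ, hB⟩ := hB k hk
  obtain ⟨r, hr⟩ := hZ k δ (by omega) hδ
  obtain ⟨D2, hD2, hD2'⟩ := hZ2 k δ (by omega) hδ
  refine ⟨C + 1, δ, D2, r, hδ, ?_, ?_, ?_⟩
  · intro S m 𝓔 hS hm1 hE hA
    have hen : ∀ E : Finset ℕ, ∃ f : ℕ → ℕ, E ∈ 𝓔 → (∀ j, j < k → f j ∈ E) ∧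
        (∀ i j, i < k → j < k → i ≠ j → f i ≠ f j) ∧ ∀ a ∈ E, ∃ j, j < k ∧ f j = a := by
      intro E
      by_cases h : E ∈ 𝓔
      · obtain ⟨f, hf⟩ := Fin_enum2 k E (hE E h)
        exact ⟨f, fun _ => hf⟩
      · exact ⟨fun _ => 0, fun h' => absurd h' h⟩
    choose en hen using hen
    have hsys : Sys k δ S (fun e => if e ∈ S then m e else 0)
        ((𝓔.filter (fun E => E ⊆ S)).image en) := by
      refine ⟨fun e he => (hS e he).1, fun e => ?_, ?_, ?_, ?_⟩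
      · show 0 ≤ if e ∈ S then m e else 0
        split_ifs with h
        · exact (hS e h).2
        · exact le_rfl
      · rw [← hm1]
        exact Finset.sum_congr rfl fun e he => if_pos he
      · intro ex hex
        rw [mem_image] at hex
        obtain ⟨E, hE1, rfl⟩ := hex
        rw [mem_filter] at hE1
        obtain ⟨h1, h2, -⟩ := hen E hE1.1
        exact ⟨fun j hj => hE1.2 (h1 j hj), h2⟩
      · intro A hAS hAm
        have h1 : ∑ e ∈ A, (if e ∈ S then m e else 0) = ∑ e ∈ A, m e :=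
          Finset.sum_congr rfl fun e he => if_pos (hAS he)
        rw [h1] at hAm
        obtain ⟨E, hE1, hEA⟩ := hA A hAS hAm
        exact ⟨en E, mem_image_of_mem en (mem_filter.2 ⟨hE1, hEA.trans hAS⟩),
          fun j hj => hEA ((hen E hE1).1 j hj)⟩
    refine Fin_sys hC hB hsys fun ex hex => ?_
    rw [mem_image] at hex
    obtain ⟨E, hE1, rfl⟩ := hex
    rw [mem_filter] at hE1
    refine ⟨1, le_rfl, E, hE1.1, fun e he => ?_⟩
    obtain ⟨j, hj, hj2⟩ := (hen E hE1.1).2.2 e he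
    exact ⟨j, hj, by rw [hj2, one_mul]⟩
  · intro f hf hfi
    obtain ⟨S, m, PP, hsys, hPP⟩ := hr f hf hfi
    refine Fin_sys hC hB hsys fun ex hex => ?_
    obtain ⟨x, T, hx1, hT, rfl⟩ := hPP ex hex
    refine ⟨x, hx1, (range k).image (fun j => ∏ t ∈ T, f t j), mem_image.2 ⟨T, mem_filter.2
      ⟨mem_univ _, hT⟩, rfl⟩, fun e he => ?_⟩
    rw [mem_image] at he
    obtain ⟨j, hj, rfl⟩ := he
    exact ⟨j, mem_range.1 hj, rfl⟩
  · have hD20 : (0 : ℝ) < D2 := by exact_mod_cast hD2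
    have hsys : Sys k δ (Icc 1 D2) (fun _ => 1 / (D2 : ℝ))
        (((Icc 1 D2 ×ˢ Icc 1 D2).filter (fun p => ∀ j, j < k → p.1 + j * p.2 ∈ Icc 1 D2)).image
          (fun p j => p.1 + j * p.2)) := by
      refine ⟨fun e he => (mem_Icc.1 he).1, fun e => by positivity, ?_, ?_, ?_⟩
      · rw [sum_const, Nat.card_Icc, Nat.add_sub_cancel, nsmul_eq_mul]
        field_simp
      · intro ex hex
        rw [mem_image] at hex
        obtain ⟨⟨a, r⟩, h1, rfl⟩ := hex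
        rw [mem_filter, mem_product, mem_Icc, mem_Icc] at h1
        refine ⟨h1.2, fun i j _ _ hij h => hij ?_⟩
        have h2 : a + i * r = a + j * r := h
        have h3 : i * r = j * r := Nat.add_left_cancel h2
        exact Nat.eq_of_mul_eq_mul_right (show 0 < r from h1.1.2.1) h3
      · intro A hA hm
        have hm' : δ * D2 ≤ (A.card : ℝ) := by
          rw [sum_const, nsmul_eq_mul, mul_one_div, le_div_iff₀ hD20] at hm
          exact hm
        obtain ⟨e0, d, hd, hmem⟩ := hD2' (A.image (fun a => a - 1)) (by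
          intro b hb
          rw [mem_image] at hb
          obtain ⟨a, ha, rfl⟩ := hb
          have := mem_Icc.1 (hA ha)
          rw [mem_range]
          omega) (by
          rw [card_image_of_injOn]
          · exact hm'
          · intro a ha b hb hab
            have h1 := mem_Icc.1 (hA ha)
            have h2 := mem_Icc.1 (hA hb)
            have h3 : a - 1 = b - 1 := hab
            omega)
        have hmem2 : ∀ j, j < k → (e0 + 1) + j * d ∈ A := by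
          intro j hj
          have h1 := hmem j hj
          rw [mem_image] at h1
          obtain ⟨a, ha, ha2⟩ := h1
          have h2 := mem_Icc.1 (hA ha)
          have h3 : e0 + 1 + j * d = a := by omega
          rw [h3]
          exact ha
        refine ⟨fun j => (e0 + 1) + j * d, ?_, hmem2⟩
        rw [mem_image]
        refine ⟨(e0 + 1, d), ?_, rfl⟩
        rw [mem_filter, mem_product, mem_Icc, mem_Icc]
        have h0 := mem_Icc.1 (hA (hmem2 0 (by omega)))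
        have h1 := mem_Icc.1 (hA (hmem2 1 (by omega)))
        refine ⟨⟨⟨?_, ?_⟩, hd, ?_⟩, fun j hj => hA (hmem2 j hj)⟩
        · show 1 ≤ e0 + 1
          omega
        · show e0 + 1 ≤ D2
          omega
        · show d ≤ D2
          omega
    refine Fin_sys hC hB hsys fun ex hex => ?_
    rw [mem_image] at hex
    obtain ⟨⟨a, r⟩, h1, rfl⟩ := hex
    rw [mem_filter, mem_product, mem_Icc, mem_Icc] at h1
    refine ⟨1, le_rfl, (range k).image (fun j => a + j * r), mem_image.2 ⟨(a, r),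
      mem_product.2 ⟨mem_Icc.2 h1.1.1, mem_Icc.2 h1.1.2⟩, rfl⟩, fun e he => ?_⟩
    rw [mem_image] at he
    obtain ⟨j, hj, rfl⟩ := he
    exact ⟨j, mem_range.1 hj, by rw [one_mul]⟩

/-- THEOREM FB for the products of any tuples of positive integers -/
theorem pPrd (hB : S_Bas) (hZ : S_Szm) (hZ2 : Pool.Agent.Lib.MP_9f2731_nt.SS.S_Szm) (k : ℕ) :
    ∃ (C : ℝ) (r : ℕ), ∀ f : Fin r → Fin k → ℕ, (∀ t j, 1 ≤ f t j) → ∀ M : ℕ, 1 ≤ M →
      Low C (((univ : Finset (Finset (Fin r))).filter (fun T => T.Nonempty)).image fun T =>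
        univ.image fun j => ∏ t ∈ T, f t j) M := by
  classical
  obtain ⟨C, -, -, r0, -, -, hr0, -⟩ := pFin hB hZ hZ2 (max k 3) (le_max_right _ _)
  refine ⟨C, Fintype.card (Fin k → Fin k → Bool) * r0 + 1, fun f hf M hM => ?_⟩
  -- many tuples have the same order type
  obtain ⟨y, hy⟩ := Fintype.exists_lt_card_fiber_of_mul_lt_card
    (f := fun t : Fin (Fintype.card (Fin k → Fin k → Bool) * r0 + 1) =>
      fun i j : Fin k => decide (f t i < f t j)) (n := r0) (by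
        rw [Fintype.card_fin (Fintype.card (Fin k → Fin k → Bool) * r0 + 1)]
        exact Nat.lt_succ_self _)
  obtain ⟨Cl, hCl⟩ : ∃ Cl : Finset (Fin (Fintype.card (Fin k → Fin k → Bool) * r0 + 1)),
      Cl = univ.filter (fun t => (fun i j : Fin k => decide (f t i < f t j)) = y) := ⟨_, rfl⟩
  have hcard : r0 < Cl.card := by
    rw [hCl]
    exact hy
  have hty : ∀ t ∈ Cl, ∀ t' ∈ Cl, ∀ i j : Fin k, f t i < f t j → f t' i < f t' j := by
    intro t ht t' ht' i j h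
    rw [hCl, mem_filter] at ht ht'
    have h1 : decide (f t i < f t j) = decide (f t' i < f t' j) := by
      rw [congrFun (congrFun ht.2 i) j, congrFun (congrFun ht'.2 i) j]
    exact of_decide_eq_true (h1 ▸ decide_eq_true h)
  obtain ⟨t0, ht0⟩ : Cl.Nonempty := Finset.card_pos.1 (by omega)
  obtain ⟨Cs, hCs, hCsc⟩ := Finset.exists_subset_card_eq hcard.le
  obtain ⟨σ, hσ⟩ : ∃ σ : Fin r0 ↪ Fin (Fintype.card (Fin k → Fin k → Bool) * r0 + 1),
      ∀ s, σ s ∈ Cl :=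
    ⟨(Cs.orderEmbOfFin hCsc).toEmbedding, fun s => hCs (Finset.orderEmbOfFin_mem Cs hCsc s)⟩
  -- the values and their representatives
  obtain ⟨V, hV⟩ : ∃ V : Finset ℕ, V = univ.image (f t0) := ⟨_, rfl⟩
  have hVk : V.card ≤ k := by
    rw [hV]
    refine card_image_le.trans ?_
    rw [card_univ, Fintype.card_fin]
  have hVm : ∀ a ∈ V, ∃ j : Fin k, f t0 j = a := by
    intro a ha
    rw [hV, mem_image] at ha
    obtain ⟨j, -, hj⟩ := ha
    exact ⟨j, hj⟩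
  have hrep : ∀ i : Fin V.card, ∃ j : Fin k, f t0 j = V.orderEmbOfFin rfl i := fun i =>
    hVm _ (Finset.orderEmbOfFin_mem V rfl i)
  choose rep hrep using hrep
  obtain ⟨g, hg⟩ : ∃ g : Fin r0 → ℕ → ℕ, g = fun s i =>
      if h : i < V.card then f (σ s) (rep ⟨i, h⟩) else (∑ j, f (σ s) j) + i + 1 := ⟨_, rfl⟩
  have hg1 : ∀ s i, ∀ h : i < V.card, g s i = f (σ s) (rep ⟨i, h⟩) := by
    intro s i h
    rw [hg]
    exact dif_pos h
  have hg2 : ∀ s i, ¬ i < V.card → g s i = (∑ j, f (σ s) j) + i + 1 := by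
    intro s i h
    rw [hg]
    exact dif_neg h
  have hgpos : ∀ s j, j < max k 3 → 1 ≤ g s j := by
    intro s j _
    by_cases h : j < V.card
    · rw [hg1 s j h]
      exact hf _ _
    · rw [hg2 s j h]
      omega
  have hginc : ∀ s i j, i < j → j < max k 3 → g s i < g s j := by
    intro s i j hij _
    by_cases hj : j < V.card
    · rw [hg1 s j hj, hg1 s i (hij.trans hj)]
      refine hty t0 ht0 _ (hσ s) _ _ ?_
      rw [hrep, hrep]
      exact (V.orderEmbOfFin rfl).strictMono hij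
    · rw [hg2 s j hj]
      by_cases hi : i < V.card
      · rw [hg1 s i hi]
        have h1 := Finset.single_le_sum (f := fun j => f (σ s) j) (fun i _ => Nat.zero_le _)
          (mem_univ (rep ⟨i, hi⟩))
        omega
      · rw [hg2 s i hi]
        omega
  obtain ⟨c, hc, X0, hX⟩ := (hr0 g hgpos hginc).1 M hM
  refine ⟨c, hc, X0, fun X hXX => (hX X hXX).trans ?_⟩
  have h1 : (Icc 1 X).filter (fun n => Pn C (Fam (max k 3) g) M n) ⊆ (Icc 1 X).filter (fun n =>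
      Pn C (((univ : Finset (Finset (Fin (Fintype.card (Fin k → Fin k → Bool) * r0 + 1)))).filter
        (fun T => T.Nonempty)).image fun T => univ.image fun j => ∏ t ∈ T, f t j) M n) := by
    intro n hn
    rw [mem_filter] at hn ⊢
    obtain ⟨hn1, hnM, E, hE, a, h2, h3, h4, h5⟩ := hn
    refine ⟨hn1, hnM, ?_⟩
    unfold Fam at hE
    rw [mem_image] at hE
    obtain ⟨T, hT, rfl⟩ := hE
    rw [mem_filter] at hT
    refine ⟨univ.image fun j => ∏ t ∈ T.map σ, f t j, mem_image.2 ⟨T.map σ, mem_filter.2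
      ⟨mem_univ _, hT.2.map⟩, rfl⟩, a, h2, h3, h4, fun e he => h5 e ?_⟩
    rw [mem_image] at he ⊢
    obtain ⟨j, -, rfl⟩ := he
    have h6 : f t0 j ∈ Set.range (V.orderEmbOfFin rfl) := by
      rw [Finset.range_orderEmbOfFin, hV]
      exact Finset.mem_coe.2 (mem_image_of_mem _ (mem_univ j))
    obtain ⟨i, hi⟩ := h6
    have h7 : f t0 j = f t0 (rep i) := by rw [hrep, hi]
    have h8 : ∀ s, f (σ s) j = f (σ s) (rep i) := by
      intro s
      refine le_antisymm (not_lt.1 fun h => ?_) (not_lt.1 fun h => ?_)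
      · exact absurd (hty _ (hσ s) t0 ht0 _ _ h) (by omega)
      · exact absurd (hty _ (hσ s) t0 ht0 _ _ h) (by omega)
    refine ⟨i, mem_range.2 ((i.2.trans_le hVk).trans_le (le_max_left _ _)), ?_⟩
    rw [Finset.prod_map]
    refine Finset.prod_congr rfl fun s _ => ?_
    rw [hg1 s i i.2, h8 s]
  exact_mod_cast card_le_card h1

end Pool.Agent.Lib.MP_fb5b0b_nt.FB
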