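import Pool.Agent.Lib.MP_fb5b0b_nt.FB.All
import Pool.Agent.Lib.MP_fb5b0b_nt.FB.Fin

/-!
MP_fb5b0b_nt, FB: THEOREM FB without hypotheses.
-/

set_option autoImplicit false

namespace Pool.Agent.Lib.MP_fb5b0b_nt.FB

open Finset
open Pool.Agent.Lib.MP_9f2731_nt

/-- families which are unavoidable in a density sense -/
theorem fin (k : ℕ) (hk : 3 ≤ k) : ∃ (C δ : ℝ) (D r : ℕ), 0 < δ ∧
      (∀ (S : Finset ℕ) (m : ℕ → ℝ) (𝓔 : Finset (Finset ℕ)), (∀ e ∈ S, 1 ≤ e ∧ 0 ≤ m e) →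
        ∑ e ∈ S, m e = 1 → (∀ E ∈ 𝓔, E.card = k) →
        (∀ A : Finset ℕ, A ⊆ S → δ ≤ ∑ e ∈ A, m e → ∃ E ∈ 𝓔, E ⊆ A) → Good C 𝓔) ∧
      (∀ f : Fin r → ℕ → ℕ, (∀ t j, j < k → 1 ≤ f t j) → (∀ t i j, i < j → j < k → f t i < f t j) →
        Good C (Fam k f)) ∧
      Good C ((Icc 1 D ×ˢ Icc 1 D).image fun p => (range k).image fun j => p.1 + j * p.2) :=
  pFin bas (pSzm GP.Dhj.dhjAll) (SS.pSzm GP.Dhj.dhjAll) k hk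

open Classical in
/-- products of tuples of positive integers -/
theorem prd (k : ℕ) : ∃ (C : ℝ) (r : ℕ), ∀ f : Fin r → Fin k → ℕ, (∀ t j, 1 ≤ f t j) →
    ∀ M : ℕ, 1 ≤ M → ∃ c : ℝ, 0 < c ∧ ∃ X₀ : ℕ, ∀ X : ℕ, X₀ ≤ X →
      c * X ≤ (((Icc 1 X).filter (fun n => M ∣ n ∧ ∃ T : Finset (Fin r), T.Nonempty ∧
        ∃ h : ℕ, 1 ≤ h ∧ (h : ℝ) ≤ Real.log n ^ C ∧ h ≡ 1 [MOD M] ∧
          ∀ j, ((∏ t ∈ T, f t j) * n + h).Prime)).card : ℝ) := by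
  obtain ⟨C, r, hr⟩ := pPrd bas (pSzm GP.Dhj.dhjAll) (SS.pSzm GP.Dhj.dhjAll) k
  refine ⟨C, r, fun f hf M hM => ?_⟩
  obtain ⟨c, hc, X0, hX⟩ := hr f hf M hM
  refine ⟨c, hc, X0, fun X hXX => (hX X hXX).trans ?_⟩
  have h1 : (Icc 1 X).filter (fun n => Pn C (((univ : Finset (Finset (Fin r))).filter
      (fun T => T.Nonempty)).image fun T => univ.image fun j => ∏ t ∈ T, f t j) M n) ⊆
      (Icc 1 X).filter (fun n => M ∣ n ∧ ∃ T : Finset (Fin r), T.Nonempty ∧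
        ∃ h : ℕ, 1 ≤ h ∧ (h : ℝ) ≤ Real.log n ^ C ∧ h ≡ 1 [MOD M] ∧
          ∀ j, ((∏ t ∈ T, f t j) * n + h).Prime) := by
    intro n hn
    rw [mem_filter] at hn ⊢
    obtain ⟨hn1, hnM, E, hE, a, h2, h3, h4, h5⟩ := hn
    rw [mem_image] at hE
    obtain ⟨T, hT, rfl⟩ := hE
    exact ⟨hn1, hnM, T, (mem_filter.1 hT).2, a, h2, h3, h4, fun j =>
      h5 _ (mem_image_of_mem _ (mem_univ j))⟩
  exact_mod_cast card_le_card h1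

end Pool.Agent.Lib.MP_fb5b0b_nt.FB
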