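import Pool.Agent.Lib.MP_fb5b0b_nt.FB.Defs

/-!
MP_fb5b0b_nt, FB, THEOREM U (dense sets of primes): definitions and interfaces.
-/

set_option autoImplicit false

namespace Pool.Agent.Lib.MP_fb5b0b_nt.FB

open Finset
open Pool.Agent.Lib.MP_9f2731_nt.GP
open Pool.Agent.Lib.MP_9f2731_nt.GP.Rel (av Ind pk HLFC Cut CutG)
open Pool.Agent.Lib.MP_9f2731_nt.GP.Asm (eb lfm)
open Pool.Agent.Lib.MP_9f2731_nt.SS (nl Fo dt Wq Rs Scl CorLStmt MomLStmt S_Sng)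

/-- the property of n: a pattern with values in A, h at most H -/
def GdA (k : ℕ) (PP : Finset (ℕ → ℕ)) (M : ℕ) (A : Finset ℕ) (H : ℝ) (n : ℕ) : Prop :=
  M ∣ n ∧ ∃ ex ∈ PP, ∃ h : ℕ, 1 ≤ h ∧ (h : ℝ) ≤ H ∧ ∀ j : ℕ, j < k → ex j * n + h ∈ A

open Classical in
/-- the normalized indicator of A on the middle part of the window -/
noncomputable def fa (M w : ℕ) (κ : ℝ) (b0 X b : ℕ) (A : Finset ℕ) {N : ℕ} (e : ℕ)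
    (y : ZMod N) : ℝ :=
  if N ≤ 4 * y.val ∧ 2 * y.val < N ∧ nl (fo M w b0 e y) b ∈ A then
    ((Wp w).totient / (Wp w) : ℝ) * Real.log ((X : ℝ) ^ κ) * (3 / 4)
  else 0

/-- the logarithmic mass of A in the blocks (e Z, 2 e Z], e ∈ S -/
noncomputable def Bl (S : Finset ℕ) (m : ℕ → ℝ) (Z : ℕ) (A : Finset ℕ) : ℝ :=
  ∑ e ∈ S, m e * ∑ p ∈ A.filter (fun p => e * Z < p ∧ p ≤ 2 * e * Z), Real.log p / p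

/-- **UDen** (residue class and density in the windows). Uses: S_Cnt. -/
def S_UDen : Prop :=
  ∀ (R M w : ℕ) (κ δ : ℝ), 0 < κ → 0 < δ → 1 ≤ R → 1 ≤ M → M ≤ w → 2 ≤ w → ∃ Z0 : ℕ, ∀ Z : ℕ,
    Z0 ≤ Z → ∀ (a : ℕ) (A S : Finset ℕ) (m : ℕ → ℝ),
    (∀ p ∈ A, p.Prime ∧ Z < p ∧ p ≡ a [MOD M]) → (∀ e ∈ S, Mu R e) → (∀ e, 0 ≤ m e) →
    δ ≤ (M.totient : ℝ) * Bl S m Z A →
    ∃ b0 : ℕ, Rs M w b0 ∧ ∀ (N : ℕ) [NeZero N], 32 * R ≤ N → Wq M w * (2 * N) ≤ Z →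
      κ * δ / 64 ≤ eb (2 * Z / Wq M w + 1) (fun b =>
        ∑ e ∈ S, m e * av (fun x : ZMod N => fa M w κ b0 (2 * Z / Wq M w + 1) b A e x))

open Classical in
/-- **ULoc** (one base point). Uses: RcStmt, S_Gen, S_Lf1, S_Lf2, S_Sec, S_Maj, S_UDen, S_Pts, GP.Asm.SelStmt. -/
def S_ULoc : Prop :=
  ∀ k : ℕ, 3 ≤ k → ∃ C : ℝ, 0 < C ∧ ∀ δ : ℝ, 0 < δ → ∃ δs : ℝ, 0 < δs ∧ ∀ (S : Finset ℕ)
    (m : ℕ → ℝ) (PP : Finset (ℕ → ℕ)), Sys k δs S m PP → ∀ M : ℕ, 1 ≤ M →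
    ∃ c : ℝ, 0 < c ∧ ∃ Z0 : ℕ, ∀ Z : ℕ, Z0 ≤ Z → ∀ (a : ℕ) (A : Finset ℕ),
    (∀ p ∈ A, p.Prime ∧ Z < p ∧ p ≡ a [MOD M]) → δ ≤ (M.totient : ℝ) * Bl S m Z A →
      c * Z ≤ (((Icc 1 (4 * Z)).filter (fun n => GdA k PP M A ((Real.log Z) ^ C) n)).card : ℝ)

open Classical in
/-- **ULng** (all base points). Uses: S_ULoc. -/
def S_ULng : Prop :=
  ∀ k : ℕ, 3 ≤ k → ∃ C : ℝ, 0 < C ∧ ∀ δ : ℝ, 0 < δ → ∃ δs : ℝ, 0 < δs ∧ ∀ (S : Finset ℕ)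
    (m : ℕ → ℝ) (PP : Finset (ℕ → ℕ)), Sys k δs S m PP → ∀ M : ℕ, 1 ≤ M →
    ∃ c : ℝ, 0 < c ∧ ∃ D Z0 : ℕ, ∀ Z Y a : ℕ, Z0 ≤ Z → D * Z ≤ Y → ∀ A : Finset ℕ,
    (∀ p ∈ A, p.Prime ∧ p ≡ a [MOD M] ∧ Z < p ∧ p ≤ Y) →
    δ * Real.log (Y / Z) ≤ (M.totient : ℝ) * ∑ p ∈ A, Real.log p / p →
      c * Real.log (Y / Z) ≤ ∑ n ∈ (Icc 1 Y).filter (fun n : ℕ =>
        GdA k PP M A ((Real.log n) ^ C) n), 1 / (n : ℝ)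

end Pool.Agent.Lib.MP_fb5b0b_nt.FB
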