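import Pool.Agent.Lib.MP_fb5b0b_nt.FB.UDef

/-!
MP_fb5b0b_nt, FB, module UDen: choice of the residue class and density in the windows.
-/

set_option autoImplicit false

namespace Pool.Agent.Lib.MP_fb5b0b_nt.FB

open Finset
open Pool.Agent.Lib.MP_9f2731_nt.GP
open Pool.Agent.Lib.MP_9f2731_nt.GP.Rel (av Ind pk HLFC Cut CutG)
open Pool.Agent.Lib.MP_9f2731_nt.GP.Asm (eb lfm)
open Pool.Agent.Lib.MP_9f2731_nt.SS (nl Fo dt Wq Rs Scl CorLStmt MomLStmt S_Sng)

private theorem UDen_dvd {w p : ℕ} (hp : p.Prime) (h : p ≤ w) : p ∣ Wp w := by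
  unfold Wp primorial
  exact Finset.dvd_prod_of_mem (fun p => p) (Finset.mem_filter.mpr
    ⟨Finset.mem_range.mpr (by omega), hp⟩)

private theorem UDen_W0 (w : ℕ) : 0 < Wp w := primorial_pos w

private theorem UDen_two {M w : ℕ} (hM : 1 ≤ M) (hw : 2 ≤ w) : 2 ≤ Wq M w :=
  Nat.le_of_dvd (Nat.mul_pos hM (UDen_W0 w)) (Dvd.dvd.mul_left (UDen_dvd Nat.prime_two hw) M)

/-- the quotients of the totients -/
private theorem UDen_tot {M w : ℕ} (hM : 1 ≤ M) (hMw : M ≤ w) :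
    (((Wp w).totient : ℝ) / (Wp w : ℝ)) = ((Wq M w).totient : ℝ) / (Wq M w : ℝ) := by
  have hW0 := UDen_W0 w
  have hQ0 : 0 < Wq M w := Nat.mul_pos hM hW0
  have hpf : (Wq M w).primeFactors = (Wp w).primeFactors := by
    unfold Wq
    rw [Nat.primeFactors_mul (by omega) hW0.ne', Finset.union_eq_right]
    intro p hp
    rw [Nat.mem_primeFactors] at hp ⊢
    exact ⟨hp.1, UDen_dvd hp.1 ((Nat.le_of_dvd (by omega) hp.2.1).trans hMw), hW0.ne'⟩
  have h1 := Nat.totient_eq_mul_prod_factors (Wp w)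
  have h2 := Nat.totient_eq_mul_prod_factors (Wq M w)
  rw [hpf] at h2
  set c : ℚ := ∏ p ∈ (Wp w).primeFactors, (1 - (p : ℚ)⁻¹)
  have h3 : ((Wp w).totient : ℝ) = (Wp w : ℝ) * (c : ℝ) := by exact_mod_cast h1
  have h4 : ((Wq M w).totient : ℝ) = (Wq M w : ℝ) * (c : ℝ) := by exact_mod_cast h2
  have hWr : (Wp w : ℝ) ≠ 0 := by exact_mod_cast hW0.ne'
  have hQr : (Wq M w : ℝ) ≠ 0 := by exact_mod_cast hQ0.ne'
  rw [h3, h4, mul_div_cancel_left₀ _ hWr, mul_div_cancel_left₀ _ hQr]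

/-- the residue classes modulo Q which are coprime to Q and congruent to a modulo M -/
private def Cl (Q M a : ℕ) : Finset ℕ :=
  (range Q).filter (fun b => Q.Coprime b ∧ b ≡ a [MOD M])

/-- their number -/
private theorem UDen_cl (Q M a : ℕ) (hQ : 1 ≤ Q) (hMQ : M ∣ Q) :
    M.totient * (Cl Q M a).card ≤ Q.totient := by
  classical
  rcases (Cl Q M a).eq_empty_or_nonempty with h0 | ⟨b1, hb1⟩
  · rw [h0, card_empty, mul_zero]
    exact Nat.zero_le _
  have hQ0 : NeZero Q := ⟨by omega⟩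
  have hM0 : NeZero M := ⟨fun h => by rw [h, zero_dvd_iff] at hMQ; omega⟩
  have hcop : ∀ b ∈ Cl Q M a, b.Coprime Q := fun b hb =>
    (Nat.coprime_comm).1 (mem_filter.1 hb).2.1
  -- the fibres of the reduction
  have hfib : ∀ v v' : (ZMod M)ˣ,
      (univ.filter (fun u : (ZMod Q)ˣ => ZMod.unitsMap hMQ u = v)).card =
      (univ.filter (fun u : (ZMod Q)ˣ => ZMod.unitsMap hMQ u = v')).card := fun v v' =>
    MonoidHom.card_fiber_eq_of_mem_range (ZMod.unitsMap hMQ)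
      (ZMod.unitsMap_surjective hMQ v) (ZMod.unitsMap_surjective hMQ v')
  set v0 := ZMod.unitsMap hMQ (ZMod.unitOfCoprime b1 (hcop b1 hb1)) with hv0
  have htot : Q.totient = M.totient *
      (univ.filter (fun u : (ZMod Q)ˣ => ZMod.unitsMap hMQ u = v0)).card := by
    rw [← ZMod.card_units_eq_totient Q, ← ZMod.card_units_eq_totient M, ← card_univ,
      Finset.card_eq_sum_card_fiberwise (f := fun u : (ZMod Q)ˣ => ZMod.unitsMap hMQ u)
        (s := (univ : Finset (ZMod Q)ˣ)) (t := (univ : Finset (ZMod M)ˣ)) (fun _ _ => by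
          simp), ← card_univ, ← smul_eq_mul, ← sum_const]
    exact Finset.sum_congr rfl fun v _ => hfib v v0
  rw [htot]
  refine Nat.mul_le_mul_left _ ?_
  have hcast : ∀ b (hb : b ∈ Cl Q M a),
      ZMod.unitsMap hMQ (ZMod.unitOfCoprime b (hcop b hb)) = v0 := by
    intro b hb
    have h1 : b ≡ b1 [MOD M] := (mem_filter.1 hb).2.2.trans (mem_filter.1 hb1).2.2.symm
    have h2 : ((b : ℕ) : ZMod M) = ((b1 : ℕ) : ZMod M) := (ZMod.natCast_eq_natCast_iff b b1 M).2 h1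
    refine Units.ext ?_
    rw [hv0]
    simp only [ZMod.unitsMap_def, Units.coe_map, ZMod.coe_unitOfCoprime]
    simpa using h2
  refine Finset.card_le_card_of_injOn (fun b => if hb : b ∈ Cl Q M a then
    ZMod.unitOfCoprime b (hcop b hb) else 1) ?_ ?_
  · intro b hb
    rw [Finset.mem_coe] at hb
    rw [Finset.mem_coe, mem_filter]
    refine ⟨mem_univ _, ?_⟩
    simp only [dif_pos hb]
    exact hcast b hb
  · intro b hb b' hb' hbb
    rw [Finset.mem_coe] at hb hb'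
    simp only [dif_pos hb, dif_pos hb'] at hbb
    have h1 := congrArg (fun u : (ZMod Q)ˣ => (u : ZMod Q)) hbb
    simp only [ZMod.coe_unitOfCoprime] at h1
    have h2 := (ZMod.natCast_eq_natCast_iff b b' Q).1 h1
    have h3 : b < Q := mem_range.1 (mem_filter.1 hb).1
    have h4 : b' < Q := mem_range.1 (mem_filter.1 hb').1
    unfold Nat.ModEq at h2
    rwa [Nat.mod_eq_of_lt h3, Nat.mod_eq_of_lt h4] at h2

/-- choice of the residue class -/
private theorem UDen_blk (M w Z a : ℕ) (δ : ℝ) (A S : Finset ℕ) (m : ℕ → ℝ) (hM : 1 ≤ M)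
    (hw : 2 ≤ w) (hδ : 0 < δ) (hQZ : Wq M w < Z)
    (hA : ∀ p ∈ A, p.Prime ∧ Z < p ∧ p ≡ a [MOD M])
    (hd : δ ≤ (M.totient : ℝ) * Bl S m Z A) :
    ∃ b0 : ℕ, Rs M w b0 ∧ δ ≤ ((Wq M w).totient : ℝ) *
      Bl S m Z (A.filter (fun p => p % Wq M w = b0)) := by
  classical
  set Q := Wq M w with hQ
  have hQ2 : 2 ≤ Q := UDen_two hM hw
  have hMQ : M ∣ Q := Dvd.intro _ rfl
  have hmod : ∀ p ∈ A, p % Q ∈ Cl Q M a := by
    intro p hp
    obtain ⟨hpp, hp1, hp2⟩ := hA p hp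
    unfold Cl
    rw [mem_filter, mem_range]
    refine ⟨Nat.mod_lt _ (by omega), ?_, ?_⟩
    · have h1 : Q.Coprime p := by
        rw [Nat.coprime_comm]
        refine (Nat.Prime.coprime_iff_not_dvd hpp).mpr fun h => ?_
        have := Nat.le_of_dvd (by omega) h
        omega
      unfold Nat.Coprime
      rw [Nat.gcd_comm, ← Nat.gcd_rec]
      exact h1
    · exact ((Nat.mod_modEq p Q).of_dvd hMQ).trans hp2
  have hsplit : Bl S m Z A = ∑ b ∈ Cl Q M a, Bl S m Z (A.filter (fun p => p % Q = b)) := by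
    unfold Bl
    rw [Finset.sum_comm]
    refine Finset.sum_congr rfl fun e _ => ?_
    rw [← Finset.mul_sum]
    congr 1
    rw [← Finset.sum_fiberwise_of_maps_to (s := A.filter (fun p => e * Z < p ∧ p ≤ 2 * e * Z))
      (t := Cl Q M a) (g := fun p => p % Q) (fun p hp => hmod p (mem_filter.1 hp).1)]
    refine Finset.sum_congr rfl fun b _ => ?_
    refine Finset.sum_congr ?_ fun _ _ => rfl
    rw [Finset.filter_filter, Finset.filter_filter]
    refine Finset.filter_congr fun p _ => ?_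
    tauto
  have hφM : (0 : ℝ) < M.totient := Nat.cast_pos.mpr (Nat.totient_pos.mpr (by omega))
  have hφQ : (0 : ℝ) < Q.totient := Nat.cast_pos.mpr (Nat.totient_pos.mpr (by omega))
  have hne : (Cl Q M a).Nonempty := by
    by_contra h
    rw [Finset.not_nonempty_iff_eq_empty] at h
    rw [hsplit, h, Finset.sum_empty, mul_zero] at hd
    linarith
  have hcl : (M.totient : ℝ) * (Cl Q M a).card ≤ Q.totient := by
    exact_mod_cast UDen_cl Q M a (by omega) hMQ
  obtain ⟨b, hb, hbe⟩ := exists_le_of_sum_le (s := Cl Q M a) (f := fun _ => δ / Q.totient)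
    (g := fun b => Bl S m Z (A.filter (fun p => p % Q = b))) hne (by
    rw [sum_const, nsmul_eq_mul, ← hsplit]
    have h1 : δ / M.totient ≤ Bl S m Z A := by
      rw [div_le_iff₀ hφM, mul_comm]
      exact hd
    refine le_trans ?_ h1
    rw [mul_div_assoc', div_le_div_iff₀ hφQ hφM]
    calc ((Cl Q M a).card : ℝ) * δ * M.totient = δ * (M.totient * (Cl Q M a).card) := by ring
      _ ≤ δ * Q.totient := mul_le_mul_of_nonneg_left hcl hδ.le)
  have hb2 := mem_filter.1 hb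
  refine ⟨b, ⟨?_, mem_range.1 hb2.1, (Nat.coprime_comm).1 hb2.2.1⟩, ?_⟩
  · by_contra h
    have h0 : b = 0 := by omega
    have h1 := hb2.2.1
    rw [h0, Nat.coprime_zero_right] at h1
    omega
  · rw [div_le_iff₀ hφQ, mul_comm] at hbe
    exact hbe

theorem pUDen (hC : S_Cnt) : S_UDen := by
  classical
  intro R M w κ δ hκ hδ hR hM hMw hw
  set Q := Wq M w with hQ
  have hQ2 : 2 ≤ Q := UDen_two hM hw
  refine ⟨2 * R * Q ^ 2 + Q + 1, fun Z hZ a A S m hA hSR hm hd => ?_⟩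
  obtain ⟨b0, hb0, hsum⟩ := UDen_blk M w Z a δ A S m hM hw hδ
    (by rw [← hQ]; nlinarith [Nat.zero_le (2 * R * Q ^ 2)]) hA hd
  refine ⟨b0, hb0, ?_⟩
  intro N _ hN hNZ
  set X := 2 * Z / Q + 1 with hX
  have hQX1 : 2 * Z ≤ Q * X := by
    have := Nat.lt_mul_div_succ (2 * Z) (show 0 < Q by omega)
    rw [hX]
    exact this.le
  have hQX2 : Q * X ≤ 2 * Z + Q := by
    rw [hX, mul_add, mul_one]
    have := Nat.mul_div_le (2 * Z) Q
    omega
  have hZQ : Q ≤ Z := by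
    have : 0 ≤ 2 * R * Q ^ 2 := Nat.zero_le _
    omega
  have hQX3 : Q * X ≤ 3 * Z := by omega
  have hX1 : 1 ≤ X := by rw [hX]; exact Nat.le_add_left _ _
  have hZ1 : 2 * R * Q ^ 2 ≤ Z := by omega
  have hXX : 2 * R * Z ≤ X ^ 2 := by
    have h1 : Z * (2 * R * Q ^ 2) ≤ (Q * X) ^ 2 := by
      calc Z * (2 * R * Q ^ 2) ≤ Z * Z := Nat.mul_le_mul_left _ hZ1
        _ ≤ (Q * X) * (Q * X) := Nat.mul_le_mul (by omega) (by omega)
        _ = (Q * X) ^ 2 := (sq _).symm
    have h2 : Q ^ 2 * (2 * R * Z) ≤ Q ^ 2 * X ^ 2 := by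
      calc Q ^ 2 * (2 * R * Z) = Z * (2 * R * Q ^ 2) := by ring
        _ ≤ (Q * X) ^ 2 := h1
        _ = Q ^ 2 * X ^ 2 := by ring
    exact Nat.le_of_mul_le_mul_left h2 (by positivity)
  -- real numbers
  have hN0 : (0 : ℝ) < N := Nat.cast_pos.mpr (Nat.pos_of_neZero N)
  have hX0 : (0 : ℝ) < X := Nat.cast_pos.mpr hX1
  have hZ0n : 0 < Z := by omega
  have hZ0 : (0 : ℝ) < Z := Nat.cast_pos.mpr hZ0n
  have hQ0 : (0 : ℝ) < Q := Nat.cast_pos.mpr (by omega)
  have hRr : (1 : ℝ) ≤ R := by exact_mod_cast hR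
  have hφ : (0 : ℝ) < Q.totient := Nat.cast_pos.mpr (Nat.totient_pos.mpr (by omega))
  set Lg := Real.log (2 * R * Z) with hLg
  have hLg0 : 0 < Lg := by
    refine Real.log_pos ?_
    have h2 : (1 : ℝ) ≤ Z := by exact_mod_cast hZ0n
    nlinarith
  have hlogX : Lg ≤ 2 * Real.log X := by
    have h1 : (2 : ℝ) * R * Z ≤ (X : ℝ) ^ 2 := by exact_mod_cast hXX
    have h2 := Real.log_le_log (by positivity) h1
    rw [Real.log_pow] at h2
    rw [hLg]
    push_cast at h2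
    exact h2
  have hlX0 : 0 < Real.log X := by linarith
  set V : ℝ := ((Wp w).totient / (Wp w) : ℝ) * Real.log ((X : ℝ) ^ κ) * (3 / 4) with hV
  have hVe : V = (Q.totient : ℝ) / Q * (κ * Real.log X) * (3 / 4) := by
    rw [hV, UDen_tot hM hMw, Real.log_rpow hX0, ← hQ]
  have hV0 : 0 ≤ V := by rw [hVe]; positivity
  have hfb : ∀ b e : ℕ, av (fun x : ZMod N => fa M w κ b0 X b A e x) =
      V / N * ((univ.filter (fun y : ZMod N => N ≤ 4 * y.val ∧ 2 * y.val < N ∧
        nl (fo M w b0 e y) b ∈ A)).card : ℝ) := by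
    intro b e
    unfold av fa
    rw [ZMod.card, ← sum_filter, sum_const, nsmul_eq_mul, ← hV]
    ring
  have heb : eb X (fun b => ∑ e ∈ S, m e * av (fun x : ZMod N => fa M w κ b0 X b A e x)) =
      V / (N * X) * ∑ e ∈ S, m e * ∑ b ∈ Icc 1 X,
        ((univ.filter (fun y : ZMod N => N ≤ 4 * y.val ∧ 2 * y.val < N ∧
          nl (fo M w b0 e y) b ∈ A)).card : ℝ) := by
    unfold eb
    simp only [hfb]
    rw [sum_comm, Finset.mul_sum, Finset.sum_div]
    refine Finset.sum_congr rfl fun e _ => ?_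
    rw [← Finset.mul_sum, ← Finset.mul_sum, ← div_div]
    ring
  rw [heb]
  set A0 := A.filter (fun p => p % Q = b0) with hA0
  -- the blocks
  have hcnt : ∀ e ∈ S, (N : ℝ) / 8 * (Z / Lg * ∑ p ∈ A0.filter (fun p => e * Z < p ∧
      p ≤ 2 * e * Z), Real.log p / p) ≤
      ∑ b ∈ Icc 1 X, ((univ.filter (fun y : ZMod N => N ≤ 4 * y.val ∧ 2 * y.val < N ∧
          nl (fo M w b0 e y) b ∈ A)).card : ℝ) := by
    intro e he
    obtain ⟨he1, heR⟩ := hSR e he
    have he0 : (0 : ℝ) < e := by exact_mod_cast he1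
    refine le_trans ?_ (hC M w b0 X N e A hb0 he1 (by omega))
    have h1 : (A0.filter (fun p => e * Z < p ∧ p ≤ 2 * e * Z)).card ≤
        (A.filter (fun n => n % Wq M w = b0 ∧ Wq M w * (2 * N) < n ∧
          n ≤ Wq M w * e * X)).card := by
      refine card_le_card ?_
      intro n hn
      rw [mem_filter, hA0, mem_filter] at hn
      obtain ⟨⟨hnA, hn1⟩, hn2, hn3⟩ := hn
      rw [mem_filter]
      refine ⟨hnA, hn1, ?_, ?_⟩
      · have h2 : Z ≤ e * Z := Nat.le_mul_of_pos_left _ he1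
        rw [← hQ]
        exact lt_of_le_of_lt (hNZ.trans h2) hn2
      · calc n ≤ 2 * e * Z := hn3
          _ = e * (2 * Z) := by ring
          _ ≤ e * (Q * X) := Nat.mul_le_mul_left _ hQX1
          _ = Wq M w * e * X := by rw [← hQ]; ring
    have h2 : ((A0.filter (fun p => e * Z < p ∧ p ≤ 2 * e * Z)).card : ℝ) ≤
        ((A.filter (fun n => n % Wq M w = b0 ∧ Wq M w * (2 * N) < n ∧
          n ≤ Wq M w * e * X)).card : ℝ) := by exact_mod_cast h1
    have h3 : ∑ p ∈ A0.filter (fun p => e * Z < p ∧ p ≤ 2 * e * Z), Real.log p / p ≤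
        ((A0.filter (fun p => e * Z < p ∧ p ≤ 2 * e * Z)).card : ℝ) * (Lg / (e * Z)) := by
      rw [← nsmul_eq_mul, ← sum_const]
      refine Finset.sum_le_sum fun p hp => ?_
      rw [mem_filter] at hp
      obtain ⟨hp0, hp1, hp2⟩ := hp
      have hppos : 0 < p := by omega
      have hp3 : (0 : ℝ) < p := by exact_mod_cast hppos
      refine div_le_div₀ hLg0.le ?_ (by positivity) ?_
      · refine Real.log_le_log hp3 ?_
        have h4 : (p : ℝ) ≤ 2 * e * Z := by exact_mod_cast hp2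
        have h5 : (e : ℝ) ≤ R := by exact_mod_cast heR.le
        have h6 : 2 * (e : ℝ) * Z ≤ 2 * R * Z := by nlinarith
        linarith
      · exact_mod_cast hp1.le
    have h4 : (N : ℝ) / 8 * (Z / Lg * ∑ p ∈ A0.filter (fun p => e * Z < p ∧
        p ≤ 2 * e * Z), Real.log p / p) ≤ (N : ℝ) / 8 * (Z / Lg *
        (((A0.filter (fun p => e * Z < p ∧ p ≤ 2 * e * Z)).card : ℝ) * (Lg / (e * Z)))) :=
      mul_le_mul_of_nonneg_left (mul_le_mul_of_nonneg_left h3 (by positivity)) (by positivity)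
    refine h4.trans ?_
    have h5 : (N : ℝ) / 8 * (Z / Lg *
        (((A0.filter (fun p => e * Z < p ∧ p ≤ 2 * e * Z)).card : ℝ) * (Lg / (e * Z)))) =
        (N : ℝ) / (8 * e) * ((A0.filter (fun p => e * Z < p ∧ p ≤ 2 * e * Z)).card : ℝ) := by
      field_simp
    rw [h5]
    exact mul_le_mul_of_nonneg_left h2 (by positivity)
  have hall : (N : ℝ) / 8 * (Z / Lg * Bl S m Z A0) ≤ ∑ e ∈ S, m e * ∑ b ∈ Icc 1 X,
        ((univ.filter (fun y : ZMod N => N ≤ 4 * y.val ∧ 2 * y.val < N ∧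
          nl (fo M w b0 e y) b ∈ A)).card : ℝ) := by
    unfold Bl
    rw [Finset.mul_sum, Finset.mul_sum]
    refine Finset.sum_le_sum fun e he => ?_
    calc (N : ℝ) / 8 * (Z / Lg * (m e * ∑ p ∈ A0.filter (fun p => e * Z < p ∧
        p ≤ 2 * e * Z), Real.log p / p)) = m e * ((N : ℝ) / 8 * (Z / Lg * ∑ p ∈ A0.filter
          (fun p => e * Z < p ∧ p ≤ 2 * e * Z), Real.log p / p)) := by ring
      _ ≤ _ := mul_le_mul_of_nonneg_left (hcnt e he) (hm e)
  have h5 : V / (N * X) * ((N : ℝ) / 8 * (Z / Lg * Bl S m Z A0)) ≤ V / (N * X) *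
      ∑ e ∈ S, m e * ∑ b ∈ Icc 1 X,
        ((univ.filter (fun y : ZMod N => N ≤ 4 * y.val ∧ 2 * y.val < N ∧
          nl (fo M w b0 e y) b ∈ A)).card : ℝ) :=
    mul_le_mul_of_nonneg_left hall (by positivity)
  refine le_trans ?_ h5
  have h6 : V / (N * X) * ((N : ℝ) / 8 * (Z / Lg * Bl S m Z A0)) =
      (3 / 32) * κ * (Real.log X / Lg) * ((Q.totient : ℝ) * Bl S m Z A0) * (Z / (Q * X)) := by
    rw [hVe]
    field_simp
    ring
  rw [h6]
  have h7 : δ ≤ (Q.totient : ℝ) * Bl S m Z A0 := hsum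
  have h8 : (1 : ℝ) / 3 ≤ Z / (Q * X) := by
    have : (Q : ℝ) * X ≤ 3 * Z := by exact_mod_cast hQX3
    rw [div_le_div_iff₀ (by norm_num) (by positivity)]
    linarith
  have h9 : (1 : ℝ) / 2 ≤ Real.log X / Lg := by
    rw [div_le_div_iff₀ (by norm_num) hLg0]
    linarith
  calc κ * δ / 64 = (3 / 32) * κ * (1 / 2) * δ * (1 / 3) := by ring
    _ ≤ (3 / 32) * κ * (Real.log X / Lg) * ((Q.totient : ℝ) * Bl S m Z A0) * (Z / (Q * X)) := by
        have a1 : (3 / 32) * κ * (1 / 2) ≤ (3 / 32) * κ * (Real.log X / Lg) :=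
          mul_le_mul_of_nonneg_left h9 (by positivity)
        have a2 : (3 / 32) * κ * (1 / 2) * δ ≤
            (3 / 32) * κ * (Real.log X / Lg) * ((Q.totient : ℝ) * Bl S m Z A0) :=
          mul_le_mul a1 h7 hδ.le (by positivity)
        exact mul_le_mul a2 h8 (by norm_num) (le_trans (by positivity) a2)

end Pool.Agent.Lib.MP_fb5b0b_nt.FB
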