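import Pool.Agent.Lib.MP_fb5b0b_nt.FB.UDef

/-!
MP_fb5b0b_nt, FB, module UFin: from patterns of multipliers to products of tuples of positive integers.
-/

set_option autoImplicit false

namespace Pool.Agent.Lib.MP_fb5b0b_nt.FB

open Finset

/-- the property of n for a family of sets of multipliers -/
def PnA (C : ℝ) (𝓔 : Finset (Finset ℕ)) (M : ℕ) (A : Finset ℕ) (n : ℕ) : Prop :=
  M ∣ n ∧ ∃ E ∈ 𝓔, ∃ h : ℕ, 1 ≤ h ∧ (h : ℝ) ≤ Real.log n ^ C ∧ ∀ e ∈ E, e * n + h ∈ A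

open Classical in
/-- lower logarithmic density for dense sets A -/
def LowA (C δ : ℝ) (𝓔 : Finset (Finset ℕ)) (M : ℕ) : Prop :=
  ∃ c : ℝ, 0 < c ∧ ∃ D Z0 : ℕ, ∀ Z Y a : ℕ, Z0 ≤ Z → D * Z ≤ Y → ∀ A : Finset ℕ,
    (∀ p ∈ A, p.Prime ∧ p ≡ a [MOD M] ∧ Z < p ∧ p ≤ Y) →
    δ * Real.log (Y / Z) ≤ (M.totient : ℝ) * ∑ p ∈ A, Real.log p / p →
      c * Real.log (Y / Z) ≤ ∑ n ∈ (Icc 1 Y).filter (fun n : ℕ => PnA C 𝓔 M A n), 1 / (n : ℝ)

open Classical in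
/-- scaling -/
private theorem UFin_scale (G P : Finset ℕ) (R : ℕ) (hG : ∀ n ∈ G, 1 ≤ n)
    (h : ∀ n ∈ G, ∃ x : ℕ, 1 ≤ x ∧ x ≤ R ∧ x * n ∈ P) :
    ∑ n ∈ G, 1 / (n : ℝ) ≤ (R : ℝ) ^ 2 * ∑ n ∈ P, 1 / (n : ℝ) := by
  have hP0 : 0 ≤ ∑ n ∈ P, 1 / (n : ℝ) := Finset.sum_nonneg fun n _ => by positivity
  have h1 : ∀ x ∈ Icc 1 R, ∑ n ∈ G.filter (fun n => x * n ∈ P), 1 / (n : ℝ) ≤
      R * ∑ n ∈ P, 1 / (n : ℝ) := by
    intro x hx
    rw [mem_Icc] at hx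
    have hx0 : (0 : ℝ) < x := by exact_mod_cast hx.1
    have hxR : (x : ℝ) ≤ R := by exact_mod_cast hx.2
    have h2 : ∑ n ∈ G.filter (fun n => x * n ∈ P), 1 / (n : ℝ) =
        x * ∑ n ∈ (G.filter (fun n => x * n ∈ P)).image (fun n => x * n), 1 / (n : ℝ) := by
      rw [Finset.sum_image (fun a _ b _ hab => Nat.eq_of_mul_eq_mul_left hx.1 hab),
        Finset.mul_sum]
      refine Finset.sum_congr rfl fun n hn => ?_
      have hn1 : 1 ≤ n := hG n (mem_filter.1 hn).1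
      have hn0 : (0 : ℝ) < n := by exact_mod_cast hn1
      push_cast
      field_simp
    rw [h2]
    refine mul_le_mul hxR ?_ (Finset.sum_nonneg fun n _ => by positivity) (Nat.cast_nonneg R)
    refine Finset.sum_le_sum_of_subset_of_nonneg ?_ fun n _ _ => by positivity
    intro n hn
    rw [mem_image] at hn
    obtain ⟨n', hn', rfl⟩ := hn
    exact (mem_filter.1 hn').2
  calc ∑ n ∈ G, 1 / (n : ℝ) ≤ ∑ n ∈ G, ∑ x ∈ Icc 1 R, if x * n ∈ P then 1 / (n : ℝ) else 0 := by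
        refine Finset.sum_le_sum fun n hn => ?_
        obtain ⟨x, x1, x2, x3⟩ := h n hn
        have h2 := Finset.single_le_sum (f := fun x => if x * n ∈ P then 1 / (n : ℝ) else 0)
          (fun j _ => by
            split_ifs
            · positivity
            · exact le_rfl) (mem_Icc.2 ⟨x1, x2⟩)
        simp only [if_pos x3] at h2
        exact h2
    _ = ∑ x ∈ Icc 1 R, ∑ n ∈ G.filter (fun n => x * n ∈ P), 1 / (n : ℝ) := by
        rw [Finset.sum_comm]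
        refine Finset.sum_congr rfl fun x _ => ?_
        rw [Finset.sum_filter]
    _ ≤ ∑ _x ∈ Icc 1 R, (R : ℝ) * ∑ n ∈ P, 1 / (n : ℝ) := Finset.sum_le_sum h1
    _ = (R : ℝ) ^ 2 * ∑ n ∈ P, 1 / (n : ℝ) := by
        rw [sum_const, Nat.card_Icc, Nat.add_sub_cancel, nsmul_eq_mul]
        ring

/-- increasing tuples -/
private theorem UFin_inc (hU : S_ULng) (hZ : S_Szm) (k : ℕ) (hk : 3 ≤ k) :
    ∃ C : ℝ, 0 < C ∧ ∀ δ : ℝ, 0 < δ → ∃ r : ℕ, ∀ f : Fin r → ℕ → ℕ,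
      (∀ t j, j < k → 1 ≤ f t j) → (∀ t i j, i < j → j < k → f t i < f t j) →
      ∀ M : ℕ, 1 ≤ M → LowA C δ (((univ : Finset (Finset (Fin r))).filter
        (fun T => T.Nonempty)).image fun T => (range k).image fun j => ∏ t ∈ T, f t j) M := by
  classical
  obtain ⟨C, hC, hU⟩ := hU k hk
  refine ⟨C, hC, fun δ hδ => ?_⟩
  obtain ⟨δs, hδs, hU⟩ := hU δ hδ
  obtain ⟨r, hr⟩ := hZ k δs (by omega) hδs
  refine ⟨r, fun f hf hfi M hM => ?_⟩
  obtain ⟨S, m, PP, hsys, hPP⟩ := hr f hf hfi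
  obtain ⟨c, hc, D, Z0, hU⟩ := hU S m PP hsys M hM
  obtain ⟨hS1, hm, hm1, hPS, -⟩ := id hsys
  obtain ⟨R, hR⟩ : ∃ R : ℕ, R = S.sup id + 1 := ⟨_, rfl⟩
  have hR0 : (0 : ℝ) < R := by
    have : 0 < R := by omega
    exact_mod_cast this
  refine ⟨c / R ^ 2, by positivity, D, Z0, fun Z Y a hZ hY A hA hd => ?_⟩
  have h1 := hU Z Y a hZ hY A hA hd
  rw [div_mul_eq_mul_div, div_le_iff₀ (by positivity), mul_comm (∑ n ∈ _, _)]
  refine h1.trans (UFin_scale _ _ R (fun n hn => (mem_Icc.1 (mem_filter.1 hn).1).1) ?_)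
  intro n hn
  rw [mem_filter, mem_Icc] at hn
  obtain ⟨⟨n1, -⟩, nM, ex, hex, h, h2, h3, h4⟩ := hn
  obtain ⟨x, T, hx1, hT, rfl⟩ := hPP ex hex
  have hmem := (hPS _ hex).1
  have hxR : x ≤ R := by
    have h5 := Finset.le_sup (f := id) (hmem 0 (by omega))
    simp only [id, pr] at h5
    have h6 : x ≤ x * ∏ t ∈ T, f t 0 := Nat.le_mul_of_pos_right x
      (Nat.pos_of_ne_zero (Finset.prod_ne_zero_iff.2 fun t _ => by
        have := hf t 0 (by omega)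
        omega))
    omega
  have hxn : x * n ≤ Y := by
    have h5 := (hA _ (h4 0 (by omega))).2.2.2
    unfold pr at h5
    have h6 : x * n ≤ x * (∏ t ∈ T, f t 0) * n := by
      refine Nat.mul_le_mul_right n (Nat.le_mul_of_pos_right x
        (Nat.pos_of_ne_zero (Finset.prod_ne_zero_iff.2 fun t _ => by
          have := hf t 0 (by omega)
          omega)))
    omega
  refine ⟨x, hx1, hxR, ?_⟩
  rw [mem_filter, mem_Icc]
  refine ⟨⟨Nat.mul_pos hx1 n1, hxn⟩, nM.mul_left _, _, mem_image.2 ⟨T, mem_filter.2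
    ⟨mem_univ _, hT⟩, rfl⟩, h, h2, ?_, ?_⟩
  · refine h3.trans (Real.rpow_le_rpow (Real.log_natCast_nonneg n) ?_ hC.le)
    have hn0 : (0 : ℝ) < n := by exact_mod_cast n1
    refine Real.log_le_log hn0 ?_
    exact_mod_cast Nat.le_mul_of_pos_left n hx1
  · intro e he
    rw [mem_image] at he
    obtain ⟨j, hj, rfl⟩ := he
    have h5 := h4 j (mem_range.1 hj)
    unfold pr at h5
    have h6 : (∏ t ∈ T, f t j) * (x * n) + h = x * (∏ t ∈ T, f t j) * n + h := by ring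
    rw [h6]
    exact h5

/-- many tuples have the same order type -/
private theorem UFin_comb (k K r0 : ℕ) (hkK : k ≤ K)
    (f : Fin (Fintype.card (Fin k → Fin k → Bool) * r0 + 1) → Fin k → ℕ)
    (hf : ∀ t j, 1 ≤ f t j) : ∃ g : Fin r0 → ℕ → ℕ, (∀ t j, j < K → 1 ≤ g t j) ∧
      (∀ t i j, i < j → j < K → g t i < g t j) ∧ ∀ T : Finset (Fin r0), T.Nonempty →
      ∃ T' : Finset (Fin (Fintype.card (Fin k → Fin k → Bool) * r0 + 1)), T'.Nonempty ∧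
        ∀ j : Fin k, ∃ i, i < K ∧ ∏ t ∈ T, g t i = ∏ t ∈ T', f t j := by
  classical
  obtain ⟨y, hy⟩ := Fintype.exists_lt_card_fiber_of_mul_lt_card
    (f := fun t : Fin (Fintype.card (Fin k → Fin k → Bool) * r0 + 1) =>
      fun i j : Fin k => decide (f t i < f t j)) (n := r0) (by
        rw [Fintype.card_fin (Fintype.card (Fin k → Fin k → Bool) * r0 + 1)]
        exact Nat.lt_succ_self _)
  obtain ⟨Cl, hCl⟩ : ∃ Cl : Finset (Fin (Fintype.card (Fin k → Fin k → Bool) * r0 + 1)),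
      Cl = univ.filter (fun t => (fun i j : Fin k => decide (f t i < f t j)) = y) := ⟨_, rfl⟩
  have hcard : r0 < Cl.card := by
    rw [hCl]
    exact hy
  have hty : ∀ t ∈ Cl, ∀ t' ∈ Cl, ∀ i j : Fin k, f t i < f t j → f t' i < f t' j := by
    intro t ht t' ht' i j h
    rw [hCl, mem_filter] at ht ht'
    have h1 : decide (f t i < f t j) = decide (f t' i < f t' j) := by
      rw [congrFun (congrFun ht.2 i) j, congrFun (congrFun ht'.2 i) j]
    exact of_decide_eq_true (h1 ▸ decide_eq_true h)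
  obtain ⟨t0, ht0⟩ : Cl.Nonempty := Finset.card_pos.1 (by omega)
  obtain ⟨Cs, hCs, hCsc⟩ := Finset.exists_subset_card_eq hcard.le
  obtain ⟨σ, hσ⟩ : ∃ σ : Fin r0 ↪ Fin (Fintype.card (Fin k → Fin k → Bool) * r0 + 1),
      ∀ s, σ s ∈ Cl :=
    ⟨(Cs.orderEmbOfFin hCsc).toEmbedding, fun s => hCs (Finset.orderEmbOfFin_mem Cs hCsc s)⟩
  -- the values and their representatives
  obtain ⟨V, hV⟩ : ∃ V : Finset ℕ, V = univ.image (f t0) := ⟨_, rfl⟩
  have hVk : V.card ≤ k := by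
    rw [hV]
    refine card_image_le.trans ?_
    rw [card_univ, Fintype.card_fin]
  have hVm : ∀ a ∈ V, ∃ j : Fin k, f t0 j = a := by
    intro a ha
    rw [hV, mem_image] at ha
    obtain ⟨j, -, hj⟩ := ha
    exact ⟨j, hj⟩
  have hrep : ∀ i : Fin V.card, ∃ j : Fin k, f t0 j = V.orderEmbOfFin rfl i := fun i =>
    hVm _ (Finset.orderEmbOfFin_mem V rfl i)
  choose rep hrep using hrep
  obtain ⟨g, hg⟩ : ∃ g : Fin r0 → ℕ → ℕ, g = fun s i =>
      if h : i < V.card then f (σ s) (rep ⟨i, h⟩) else (∑ j, f (σ s) j) + i + 1 := ⟨_, rfl⟩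
  have hg1 : ∀ s i, ∀ h : i < V.card, g s i = f (σ s) (rep ⟨i, h⟩) := by
    intro s i h
    rw [hg]
    exact dif_pos h
  have hg2 : ∀ s i, ¬ i < V.card → g s i = (∑ j, f (σ s) j) + i + 1 := by
    intro s i h
    rw [hg]
    exact dif_neg h
  refine ⟨g, ?_, ?_, ?_⟩
  · intro s j _
    by_cases h : j < V.card
    · rw [hg1 s j h]
      exact hf _ _
    · rw [hg2 s j h]
      omega
  · intro s i j hij _
    by_cases hj : j < V.card
    · rw [hg1 s j hj, hg1 s i (hij.trans hj)]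
      refine hty t0 ht0 _ (hσ s) _ _ ?_
      rw [hrep, hrep]
      exact (V.orderEmbOfFin rfl).strictMono hij
    · rw [hg2 s j hj]
      by_cases hi : i < V.card
      · rw [hg1 s i hi]
        have h1 := Finset.single_le_sum (f := fun j => f (σ s) j) (fun i _ => Nat.zero_le _)
          (mem_univ (rep ⟨i, hi⟩))
        omega
      · rw [hg2 s i hi]
        omega
  · intro T hT
    refine ⟨T.map σ, hT.map, fun j => ?_⟩
    have h6 : f t0 j ∈ Set.range (V.orderEmbOfFin rfl) := by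
      rw [Finset.range_orderEmbOfFin, hV]
      exact Finset.mem_coe.2 (mem_image_of_mem _ (mem_univ j))
    obtain ⟨i, hi⟩ := h6
    have h7 : f t0 j = f t0 (rep i) := by rw [hrep, hi]
    have h8 : ∀ s, f (σ s) j = f (σ s) (rep i) := by
      intro s
      refine le_antisymm (not_lt.1 fun h => ?_) (not_lt.1 fun h => ?_)
      · exact absurd (hty _ (hσ s) t0 ht0 _ _ h) (by omega)
      · exact absurd (hty _ (hσ s) t0 ht0 _ _ h) (by omega)
    refine ⟨i, (i.2.trans_le hVk).trans_le hkK, ?_⟩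
    rw [Finset.prod_map]
    refine Finset.prod_congr rfl fun s _ => ?_
    rw [hg1 s i i.2, h8 s]

open Classical in
/-- THEOREM U -/
theorem pUFin (hU : S_ULng) (hZ : S_Szm) (k : ℕ) :
    ∃ C : ℝ, ∀ δ : ℝ, 0 < δ → ∃ r : ℕ, ∀ f : Fin r → Fin k → ℕ, (∀ t j, 1 ≤ f t j) →
      ∀ M : ℕ, 1 ≤ M → ∃ c : ℝ, 0 < c ∧ ∃ D Z₀ : ℕ, ∀ Z Y a : ℕ, Z₀ ≤ Z → D * Z ≤ Y →
        ∀ A : Finset ℕ, (∀ p ∈ A, p.Prime ∧ p ≡ a [MOD M] ∧ Z < p ∧ p ≤ Y) →
          δ * Real.log (Y / Z) ≤ (M.totient : ℝ) * ∑ p ∈ A, Real.log p / p →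
          c * Real.log (Y / Z) ≤ ∑ n ∈ (Icc 1 Y).filter (fun n : ℕ => M ∣ n ∧
            ∃ T : Finset (Fin r), T.Nonempty ∧ ∃ h : ℕ, 1 ≤ h ∧ (h : ℝ) ≤ Real.log n ^ C ∧
              ∀ j, (∏ t ∈ T, f t j) * n + h ∈ A), 1 / (n : ℝ) := by
  obtain ⟨C, hC, hI⟩ := UFin_inc hU hZ (max k 3) (le_max_right _ _)
  refine ⟨C, fun δ hδ => ?_⟩
  obtain ⟨r0, hr0⟩ := hI δ hδ
  refine ⟨Fintype.card (Fin k → Fin k → Bool) * r0 + 1, fun f hf M hM => ?_⟩
  obtain ⟨g, hg1, hg2, hg3⟩ := UFin_comb k (max k 3) r0 (le_max_left _ _) f hf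
  obtain ⟨c, hc, D, Z0, hU⟩ := hr0 g hg1 hg2 M hM
  refine ⟨c, hc, D, Z0, fun Z Y a hZ hY A hA hd => (hU Z Y a hZ hY A hA hd).trans ?_⟩
  refine Finset.sum_le_sum_of_subset_of_nonneg ?_ fun n _ _ => by positivity
  intro n hn
  rw [mem_filter] at hn ⊢
  obtain ⟨hn1, hnM, E, hE, h, h2, h3, h4⟩ := hn
  rw [mem_image] at hE
  obtain ⟨T, hT, rfl⟩ := hE
  obtain ⟨T', hT', hTT⟩ := hg3 T (mem_filter.1 hT).2
  refine ⟨hn1, hnM, T', hT', h, h2, h3, fun j => ?_⟩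
  obtain ⟨i, hi, hij⟩ := hTT j
  rw [← hij]
  exact h4 _ (mem_image_of_mem _ (mem_range.2 hi))

end Pool.Agent.Lib.MP_fb5b0b_nt.FB
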