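import Pool.Agent.Lib.MP_fb5b0b_nt.FB.UDef

/-!
MP_fb5b0b_nt, FB, module ULng: from one base point to all base points.
-/

set_option autoImplicit false

namespace Pool.Agent.Lib.MP_fb5b0b_nt.FB

open Finset

/-- large parameters -/
private theorem ULng_large (C : ℝ) (hC : 0 < C) (R : ℕ) (hR : 1 ≤ R) : ∃ Z0 : ℕ, ∀ Z : ℕ, Z0 ≤ Z →
    Real.log Z ^ C ≤ Z / 2 ∧ ∀ n : ℕ, Z ≤ 2 * R * n → Real.log Z ^ C ≤ Real.log n ^ (C + 1) := by
  have hlog : Filter.Tendsto (fun X : ℕ => Real.log (X : ℝ)) Filter.atTop Filter.atTop :=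
    Real.tendsto_log_atTop.comp (tendsto_natCast_atTop_atTop (R := ℝ))
  have t2 := ((isLittleO_log_rpow_rpow_atTop C (one_pos : (0 : ℝ) < 1)).bound
    (show (0 : ℝ) < 1 / 2 by norm_num))
  have t2' := (tendsto_natCast_atTop_atTop (R := ℝ)).eventually t2
  have t3 := hlog.eventually (Filter.eventually_ge_atTop
    (max (2 * Real.log (2 * R)) (2 * max 1 ((2 : ℝ) ^ C))))
  have t := (t2'.and t3).and (Filter.eventually_ge_atTop 1)
  rw [Filter.eventually_atTop] at t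
  obtain ⟨Z0, hZ0⟩ := t
  refine ⟨Z0, fun Z hZ => ?_⟩
  obtain ⟨⟨c2, c3⟩, c4⟩ := hZ0 Z hZ
  have hZp : (0 : ℝ) < Z := by exact_mod_cast c4
  have hl0 : 0 ≤ Real.log (Z : ℝ) := Real.log_natCast_nonneg Z
  rw [Real.rpow_one, Real.norm_of_nonneg (Real.rpow_nonneg hl0 _),
    Real.norm_of_nonneg hZp.le] at c2
  refine ⟨by linarith, fun n hn => ?_⟩
  have hR0 : (0 : ℝ) < 2 * R := by positivity
  have hn0 : 0 < n := by
    rcases Nat.eq_zero_or_pos n with h | h
    · rw [h, mul_zero] at hn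
      omega
    · exact h
  have hnr : (0 : ℝ) < n := by exact_mod_cast hn0
  have h1 : (Z : ℝ) ≤ 2 * R * n := by exact_mod_cast hn
  have h2 := Real.log_le_log hZp h1
  rw [Real.log_mul hR0.ne' hnr.ne'] at h2
  have h3 : 2 * Real.log (2 * R) ≤ Real.log Z := (le_max_left _ _).trans c3
  have h4 : 2 * max 1 ((2 : ℝ) ^ C) ≤ Real.log Z := (le_max_right _ _).trans c3
  have h5 : Real.log Z / 2 ≤ Real.log n := by linarith
  have h6 : max 1 ((2 : ℝ) ^ C) ≤ Real.log n := by linarith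
  have h7 : (1 : ℝ) ≤ Real.log n := (le_max_left _ _).trans h6
  have h8 : (2 : ℝ) ^ C ≤ Real.log n := (le_max_right _ _).trans h6
  have hln : 0 < Real.log n := by linarith
  calc Real.log Z ^ C ≤ (2 * Real.log n) ^ C := Real.rpow_le_rpow hl0 (by linarith) hC.le
    _ = 2 ^ C * Real.log n ^ C := Real.mul_rpow (by norm_num) hln.le
    _ ≤ Real.log n * Real.log n ^ C :=
        mul_le_mul_of_nonneg_right h8 (Real.rpow_nonneg hln.le _)
    _ = Real.log n ^ (C + 1) := by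
        rw [Real.rpow_add hln, Real.rpow_one, mul_comm]

/-- the block of a prime -/
private theorem ULng_block (Z p : ℕ) (hZ : Z < p) : ∀ D : ℕ, p ≤ 2 ^ D * Z →
    ∃ i, i < D ∧ 2 ^ i * Z < p ∧ p ≤ 2 ^ (i + 1) * Z := by
  intro D
  induction D with
  | zero =>
    intro h
    rw [pow_zero, one_mul] at h
    omega
  | succ D ih =>
    intro h
    by_cases h' : p ≤ 2 ^ D * Z
    · obtain ⟨e, he, h1⟩ := ih h'
      exact ⟨e, by omega, h1⟩
    · exact ⟨D, by omega, not_le.mp h', h⟩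

/-- sums over unions -/
private theorem ULng_union {s : Finset ℕ} {t : ℕ → Finset ℕ} {f : ℕ → ℝ}
    (hf : ∀ i ∈ s, ∀ p ∈ t i, 0 ≤ f p) : ∑ p ∈ s.biUnion t, f p ≤ ∑ i ∈ s, ∑ p ∈ t i, f p := by
  classical
  have h1 : ∀ i ∈ s, ∑ p ∈ t i, f p = ∑ p ∈ s.biUnion t, if p ∈ t i then f p else 0 := by
    intro i hi
    rw [← Finset.sum_filter]
    refine Finset.sum_congr ?_ fun _ _ => rfl
    ext p
    rw [mem_filter, mem_biUnion]
    exact ⟨fun h => ⟨⟨i, hi, h⟩, h⟩, fun h => h.2⟩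
  rw [Finset.sum_congr rfl h1, Finset.sum_comm]
  refine Finset.sum_le_sum fun p hp => ?_
  rw [mem_biUnion] at hp
  obtain ⟨i, hi, hp⟩ := hp
  have h2 := Finset.single_le_sum (f := fun i => if p ∈ t i then f p else 0)
    (fun j hj => by
      split_ifs with h
      · exact hf j hj p h
      · exact le_rfl) hi
  simp only [if_pos hp] at h2
  exact h2

/-- Chebyshev's bound for the primes between Z and K Z -/
private theorem ULng_cheb (A : Finset ℕ) (Z K : ℕ) (hZ : 1 ≤ Z)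
    (hA : ∀ p ∈ A, p.Prime ∧ Z < p ∧ p ≤ K * Z) :
    ∑ p ∈ A, Real.log p / p ≤ Real.log 4 * K := by
  have hZ0 : (0 : ℝ) < Z := by exact_mod_cast hZ
  have h1 : ∑ p ∈ A, Real.log p / p ≤ (∑ p ∈ A, Real.log p) / Z := by
    rw [Finset.sum_div]
    refine Finset.sum_le_sum fun p hp => ?_
    obtain ⟨-, h2, -⟩ := hA p hp
    exact div_le_div_of_nonneg_left (Real.log_natCast_nonneg p) hZ0 (by exact_mod_cast h2.le)
  refine h1.trans ?_
  rw [div_le_iff₀ hZ0]
  have h2 := Chebyshev.theta_le_log4_mul_x (x := ((K * Z : ℕ) : ℝ)) (Nat.cast_nonneg _)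
  rw [Chebyshev.theta_eq_sum_primesLE_log] at h2
  have h3 : ∑ p ∈ A, Real.log p ≤ ∑ p ∈ Nat.primesLE (K * Z), Real.log p := by
    refine Finset.sum_le_sum_of_subset_of_nonneg ?_ fun p _ _ => Real.log_natCast_nonneg p
    intro p hp
    obtain ⟨g1, -, g3⟩ := hA p hp
    rw [Nat.mem_primesLE]
    exact ⟨g3, g1⟩
  have h4 : Real.log 4 * K * Z = Real.log 4 * ((K * Z : ℕ) : ℝ) := by
    push_cast
    ring
  rw [h4]
  exact h3.trans h2

theorem pULng (hL : S_ULoc) : S_ULng := by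
  classical
  intro k hk
  obtain ⟨C, hC, hL⟩ := hL k hk
  refine ⟨C + 1, by linarith, fun δ hδ => ?_⟩
  obtain ⟨δs, hδs, hL⟩ := hL (δ / 12) (by positivity)
  refine ⟨δs, hδs, fun S m PP hSys M hM => ?_⟩
  obtain ⟨c, hc, Z1, hZ1⟩ := hL S m PP hSys M hM
  obtain ⟨hS1, hm, hm1, hPP, hPA⟩ := id hSys
  obtain ⟨R, hR⟩ : ∃ R : ℕ, R = S.sup id + 1 := ⟨_, rfl⟩
  have hSR : ∀ e ∈ S, e ≤ R := by
    intro e he
    have := Finset.le_sup (f := id) he
    simp only [id] at this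
    omega
  have hR1 : 1 ≤ R := by omega
  have hR0 : (0 : ℝ) < R := by exact_mod_cast hR1
  obtain ⟨φ, hφ⟩ : ∃ φ : ℝ, φ = (M.totient : ℝ) := ⟨_, rfl⟩
  have hφ1 : (0 : ℝ) < φ := by
    rw [hφ]
    exact Nat.cast_pos.mpr (Nat.totient_pos.mpr (by omega))
  obtain ⟨Z2, hZ2⟩ := ULng_large C hC R hR1
  have hlog4 : Real.log 4 ≤ 3 / 2 := by
    have h1 : Real.log 4 = 2 * Real.log 2 := by
      rw [show (4 : ℝ) = 2 ^ 2 by norm_num, Real.log_pow]
      norm_num
    have := Real.log_two_lt_d9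
    linarith
  have hlog40 : 0 < Real.log 4 := Real.log_pos (by norm_num)
  obtain ⟨T0, hT0⟩ : ∃ T0 : ℝ, T0 = 2 * φ * (R * Real.log 4) / δ := ⟨_, rfl⟩
  refine ⟨δ * c / (384 * φ * R), by positivity, max 2 ⌈Real.exp T0⌉₊, max 1 (max Z1 Z2),
    fun Z Y a hZ hDY A hA hd => ?_⟩
  rw [← hφ] at hd
  have hZone : 1 ≤ Z := (le_max_left _ _).trans hZ
  have hZ1' : Z1 ≤ Z := ((le_max_left _ _).trans (le_max_right _ _)).trans hZ
  have hZ2' : Z2 ≤ Z := ((le_max_right _ _).trans (le_max_right _ _)).trans hZ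
  have hZp : (0 : ℝ) < Z := by exact_mod_cast hZone
  obtain ⟨T, hT⟩ : ∃ T : ℝ, T = Real.log (Y / Z) := ⟨_, rfl⟩
  rw [← hT] at hd ⊢
  have hDYr : ((max 2 ⌈Real.exp T0⌉₊ : ℕ) : ℝ) ≤ Y / Z := by
    rw [le_div_iff₀ hZp]
    exact_mod_cast hDY
  have hYZ2 : (2 : ℝ) ≤ Y / Z := by
    refine le_trans ?_ hDYr
    exact_mod_cast le_max_left 2 ⌈Real.exp T0⌉₊
  have hYZe : Real.exp T0 ≤ Y / Z := by
    refine (Nat.le_ceil _).trans (le_trans ?_ hDYr)
    exact_mod_cast le_max_right 2 ⌈Real.exp T0⌉₊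
  have hTT0 : T0 ≤ T := by
    rw [hT, Real.le_log_iff_exp_le (by linarith)]
    exact hYZe
  have hTlog2 : Real.log 2 ≤ T := by
    rw [hT]
    exact Real.log_le_log (by norm_num) hYZ2
  have hlog2 := Real.log_two_gt_d9
  have hT0' : 0 < T := by linarith
  -- the number of base points
  obtain ⟨L, hLd⟩ : ∃ L : ℕ, L = Nat.log 2 (Y / Z) := ⟨_, rfl⟩
  have hYZn : Y / Z ≠ 0 := by
    have h1 : max 2 ⌈Real.exp T0⌉₊ ≤ Y / Z := (Nat.le_div_iff_mul_le hZone).2 hDY
    have h2 : 2 ≤ max 2 ⌈Real.exp T0⌉₊ := le_max_left _ _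
    omega
  have hL1 : 2 ^ L ≤ Y / Z := by
    rw [hLd]
    exact Nat.pow_log_le_self 2 hYZn
  have hL2 : Y < 2 ^ (L + 1) * Z := by
    have h1 : Y / Z < 2 ^ (L + 1) := by
      rw [hLd]
      exact Nat.lt_pow_succ_log_self (by norm_num) _
    exact (Nat.div_lt_iff_lt_mul hZone).1 h1
  have hL3 : ((L + 1 : ℕ) : ℝ) ≤ 3 * T := by
    have h1 : (2 : ℝ) ^ L ≤ Y / Z := by
      have h2 : ((2 ^ L : ℕ) : ℝ) ≤ ((Y / Z : ℕ) : ℝ) := by exact_mod_cast hL1
      have h3 : ((Y / Z : ℕ) : ℝ) ≤ (Y : ℝ) / Z := Nat.cast_div_le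
      push_cast at h2
      linarith
    have h2 := Real.log_le_log (by positivity) h1
    rw [Real.log_pow, ← hT] at h2
    push_cast
    have h3 : (L : ℝ) * 0.6931471803 ≤ L * Real.log 2 :=
      mul_le_mul_of_nonneg_left hlog2.le (Nat.cast_nonneg L)
    nlinarith
  -- the masses
  obtain ⟨v, hv⟩ : ∃ v : ℕ → ℝ, v = fun i => φ * Bl S m (2 ^ i * Z) A := ⟨_, rfl⟩
  have hA0 : ∀ p ∈ A, 0 ≤ Real.log p / p := fun p _ =>
    div_nonneg (Real.log_natCast_nonneg p) (Nat.cast_nonneg p)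
  have hvle : ∀ i, v i ≤ 3 * φ := by
    intro i
    rw [hv]
    have h1 : Bl S m (2 ^ i * Z) A ≤ 3 := by
      unfold Bl
      calc _ ≤ ∑ e ∈ S, m e * 3 := by
            refine Finset.sum_le_sum fun e he => mul_le_mul_of_nonneg_left ?_ (hm e)
            have h2 := ULng_cheb (A.filter (fun p => e * (2 ^ i * Z) < p ∧
              p ≤ 2 * e * (2 ^ i * Z))) (e * (2 ^ i * Z)) 2
              (Nat.mul_pos (hS1 e he) (Nat.mul_pos (by positivity) hZone)) (by
                intro p hp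
                rw [mem_filter] at hp
                refine ⟨(hA p hp.1).1, hp.2.1, ?_⟩
                rw [← mul_assoc]
                exact hp.2.2)
            push_cast at h2
            linarith
        _ = 3 := by rw [← Finset.sum_mul, hm1, one_mul]
    calc φ * Bl S m (2 ^ i * Z) A ≤ φ * 3 := mul_le_mul_of_nonneg_left h1 hφ1.le
      _ = 3 * φ := mul_comm _ _
  have hvsum : δ * T / 2 ≤ ∑ i ∈ range (L + 1), v i := by
    have h1 : ∀ e ∈ S, ∑ p ∈ A, Real.log p / p - R * Real.log 4 ≤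
        ∑ i ∈ range (L + 1), ∑ p ∈ A.filter (fun p => e * (2 ^ i * Z) < p ∧
          p ≤ 2 * e * (2 ^ i * Z)), Real.log p / p := by
      intro e he
      have he1 := hS1 e he
      have h2 : ∑ p ∈ A.filter (fun p => p ≤ e * Z), Real.log p / p ≤ R * Real.log 4 := by
        have h3 := ULng_cheb (A.filter (fun p => p ≤ e * Z)) Z e hZone (by
          intro p hp
          rw [mem_filter] at hp
          obtain ⟨g1, g2, g3, g4⟩ := hA p hp.1
          exact ⟨g1, g3, hp.2⟩)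
        have h4 : (e : ℝ) ≤ R := by exact_mod_cast hSR e he
        nlinarith
      have h3 := Finset.sum_filter_add_sum_filter_not A (fun p => p ≤ e * Z)
        (fun p : ℕ => Real.log p / p)
      have h4 : ∑ p ∈ A.filter (fun p => ¬ p ≤ e * Z), Real.log p / p ≤
          ∑ i ∈ range (L + 1), ∑ p ∈ A.filter (fun p => e * (2 ^ i * Z) < p ∧
            p ≤ 2 * e * (2 ^ i * Z)), Real.log p / p := by
        have h5 : A.filter (fun p => ¬ p ≤ e * Z) ⊆ (range (L + 1)).biUnion (fun i =>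
            A.filter (fun p => e * (2 ^ i * Z) < p ∧ p ≤ 2 * e * (2 ^ i * Z))) := by
          intro p hp
          rw [mem_filter] at hp
          obtain ⟨g1, g2, g3, g4⟩ := hA p hp.1
          have h6 : p ≤ 2 ^ (L + 1) * (e * Z) := by
            have h7 : 2 ^ (L + 1) * Z ≤ e * (2 ^ (L + 1) * Z) := Nat.le_mul_of_pos_left _ he1
            have h8 : e * (2 ^ (L + 1) * Z) = 2 ^ (L + 1) * (e * Z) := by ring
            omega
          obtain ⟨i, i1, i2, i3⟩ := ULng_block (e * Z) p (not_le.1 hp.2) (L + 1) h6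
          refine mem_biUnion.2 ⟨i, mem_range.2 i1, mem_filter.2 ⟨hp.1, ?_, ?_⟩⟩
          · have h7 : e * (2 ^ i * Z) = 2 ^ i * (e * Z) := by ring
            rw [h7]
            exact i2
          · have h7 : 2 * e * (2 ^ i * Z) = 2 ^ (i + 1) * (e * Z) := by ring
            rw [h7]
            exact i3
        refine (Finset.sum_le_sum_of_subset_of_nonneg h5 ?_).trans (ULng_union ?_)
        · intro p hp _
          rw [mem_biUnion] at hp
          obtain ⟨i, -, hp⟩ := hp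
          exact hA0 p (mem_filter.1 hp).1
        · exact fun i _ p hp => hA0 p (mem_filter.1 hp).1
      linarith
    have h2 : ∑ i ∈ range (L + 1), v i = φ * ∑ e ∈ S, m e * ∑ i ∈ range (L + 1),
        ∑ p ∈ A.filter (fun p => e * (2 ^ i * Z) < p ∧ p ≤ 2 * e * (2 ^ i * Z)),
          Real.log p / p := by
      rw [hv]
      unfold Bl
      rw [← Finset.mul_sum, Finset.sum_comm]
      congr 1
      refine Finset.sum_congr rfl fun e _ => ?_
      rw [← Finset.mul_sum]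
    rw [h2]
    have h3 : ∑ p ∈ A, Real.log p / p - R * Real.log 4 ≤ ∑ e ∈ S, m e * ∑ i ∈ range (L + 1),
        ∑ p ∈ A.filter (fun p => e * (2 ^ i * Z) < p ∧ p ≤ 2 * e * (2 ^ i * Z)),
          Real.log p / p := by
      calc _ = ∑ e ∈ S, m e * (∑ p ∈ A, Real.log p / p - R * Real.log 4) := by
            rw [← Finset.sum_mul, hm1, one_mul]
        _ ≤ _ := Finset.sum_le_sum fun e he => mul_le_mul_of_nonneg_left (h1 e he) (hm e)
    have h4 := mul_le_mul_of_nonneg_left h3 hφ1.le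
    refine le_trans ?_ h4
    have h5 : φ * (R * Real.log 4) ≤ δ * T / 2 := by
      have h6 : T0 * δ = 2 * φ * (R * Real.log 4) := by
        rw [hT0]
        field_simp
      nlinarith
    rw [mul_sub]
    linarith
  -- the good base points
  obtain ⟨G, hG⟩ : ∃ G : Finset ℕ, G = (range (L + 1)).filter (fun i => δ / 12 ≤ v i) := ⟨_, rfl⟩
  have hGc : δ * T / (12 * φ) ≤ (G.card : ℝ) := by
    have h1 := Finset.sum_filter_add_sum_filter_not (range (L + 1)) (fun i => δ / 12 ≤ v i) v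
    rw [← hG] at h1
    have h2 : ∑ i ∈ G, v i ≤ (G.card : ℝ) * (3 * φ) := by
      rw [← nsmul_eq_mul, ← sum_const]
      exact Finset.sum_le_sum fun i _ => hvle i
    have h3 : ∑ i ∈ (range (L + 1)).filter (fun i => ¬ δ / 12 ≤ v i), v i ≤
        3 * T * (δ / 12) := by
      have h4 : ∑ i ∈ (range (L + 1)).filter (fun i => ¬ δ / 12 ≤ v i), v i ≤
          (((range (L + 1)).filter (fun i => ¬ δ / 12 ≤ v i)).card : ℝ) * (δ / 12) := by
        rw [← nsmul_eq_mul, ← sum_const]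
        refine Finset.sum_le_sum fun i hi => ?_
        exact (not_le.1 (mem_filter.1 hi).2).le
      refine h4.trans (mul_le_mul_of_nonneg_right ?_ (by positivity))
      refine le_trans ?_ hL3
      have h5 := card_filter_le (range (L + 1)) (fun i => ¬ δ / 12 ≤ v i)
      rw [card_range] at h5
      exact_mod_cast h5
    rw [div_le_iff₀ (by positivity)]
    nlinarith
  -- the good points
  obtain ⟨Gd, hGd⟩ : ∃ Gd : ℕ → Finset ℕ, Gd = fun i => (Icc 1 (4 * (2 ^ i * Z))).filter (fun n =>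
      GdA k PP M (A.filter (fun p => 2 ^ i * Z < p)) ((Real.log ((2 ^ i * Z : ℕ) : ℝ)) ^ C) n) :=
    ⟨_, rfl⟩
  obtain ⟨Go, hGo⟩ : ∃ Go : Finset ℕ, Go = (Icc 1 Y).filter (fun n : ℕ =>
      GdA k PP M A ((Real.log n) ^ (C + 1)) n) := ⟨_, rfl⟩
  have hgo : ∀ i n, n ∈ Gd i → n ∈ Go ∧ 1 ≤ n ∧ n ≤ 4 * (2 ^ i * Z) ∧ 2 ^ i * Z ≤ 2 * R * n := by
    intro i n hn
    rw [hGd] at hn
    simp only at hn
    rw [mem_filter, mem_Icc] at hn
    obtain ⟨⟨n1, n2⟩, nM, ex, hex, h, h1, h2, h3⟩ := hn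
    have hZi : Z ≤ 2 ^ i * Z := Nat.le_mul_of_pos_left _ (by positivity)
    obtain ⟨g1, g2⟩ := hZ2 (2 ^ i * Z) (hZ2'.trans hZi)
    have h4 := mem_filter.1 (h3 0 (by omega))
    have he1 := hS1 _ ((hPP ex hex).1 0 (by omega))
    have heR := hSR _ ((hPP ex hex).1 0 (by omega))
    have h5 : 2 ^ i * Z ≤ 2 * R * n := by
      have h6 : (h : ℝ) ≤ ((2 ^ i * Z : ℕ) : ℝ) / 2 := h2.trans g1
      have h7 : 2 * h ≤ 2 ^ i * Z := by
        have : (2 : ℝ) * h ≤ ((2 ^ i * Z : ℕ) : ℝ) := by linarith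
        exact_mod_cast this
      have h8 : ex 0 * n ≤ R * n := Nat.mul_le_mul_right _ heR
      have h9 : 2 * R * n = 2 * (R * n) := by ring
      have h10 := h4.2
      omega
    refine ⟨?_, n1, n2, h5⟩
    rw [hGo, mem_filter, mem_Icc]
    refine ⟨⟨n1, ?_⟩, nM, ex, hex, h, h1, h2.trans (g2 n h5), fun j hj =>
      (mem_filter.1 (h3 j hj)).1⟩
    have h6 := (hA _ h4.1).2.2.2
    have h7 : n ≤ ex 0 * n := Nat.le_mul_of_pos_left _ he1
    omega
  have hGdc : ∀ i ∈ G, c / 4 ≤ ∑ n ∈ Gd i, 1 / (n : ℝ) := by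
    intro i hi
    rw [hG, mem_filter] at hi
    have hZi : Z ≤ 2 ^ i * Z := Nat.le_mul_of_pos_left _ (by positivity)
    have hZip : (0 : ℝ) < ((2 ^ i * Z : ℕ) : ℝ) := by
      have : 0 < 2 ^ i * Z := by omega
      exact_mod_cast this
    have h1 := hZ1 (2 ^ i * Z) (hZ1'.trans hZi) a (A.filter (fun p => 2 ^ i * Z < p)) (by
      intro p hp
      rw [mem_filter] at hp
      obtain ⟨g1, g2, g3, g4⟩ := hA p hp.1
      exact ⟨g1, hp.2, g2⟩) (by
      have h2 : Bl S m (2 ^ i * Z) (A.filter (fun p => 2 ^ i * Z < p)) =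
          Bl S m (2 ^ i * Z) A := by
        unfold Bl
        refine Finset.sum_congr rfl fun e he => ?_
        congr 1
        refine Finset.sum_congr ?_ fun _ _ => rfl
        rw [Finset.filter_filter]
        refine Finset.filter_congr fun p _ => ?_
        have h3 : 2 ^ i * Z ≤ e * (2 ^ i * Z) := Nat.le_mul_of_pos_left _ (hS1 e he)
        constructor
        · exact fun h => h.2
        · exact fun h => ⟨lt_of_le_of_lt h3 h.1, h⟩
      rw [h2, ← hφ]
      have h3 := hi.2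
      rw [hv] at h3
      exact h3)
    have h2 : c * ((2 ^ i * Z : ℕ) : ℝ) ≤ ((Gd i).card : ℝ) := by
      rw [hGd]
      exact h1
    have h3 : ((Gd i).card : ℝ) * (1 / (4 * ((2 ^ i * Z : ℕ) : ℝ))) ≤ ∑ n ∈ Gd i, 1 / (n : ℝ) := by
      rw [← nsmul_eq_mul, ← sum_const]
      refine Finset.sum_le_sum fun n hn => ?_
      obtain ⟨-, n1, n2, -⟩ := hgo i n hn
      have hn0 : (0 : ℝ) < n := by exact_mod_cast n1
      refine div_le_div_of_nonneg_left (by norm_num) hn0 ?_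
      exact_mod_cast n2
    refine le_trans ?_ h3
    have h4 : c / 4 = c * ((2 ^ i * Z : ℕ) : ℝ) * (1 / (4 * ((2 ^ i * Z : ℕ) : ℝ))) := by
      field_simp
    rw [h4]
    exact mul_le_mul_of_nonneg_right h2 (by positivity)
  have hmult : ∀ n, (G.filter (fun i => n ∈ Gd i)).card ≤ 8 * R := by
    intro n
    rcases (G.filter (fun i => n ∈ Gd i)).eq_empty_or_nonempty with h0 | hne
    · rw [h0, card_empty]
      exact Nat.zero_le _
    obtain ⟨i0, hi0⟩ : ∃ i0 : ℕ, i0 = (G.filter (fun i => n ∈ Gd i)).min' hne := ⟨_, rfl⟩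
    have hi0m : n ∈ Gd i0 := by
      rw [hi0]
      exact (mem_filter.1 (Finset.min'_mem _ hne)).2
    obtain ⟨-, -, b1, -⟩ := hgo i0 n hi0m
    have hsub : G.filter (fun i => n ∈ Gd i) ⊆ Ico i0 (i0 + 8 * R) := by
      intro i hi
      have hle : i0 ≤ i := by
        rw [hi0]
        exact Finset.min'_le _ _ hi
      obtain ⟨-, -, -, b2⟩ := hgo i n (mem_filter.1 hi).2
      rw [mem_Ico]
      refine ⟨hle, ?_⟩
      obtain ⟨d, rfl⟩ := Nat.exists_eq_add_of_le hle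
      have h1 : 2 ^ i0 * Z * 2 ^ d ≤ 2 ^ i0 * Z * (8 * R) := by
        calc 2 ^ i0 * Z * 2 ^ d = 2 ^ (i0 + d) * Z := by ring
          _ ≤ 2 * R * n := b2
          _ ≤ 2 * R * (4 * (2 ^ i0 * Z)) := Nat.mul_le_mul_left _ b1
          _ = 2 ^ i0 * Z * (8 * R) := by ring
      have h2 : 2 ^ d ≤ 8 * R := Nat.le_of_mul_le_mul_left h1 (by positivity)
      have h3 : d < 2 ^ d := Nat.lt_two_pow_self
      omega
    refine (card_le_card hsub).trans ?_
    rw [Nat.card_Ico]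
    omega
  have hfin : (G.card : ℝ) * (c / 4) ≤ 8 * R * ∑ n ∈ Go, 1 / (n : ℝ) := by
    calc (G.card : ℝ) * (c / 4) = ∑ _i ∈ G, c / 4 := by rw [sum_const, nsmul_eq_mul]
      _ ≤ ∑ i ∈ G, ∑ n ∈ Gd i, 1 / (n : ℝ) := Finset.sum_le_sum hGdc
      _ = ∑ i ∈ G, ∑ n ∈ Go, (if n ∈ Gd i then 1 / (n : ℝ) else 0) := by
          refine Finset.sum_congr rfl fun i _ => ?_
          rw [← Finset.sum_filter]
          refine Finset.sum_congr ?_ fun _ _ => rfl
          ext n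
          rw [mem_filter]
          exact ⟨fun h => ⟨(hgo i n h).1, h⟩, fun h => h.2⟩
      _ = ∑ n ∈ Go, ∑ i ∈ G, (if n ∈ Gd i then 1 / (n : ℝ) else 0) := Finset.sum_comm
      _ ≤ ∑ n ∈ Go, 8 * R * (1 / (n : ℝ)) := by
          refine Finset.sum_le_sum fun n _ => ?_
          rw [← Finset.sum_filter, sum_const, nsmul_eq_mul]
          refine mul_le_mul_of_nonneg_right ?_ (by positivity)
          exact_mod_cast hmult n
      _ = 8 * R * ∑ n ∈ Go, 1 / (n : ℝ) := by rw [← Finset.mul_sum]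
  have h1 : δ * T / (12 * φ) * (c / 4) ≤ 8 * R * ∑ n ∈ Go, 1 / (n : ℝ) :=
    (mul_le_mul_of_nonneg_right hGc (by positivity)).trans hfin
  have h2 : δ * c / (384 * φ * R) * T = δ * T / (12 * φ) * (c / 4) / (8 * R) := by
    field_simp
    norm_num
  rw [← hGo, h2, div_le_iff₀ (by positivity)]
  linarith

end Pool.Agent.Lib.MP_fb5b0b_nt.FB
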