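import Pool.Agent.Lib.MP_9f2731_nt.SS.All
import Pool.Agent.Lib.MP_fb5b0b_nt.FB.Szm
import Pool.Agent.Lib.MP_fb5b0b_nt.FB.Pos
import Pool.Agent.Lib.MP_fb5b0b_nt.FB.Cut
import Pool.Agent.Lib.MP_fb5b0b_nt.FB.Cfg
import Pool.Agent.Lib.MP_fb5b0b_nt.FB.Fnl
import Pool.Agent.Lib.MP_fb5b0b_nt.FB.Fob
import Pool.Agent.Lib.MP_fb5b0b_nt.FB.Gen
import Pool.Agent.Lib.MP_fb5b0b_nt.FB.Xav
import Pool.Agent.Lib.MP_fb5b0b_nt.FB.Avg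
import Pool.Agent.Lib.MP_fb5b0b_nt.FB.Eqd
import Pool.Agent.Lib.MP_fb5b0b_nt.FB.Lf1
import Pool.Agent.Lib.MP_fb5b0b_nt.FB.Lf2
import Pool.Agent.Lib.MP_fb5b0b_nt.FB.Sec
import Pool.Agent.Lib.MP_fb5b0b_nt.FB.Maj
import Pool.Agent.Lib.MP_fb5b0b_nt.FB.Cnt
import Pool.Agent.Lib.MP_fb5b0b_nt.FB.Pts
import Pool.Agent.Lib.MP_fb5b0b_nt.FB.UDen
import Pool.Agent.Lib.MP_fb5b0b_nt.FB.UBas
import Pool.Agent.Lib.MP_fb5b0b_nt.FB.ULng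
import Pool.Agent.Lib.MP_fb5b0b_nt.FB.UFin

/-!
MP_fb5b0b_nt, FB: THEOREM U without hypotheses.
-/

set_option autoImplicit false

namespace Pool.Agent.Lib.MP_fb5b0b_nt.FB

open Finset
open Pool.Agent.Lib.MP_9f2731_nt

/-- the relative counting theorem -/
private theorem UTop_rc : RcStmt := by
  have aGcs := GP.Rel.pGcs (GP.Rel.pGst (GP.Rel.pCs1 GP.Rel.pUpd))
  have aPr2 := GP.Rel.pPr2 GP.Rel.pUpd GP.Rel.pMrg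
  have aCl := GP.Rel.pCl GP.Rel.pCl0
    (GP.Rel.pCl1 (GP.Rel.pStf aGcs GP.Rel.pAlt) aPr2 (GP.Rel.pVar aPr2 GP.Rel.pMrg))
  have aDmt := GP.Rel.pDmt GP.Rel.pReg GP.Rel.pPhi
    (GP.Rel.pPol GP.Rel.pPhi (GP.Rel.pPml GP.Rel.pPhi))
  have aNuc := GP.Rel.pNuc aGcs GP.Rel.pAlt GP.Rel.pCfm GP.Rel.pMrg
  exact pFnl pPos aCl aDmt aNuc pCut pCfg

/-- one base point -/
theorem uLoc : S_ULoc := by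
  have aAvg := pAvg (pXav pFob GP.Rom.pExp GP.Rom.pTot GP.Rom.pRlg)
  exact pULoc UTop_rc (pGen SS.corL SS.momL SS.pSng pFob)
    (pLf1 aAvg GP.Asm.pEqd) (pLf2 aAvg pEqd) (pSec aAvg) pMaj (pUDen pCnt) pPts
    GP.Asm.pSel

open Classical in
/-- THEOREM U -/
theorem uAll (k : ℕ) :
    ∃ C : ℝ, ∀ δ : ℝ, 0 < δ → ∃ r : ℕ, ∀ f : Fin r → Fin k → ℕ, (∀ t j, 1 ≤ f t j) →
      ∀ M : ℕ, 1 ≤ M → ∃ c : ℝ, 0 < c ∧ ∃ D Z₀ : ℕ, ∀ Z Y a : ℕ, Z₀ ≤ Z → D * Z ≤ Y →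
        ∀ A : Finset ℕ, (∀ p ∈ A, p.Prime ∧ p ≡ a [MOD M] ∧ Z < p ∧ p ≤ Y) →
          δ * Real.log (Y / Z) ≤ (M.totient : ℝ) * ∑ p ∈ A, Real.log p / p →
          c * Real.log (Y / Z) ≤ ∑ n ∈ (Icc 1 Y).filter (fun n : ℕ => M ∣ n ∧
            ∃ T : Finset (Fin r), T.Nonempty ∧ ∃ h : ℕ, 1 ≤ h ∧ (h : ℝ) ≤ Real.log n ^ C ∧
              ∀ j, (∏ t ∈ T, f t j) * n + h ∈ A), 1 / (n : ℝ) :=
  pUFin (pULng uLoc) (pSzm GP.Dhj.dhjAll) k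

end Pool.Agent.Lib.MP_fb5b0b_nt.FB
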